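import Pool.Agent.H38.Forest

set_option autoImplicit false
set_option linter.unusedSectionVars false
set_option linter.unusedSimpArgs false
set_option linter.unusedVariables false

namespace Pool.Agent.H38

open Finset

/-- distance of `p` and `q` in the forest on `W`, via smallest subtrees -/
noncomputable def dd {V : Type*} (G : SimpleGraph V) (W : Finset V) (p q : V) : ℕ :=
  sInf {n | ∃ P ⊆ W, IsSub G P ∧ p ∈ P ∧ q ∈ P ∧ P.card = n + 1}

section
variable {V : Type*} [DecidableEq V] {G : SimpleGraph V}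

lemma dd_le {W P : Finset V} {p q : V} (hP : P ⊆ W) (hs : IsSub G P) (hp : p ∈ P) (hq : q ∈ P) :
    dd G W p q + 1 ≤ P.card := by
  have hpos : 0 < P.card := card_pos.mpr ⟨p, hp⟩
  have : dd G W p q ≤ P.card - 1 := by
    apply Nat.sInf_le
    exact ⟨P, hP, hs, hp, hq, by omega⟩
  omega

lemma dd_spec {W T : Finset V} {p q : V} (hW : Sparse G W) (hT : T ⊆ W) (hs : IsSub G T)
    (hp : p ∈ T) (hq : q ∈ T) :
    ∃ P ⊆ T, IsSub G P ∧ p ∈ P ∧ q ∈ P ∧ P.card = dd G W p q + 1 := by
  have hne : {n | ∃ P ⊆ W, IsSub G P ∧ p ∈ P ∧ q ∈ P ∧ P.card = n + 1}.Nonempty := by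
    have hpos : 0 < T.card := card_pos.mpr ⟨p, hp⟩
    exact ⟨T.card - 1, T, hT, hs, hp, hq, by omega⟩
  obtain ⟨P, hP, hPs, hpP, hqP, hc⟩ := Nat.sInf_mem hne
  have h1 : IsSub G (P ∩ T) := hPs.inter hW hP hT hs ⟨p, mem_inter.mpr ⟨hpP, hp⟩⟩
  have h2 := dd_le (G := G) (inter_subset_left.trans hP) h1 (mem_inter.mpr ⟨hpP, hp⟩)
    (mem_inter.mpr ⟨hqP, hq⟩)
  have h3 : (P ∩ T).card ≤ P.card := card_le_card inter_subset_left
  have hc' : P.card = dd G W p q + 1 := hc
  exact ⟨P ∩ T, inter_subset_right, h1, mem_inter.mpr ⟨hpP, hp⟩, mem_inter.mpr ⟨hqP, hq⟩, by omega⟩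

lemma dd_self {W : Finset V} {p : V} (hp : p ∈ W) : dd G W p p = 0 := by
  have := dd_le (G := G) (W := W) (P := {p}) (p := p) (q := p) (by simpa using hp)
    (isSub_singleton p) (by simp) (by simp)
  simp at this
  exact this

lemma dd_comm (W : Finset V) (p q : V) : dd G W p q = dd G W q p := by
  unfold dd
  congr 1
  ext n
  constructor
  · rintro ⟨P, h1, h2, h3, h4, h5⟩; exact ⟨P, h1, h2, h4, h3, h5⟩
  · rintro ⟨P, h1, h2, h3, h4, h5⟩; exact ⟨P, h1, h2, h4, h3, h5⟩

lemma dd_eq_zero {W T : Finset V} {p q : V} (hW : Sparse G W) (hT : T ⊆ W) (hs : IsSub G T)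
    (hp : p ∈ T) (hq : q ∈ T) (h : dd G W p q = 0) : p = q := by
  obtain ⟨P, _, _, h1, h2, h3⟩ := dd_spec hW hT hs hp hq
  rw [h, zero_add, card_eq_one] at h3
  obtain ⟨z, rfl⟩ := h3
  simp at h1 h2
  rw [h1, h2]

lemma eI_union_disjoint {U W : Finset V} (h : Disjoint U W) :
    eI G (U ∪ W) = eI G U + eI G W + ∑ z ∈ U, dN G W z := by
  classical
  induction U using Finset.induction_on with
  | empty => simp
  | insert a U ha ih =>
    rw [disjoint_insert_left] at h
    have h1 : a ∉ U ∪ W := by simp [ha, h.1]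
    rw [insert_union, eI_insert G h1, ih h.2, eI_insert G ha, sum_insert ha,
      dN_union_disjoint G h.2]
    omega

lemma split_tree {W T : Finset V} {r : V} (hW : Sparse G W) (hT : T ⊆ W) (hs : IsSub G T)
    (hr : r ∈ T) (hne : T ≠ {r}) :
    ∃ T1 T2 : Finset V, ∃ r' : V, T1 ∪ T2 = T ∧ Disjoint T1 T2 ∧ r ∈ T1 ∧ r' ∈ T2 ∧
      IsSub G T1 ∧ IsSub G T2 ∧ (∀ q ∈ T2, dd G W r q = dd G W r' q + 1) ∧
      (∀ p ∈ T1, ∀ q ∈ T2, dd G W p q ≤ dd G W r p + (dd G W r' q + 1)) := by
  classical
  obtain ⟨r', hr', harr'⟩ := hs.exists_adj hW hT hr hne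
  have hrr' : r' ≠ r := harr'.ne'
  set S := T.powerset.filter (fun P => IsSub G P ∧ r' ∈ P ∧ r ∉ P) with hS
  have hSne : S.Nonempty := ⟨{r'}, by
    rw [hS, mem_filter, mem_powerset]
    exact ⟨by simpa using hr', isSub_singleton _, by simp, by simpa using hrr'.symm⟩⟩
  obtain ⟨T2, hT2S, hmax⟩ := exists_max_image S card hSne
  rw [hS, mem_filter, mem_powerset] at hT2S
  obtain ⟨hT2T, hT2s, hr'T2, hrT2⟩ := hT2S
  have hT2W := hT2T.trans hT
  -- no edges from T \ T2 to T2 except at r
  have hcross : ∀ z ∈ T \ T2, z ≠ r → dN G T2 z = 0 := by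
    intro z hz hzr
    rw [mem_sdiff] at hz
    by_contra h0
    have : ∃ u ∈ T2, G.Adj z u := by
      unfold dN at h0
      rw [card_eq_zero, ← not_nonempty_iff_eq_empty, not_not] at h0
      obtain ⟨u, hu⟩ := h0
      rw [mem_filter] at hu
      exact ⟨u, hu.1, hu.2⟩
    obtain ⟨u, hu, hau⟩ := this
    have h1 := hT2s.insert_of_adj hu hz.2 hau
    have h2 := hmax (insert z T2) (by
      rw [hS, mem_filter, mem_powerset]
      refine ⟨insert_subset hz.1 hT2T, h1, mem_insert_of_mem hr'T2, ?_⟩
      rw [mem_insert]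
      rintro (h | h)
      · exact hzr h.symm
      · exact hrT2 h)
    rw [card_insert_of_notMem hz.2] at h2
    omega
  have hdr : dN G T2 r ≤ 1 := hT2s.dN_le_one hW hT2W (hT hr) hrT2
  have hrT1 : r ∈ T \ T2 := mem_sdiff.mpr ⟨hr, hrT2⟩
  have hdisj : Disjoint (T \ T2) T2 := sdiff_disjoint
  have hun : (T \ T2) ∪ T2 = T := sdiff_union_of_subset hT2T
  have hsumle : ∑ z ∈ T \ T2, dN G T2 z = dN G T2 r := by
    apply sum_eq_single_of_mem r hrT1
    intro b hb hbr
    exact hcross b hb hbr
  have hT1s : IsSub G (T \ T2) := by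
    refine ⟨⟨r, hrT1⟩, ?_⟩
    have e1 := eI_union_disjoint (G := G) hdisj
    rw [hun, hsumle] at e1
    have e2 := hs.eI_eq hW hT
    have e3 := hT2s.eI_eq hW hT2W
    have e4 := card_union_of_disjoint hdisj
    rw [hun] at e4
    omega
  have hup : ∀ p ∈ T \ T2, ∀ q ∈ T2, dd G W p q ≤ dd G W r p + (dd G W r' q + 1) := by
    intro p hp q hq
    obtain ⟨P, hP, hPs, hrP, hpP, hPc⟩ := dd_spec hW (sdiff_subset.trans hT) hT1s hrT1 hp
    obtain ⟨Q, hQ, hQs, hr'Q, hqQ, hQc⟩ := dd_spec hW hT2W hT2s hr'T2 hq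
    have hd : Disjoint P Q := hdisj.mono hP hQ
    have h1 := hPs.union_of_adj hQs hd hrP hr'Q harr'
    have h2 := dd_le (G := G) (W := W) (union_subset (hP.trans (sdiff_subset.trans hT))
      (hQ.trans hT2W)) h1 (mem_union_left _ hpP) (mem_union_right _ hqQ)
    rw [card_union_of_disjoint hd] at h2
    omega
  refine ⟨T \ T2, T2, r', hun, hdisj, hrT1, hr'T2, hT1s, hT2s, ?_, hup⟩
  intro q hq
  apply le_antisymm
  · have := hup r hrT1 q hq
    rw [dd_self (hT hr)] at this
    omega
  · obtain ⟨P, hP, hPs, hrP, hqP, hPc⟩ := dd_spec hW hT hs hr (hT2T hq)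
    have h1 : IsSub G (P ∩ (T \ T2)) := hPs.inter hW (hP.trans hT) (sdiff_subset.trans hT) hT1s
      ⟨r, mem_inter.mpr ⟨hrP, hrT1⟩⟩
    have h2 : IsSub G (P ∩ T2) := hPs.inter hW (hP.trans hT) hT2W hT2s
      ⟨q, mem_inter.mpr ⟨hqP, hq⟩⟩
    have hd : Disjoint (P ∩ (T \ T2)) (P ∩ T2) := hdisj.mono inter_subset_right inter_subset_right
    have hun2 : (P ∩ (T \ T2)) ∪ (P ∩ T2) = P := by
      rw [← inter_union_distrib_left, hun, inter_eq_left.mpr hP]
    have e1 := eI_union_disjoint (G := G) hd
    rw [hun2] at e1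
    have e2 := hPs.eI_eq hW (hP.trans hT)
    have e3 := h1.eI_eq hW (inter_subset_left.trans (hP.trans hT))
    have e4 := h2.eI_eq hW (inter_subset_left.trans (hP.trans hT))
    have e5 := card_union_of_disjoint hd
    rw [hun2] at e5
    have hr'P : r' ∈ P := by
      by_contra hr'P
      have hz : ∑ z ∈ P ∩ (T \ T2), dN G (P ∩ T2) z = 0 := by
        apply sum_eq_zero
        intro z hz
        rw [mem_inter] at hz
        by_cases hzr : z = r
        · subst hzr
          by_contra h0
          have : ∃ u ∈ P ∩ T2, G.Adj z u := by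
            unfold dN at h0
            rw [card_eq_zero, ← not_nonempty_iff_eq_empty, not_not] at h0
            obtain ⟨u, hu⟩ := h0
            rw [mem_filter] at hu
            exact ⟨u, hu.1, hu.2⟩
          obtain ⟨u, hu, hau⟩ := this
          rw [mem_inter] at hu
          have hne2 : u ≠ r' := fun h => hr'P (h ▸ hu.1)
          have := two_le_dN_of_adj G hne2 hu.2 hr'T2 hau harr'
          omega
        · have h3 := hcross z hz.2 hzr
          have h4 := dN_mono G (inter_subset_right (s₁ := P) (s₂ := T2)) z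
          omega
      omega
    have h5 := dd_le (G := G) (W := W) (inter_subset_left.trans (hP.trans hT)) h2
      (mem_inter.mpr ⟨hr'P, hr'T2⟩) (mem_inter.mpr ⟨hqP, hq⟩)
    have h6 : 0 < (P ∩ (T \ T2)).card := card_pos.mpr h1.1
    omega

/-- numerical core of the merging step -/
lemma term_bound {m δ δ' sN sF s dN' dF : ℕ} (hδ : δ ≤ δ') (h2 : 2 * m ≤ δ + δ')
    (hN : sN = 0 ∨ (δ ≤ dN' ∧ sN = m + 1 + δ - dN' ∧ sN ≤ s))
    (hF : sF = 0 ∨ (δ' ≤ dF ∧ sF = m + 1 + δ' - dF ∧ m + 1 + δ - dF ≤ s))
    (hNF : sN = 0 ∨ sF = 0 ∨ 4 * m + 1 ≤ dN' + dF) :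
    sN + sF ≤ s + 2 * (δ' - m) ∧ (0 < sN → sN + sF ≤ s + (δ' - m)) := by
  rcases hN with hN | hN <;> rcases hF with hF | hF <;> rcases hNF with h | h | h <;>
    constructor <;> (try intro hpos) <;> omega

/-- Potential lemma. -/
theorem potential {ι : Type*} [DecidableEq ι] {W : Finset V} (hW : Sparse G W) (m c : ℕ)
    (N A : Finset ι) (hAN : A ⊆ N) (Λ : ι → Finset V)
    (hc : 2 * A.card ≤ c ∨ (2 * A.card ≤ c + 1 ∧ A = N)) :
    ∀ (n : ℕ) (T : Finset V), T.card = n → T ⊆ W → IsSub G T →
      (∀ x ∈ N, ∀ y ∈ N, x ≠ y → ∀ p ∈ Λ x, ∀ q ∈ Λ y, p ∈ T → q ∈ T → 2 * m ≤ dd G W p q) →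
      (∀ x ∈ N, ∀ p ∈ Λ x, ∀ q ∈ Λ x, p ≠ q → p ∈ T → q ∈ T → 2 * m ≤ dd G W p q) →
      (∀ x ∈ A, ∀ p ∈ Λ x, ∀ q ∈ Λ x, p ≠ q → p ∈ T → q ∈ T → 4 * m + 1 ≤ dd G W p q) →
      ∀ r ∈ T, ∀ δ : ℕ, (∃ x ∈ N, ∃ p ∈ Λ x, p ∈ T ∧ dd G W r p = δ) →
        (∀ x ∈ N, ∀ p ∈ Λ x, p ∈ T → δ ≤ dd G W r p) →
        c * m * (∑ x ∈ N, (Λ x ∩ T).card) + (m + 1) * (∑ x ∈ A, (Λ x ∩ T).card) + c * (δ + 1) ≤
          c * T.card + c * m + ∑ x ∈ A, (Λ x ∩ T).sup (fun p => m + 1 + δ - dd G W r p) := by
  classical
  intro n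
  induction n using Nat.strong_induction_on with
  | _ n ih =>
    intro T hTn hTW hTs h1 h1' h2 r hr δ hex hmin
    by_cases hsing : T = {r}
    · -- base case
      subst hsing
      obtain ⟨x0, hx0, p0, hp0, hp0T, hd0⟩ := hex
      rw [mem_singleton] at hp0T
      subst hp0T
      have hp0W : p0 ∈ W := hTW (by simp)
      rw [dd_self hp0W] at hd0
      subst hd0
      have hcard : ∀ x, (Λ x ∩ {p0}).card = if p0 ∈ Λ x then 1 else 0 := by
        intro x
        split_ifs with h
        · rw [inter_singleton_of_mem h, card_singleton]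
        · rw [inter_singleton_of_notMem h, card_empty]
      have hsup : ∀ x, (Λ x ∩ {p0}).sup (fun p => m + 1 + 0 - dd G W p0 p) =
          (m + 1) * (Λ x ∩ {p0}).card := by
        intro x
        rw [hcard]
        split_ifs with h
        · rw [inter_singleton_of_mem h, sup_singleton, dd_self hp0W]; omega
        · rw [inter_singleton_of_notMem h, sup_empty]; simp
      simp_rw [hsup]
      rw [← mul_sum, card_singleton]
      have hkey : c * m * (∑ x ∈ N, (Λ x ∩ {p0}).card) ≤ c * m := by
        rcases Nat.eq_zero_or_pos m with hm | hm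
        · subst hm; simp
        · have : ∑ x ∈ N, (Λ x ∩ {p0}).card ≤ 1 := by
            have hs : ∑ x ∈ N, (Λ x ∩ {p0}).card = (Λ x0 ∩ {p0}).card := by
              apply sum_eq_single_of_mem x0 hx0
              intro y hy hyx
              rw [hcard, if_neg]
              intro hpy
              have := h1 y hy x0 hx0 hyx p0 hpy p0 hp0 (by simp) (by simp)
              rw [dd_self hp0W] at this
              omega
            rw [hs, hcard]
            split_ifs <;> omega
          calc c * m * (∑ x ∈ N, (Λ x ∩ {p0}).card) ≤ c * m * 1 := Nat.mul_le_mul_left _ this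
            _ = c * m := by ring
      linarith
    · obtain ⟨T1, T2, r', hun, hdisj, hrT1, hr'T2, hT1s, hT2s, hdist, hup⟩ :=
        split_tree hW hTW hTs hr hsing
      have hT1T : T1 ⊆ T := by rw [← hun]; exact subset_union_left
      have hT2T : T2 ⊆ T := by rw [← hun]; exact subset_union_right
      have hcT : T.card = T1.card + T2.card := by rw [← hun, card_union_of_disjoint hdisj]
      have hpos1 : 0 < T1.card := card_pos.mpr hT1s.1
      have hpos2 : 0 < T2.card := card_pos.mpr hT2s.1
      have hinter : ∀ x, (Λ x ∩ T).card = (Λ x ∩ T1).card + (Λ x ∩ T2).card := by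
        intro x
        rw [← hun, inter_union_distrib_left, card_union_of_disjoint]
        exact hdisj.mono inter_subset_right inter_subset_right
      -- inherited hypotheses
      have hex1 : (∃ x ∈ N, ∃ p ∈ Λ x, p ∈ T1) ∨ ¬ (∃ x ∈ N, ∃ p ∈ Λ x, p ∈ T1) := em _
      have hex2 : (∃ x ∈ N, ∃ p ∈ Λ x, p ∈ T2) ∨ ¬ (∃ x ∈ N, ∃ p ∈ Λ x, p ∈ T2) := em _
      have IH1 := ih T1.card (by omega) T1 rfl (hT1T.trans hTW) hT1s
        (fun x hx y hy hxy p hp q hq hpT hqT => h1 x hx y hy hxy p hp q hq (hT1T hpT) (hT1T hqT))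
        (fun x hx p hp q hq hpq hpT hqT => h1' x hx p hp q hq hpq (hT1T hpT) (hT1T hqT))
        (fun x hx p hp q hq hpq hpT hqT => h2 x hx p hp q hq hpq (hT1T hpT) (hT1T hqT)) r hrT1
      have IH2 := ih T2.card (by omega) T2 rfl (hT2T.trans hTW) hT2s
        (fun x hx y hy hxy p hp q hq hpT hqT => h1 x hx y hy hxy p hp q hq (hT2T hpT) (hT2T hqT))
        (fun x hx p hp q hq hpq hpT hqT => h1' x hx p hp q hq hpq (hT2T hpT) (hT2T hqT))
        (fun x hx p hp q hq hpq hpT hqT => h2 x hx p hp q hq hpq (hT2T hpT) (hT2T hqT)) r' hr'T2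
      obtain ⟨x0, hx0, p0, hp0, hp0T, hd0⟩ := hex
      -- existence of minima
      have minex : ∀ (S : Finset V) (ρ : V), (∃ x ∈ N, ∃ p ∈ Λ x, p ∈ S) →
          ∃ δ0, (∃ x ∈ N, ∃ p ∈ Λ x, p ∈ S ∧ dd G W ρ p = δ0) ∧
            (∀ x ∈ N, ∀ p ∈ Λ x, p ∈ S → δ0 ≤ dd G W ρ p) := by
        intro S ρ ⟨x, hx, p, hp, hpS⟩
        have hne : ((N.biUnion Λ) ∩ S).Nonempty := ⟨p, by
          rw [mem_inter, mem_biUnion]; exact ⟨⟨x, hx, hp⟩, hpS⟩⟩
        obtain ⟨q, hq, hqmin⟩ := exists_min_image _ (fun q => dd G W ρ q) hne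
        rw [mem_inter, mem_biUnion] at hq
        obtain ⟨⟨y, hy, hqy⟩, hqS⟩ := hq
        refine ⟨dd G W ρ q, ⟨y, hy, q, hqy, hqS, rfl⟩, ?_⟩
        intro z hz w hw hwS
        exact hqmin w (by rw [mem_inter, mem_biUnion]; exact ⟨⟨z, hz, hw⟩, hwS⟩)
      rcases hex1 with hex1 | hex1
      · rcases hex2 with hex2 | hex2
        · -- both sides have labels
          obtain ⟨δ1, hδ1ex, hδ1min⟩ := minex T1 r hex1
          obtain ⟨δ2, hδ2ex, hδ2min⟩ := minex T2 r' hex2
          have I1 := IH1 δ1 hδ1ex hδ1min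
          have I2 := IH2 δ2 hδ2ex hδ2min
          obtain ⟨y1, hy1, p1, hp1, hp1T, hd1⟩ := hδ1ex
          obtain ⟨y2, hy2, p2, hp2, hp2T, hd2⟩ := hδ2ex
          have hp12 : p1 ≠ p2 := fun h => (disjoint_left.mp hdisj) hp1T (h ▸ hp2T)
          have hsum2m : 2 * m ≤ δ1 + (δ2 + 1) := by
            have hle := hup p1 hp1T p2 hp2T
            have h3 : 2 * m ≤ dd G W p1 p2 := by
              by_cases hyy : y1 = y2
              · subst hyy
                exact h1' y1 hy1 p1 hp1 p2 hp2 hp12 (hT1T hp1T) (hT2T hp2T)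
              · exact h1 y1 hy1 y2 hy2 hyy p1 hp1 p2 hp2 (hT1T hp1T) (hT2T hp2T)
            omega
          -- δ = min δ1 (δ2+1)
          have hδle1 : δ ≤ δ1 := by
            have := hmin y1 hy1 p1 hp1 (hT1T hp1T)
            omega
          have hδle2 : δ ≤ δ2 + 1 := by
            have h3 := hmin y2 hy2 p2 hp2 (hT2T hp2T)
            have h4 := hdist p2 hp2T
            omega
          have hδ : δ = min δ1 (δ2 + 1) := by
            rw [← hun, mem_union] at hp0T
            rcases hp0T with hp0T | hp0T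
            · have := hδ1min x0 hx0 p0 hp0 hp0T
              omega
            · have h3 := hδ2min x0 hx0 p0 hp0 hp0T
              have h4 := hdist p0 hp0T
              omega
          set s1 : ι → ℕ := fun x => (Λ x ∩ T1).sup (fun p => m + 1 + δ1 - dd G W r p) with hs1
          set s2 : ι → ℕ := fun x => (Λ x ∩ T2).sup (fun p => m + 1 + δ2 - dd G W r' p) with hs2
          set s : ι → ℕ := fun x => (Λ x ∩ T).sup (fun p => m + 1 + δ - dd G W r p) with hs
          set σ : ℕ := max δ1 (δ2 + 1) - m with hσ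
          -- data about the suprema
          have hs1x : ∀ x ∈ N, s1 x = 0 ∨ ∃ p ∈ Λ x ∩ T1, s1 x = m + 1 + δ1 - dd G W r p := by
            intro x hx
            by_cases hne : (Λ x ∩ T1).Nonempty
            · right
              obtain ⟨p, hp, hpe⟩ := exists_mem_eq_sup _ hne (fun p => m + 1 + δ1 - dd G W r p)
              exact ⟨p, hp, hpe⟩
            · left
              rw [not_nonempty_iff_eq_empty] at hne
              simp only [hs1, hne, sup_empty]; rfl
          have hs2x : ∀ x ∈ N, s2 x = 0 ∨ ∃ p ∈ Λ x ∩ T2, s2 x = m + 1 + δ2 - dd G W r' p := by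
            intro x hx
            by_cases hne : (Λ x ∩ T2).Nonempty
            · right
              obtain ⟨p, hp, hpe⟩ := exists_mem_eq_sup _ hne (fun p => m + 1 + δ2 - dd G W r' p)
              exact ⟨p, hp, hpe⟩
            · left
              rw [not_nonempty_iff_eq_empty] at hne
              simp only [hs2, hne, sup_empty]; rfl
          have hsge : ∀ x, ∀ p ∈ Λ x ∩ T, m + 1 + δ - dd G W r p ≤ s x := by
            intro x p hp
            exact le_sup (f := fun p => m + 1 + δ - dd G W r p) hp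
          have hterm : ∀ x ∈ A, s1 x + s2 x ≤ s x + 2 * σ ∧
              ((δ1 ≤ δ2 + 1 → 0 < s1 x → s1 x + s2 x ≤ s x + σ) ∧
               (δ2 + 1 ≤ δ1 → 0 < s2 x → s1 x + s2 x ≤ s x + σ)) := by
            intro x hx
            have hxN := hAN hx
            have H1 := hs1x x hxN
            have H2 := hs2x x hxN
            -- turn into numerical statements
            obtain ⟨d1, hd1', hd1s⟩ : ∃ d1, (s1 x = 0 ∨ (δ1 ≤ d1 ∧ s1 x = m + 1 + δ1 - d1 ∧
                m + 1 + δ - d1 ≤ s x)) ∧ (s1 x = 0 ∨ ∃ p ∈ Λ x ∩ T1, dd G W r p = d1) := by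
              rcases H1 with H1 | ⟨p, hp, hpe⟩
              · exact ⟨0, Or.inl H1, Or.inl H1⟩
              · rw [mem_inter] at hp
                refine ⟨dd G W r p, Or.inr ⟨hδ1min x hxN p hp.1 hp.2, hpe, ?_⟩,
                  Or.inr ⟨p, mem_inter.mpr hp, rfl⟩⟩
                exact hsge x p (mem_inter.mpr ⟨hp.1, hT1T hp.2⟩)
            obtain ⟨d2, hd2', hd2s⟩ : ∃ d2, (s2 x = 0 ∨ (δ2 + 1 ≤ d2 ∧ s2 x = m + 1 + (δ2 + 1) - d2 ∧
                m + 1 + δ - d2 ≤ s x)) ∧ (s2 x = 0 ∨ ∃ p ∈ Λ x ∩ T2, dd G W r' p + 1 = d2) := by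
              rcases H2 with H2 | ⟨p, hp, hpe⟩
              · exact ⟨0, Or.inl H2, Or.inl H2⟩
              · rw [mem_inter] at hp
                refine ⟨dd G W r' p + 1, Or.inr ⟨?_, ?_, ?_⟩, Or.inr ⟨p, mem_inter.mpr hp, rfl⟩⟩
                · have := hδ2min x hxN p hp.1 hp.2; omega
                · rw [hpe]; omega
                · have h5 := hsge x p (mem_inter.mpr ⟨hp.1, hT2T hp.2⟩)
                  rw [hdist p hp.2] at h5
                  exact h5
            have hNF : s1 x = 0 ∨ s2 x = 0 ∨ 4 * m + 1 ≤ d1 + d2 := by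
              rcases hd1s with h | ⟨p, hp, hpe⟩
              · exact Or.inl h
              · rcases hd2s with h | ⟨q, hq, hqe⟩
                · exact Or.inr (Or.inl h)
                · right; right
                  rw [mem_inter] at hp hq
                  have hpq : p ≠ q := fun h => (disjoint_left.mp hdisj) hp.2 (h ▸ hq.2)
                  have h5 := h2 x hx p hp.1 q hq.1 hpq (hT1T hp.2) (hT2T hq.2)
                  have h6 := hup p hp.2 q hq.2
                  omega
            by_cases hcase : δ1 ≤ δ2 + 1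
            · have hδ' : δ = δ1 := by rw [hδ]; exact min_eq_left hcase
              have hσ' : σ = (δ2 + 1) - m := by rw [hσ, max_eq_right hcase]
              have TB := term_bound (m := m) (δ := δ1) (δ' := δ2 + 1) (sN := s1 x) (sF := s2 x)
                (s := s x) (dN' := d1) (dF := d2) hcase (by omega)
                (by
                  rcases hd1' with h | ⟨h3, h4, h5⟩
                  · exact Or.inl h
                  · right; refine ⟨h3, h4, ?_⟩; rw [hδ'] at h5; omega)
                (by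
                  rcases hd2' with h | ⟨h3, h4, h5⟩
                  · exact Or.inl h
                  · right; refine ⟨h3, h4, ?_⟩; rw [hδ'] at h5; omega)
                hNF
              refine ⟨by omega, fun _ hp => by have := TB.2 hp; omega, fun h3 hp => ?_⟩
              have heq : δ1 = δ2 + 1 := le_antisymm hcase h3
              by_cases h0 : 0 < s1 x
              · have := TB.2 h0; omega
              · -- s1 x = 0, equality of distances
                have h4 : s1 x = 0 := by omega
                rcases hd2' with h | ⟨h5, h6, h7⟩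
                · omega
                · omega
            · have hcase' : δ2 + 1 ≤ δ1 := by omega
              have hδ' : δ = δ2 + 1 := by rw [hδ]; exact min_eq_right hcase'
              have hσ' : σ = δ1 - m := by rw [hσ, max_eq_left hcase']
              have TB := term_bound (m := m) (δ := δ2 + 1) (δ' := δ1) (sN := s2 x) (sF := s1 x)
                (s := s x) (dN' := d2) (dF := d1) hcase' (by omega)
                (by
                  rcases hd2' with h | ⟨h3, h4, h5⟩
                  · exact Or.inl h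
                  · right; refine ⟨h3, h4, ?_⟩; rw [hδ'] at h5; omega)
                (by
                  rcases hd1' with h | ⟨h3, h4, h5⟩
                  · exact Or.inl h
                  · right; refine ⟨h3, h4, ?_⟩; rw [hδ'] at h5; omega)
                (by rcases hNF with h | h | h
                    · exact Or.inr (Or.inl h)
                    · exact Or.inl h
                    · right; right; omega)
              exact ⟨by omega, fun h3 => absurd h3 hcase, fun _ hp => by have := TB.2 hp; omega⟩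
          -- total
          have htotal : ∑ x ∈ A, (s1 x + s2 x) ≤ ∑ x ∈ A, s x + c * σ := by
            rcases hc with hc | ⟨hc, hAN'⟩
            · calc ∑ x ∈ A, (s1 x + s2 x) ≤ ∑ x ∈ A, (s x + 2 * σ) :=
                    sum_le_sum (fun x hx => (hterm x hx).1)
                _ = ∑ x ∈ A, s x + A.card * (2 * σ) := by rw [sum_add_distrib]; simp
                _ ≤ ∑ x ∈ A, s x + c * σ := by
                    have : A.card * (2 * σ) = (2 * A.card) * σ := by ring
                    rw [this]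
                    exact Nat.add_le_add_left (Nat.mul_le_mul_right _ hc) _
            · -- nearest label has a name in A
              have hy : ∃ y ∈ A, s1 y + s2 y ≤ s y + σ := by
                by_cases hcase : δ1 ≤ δ2 + 1
                · refine ⟨y1, hAN' ▸ hy1, (hterm y1 (hAN' ▸ hy1)).2.1 hcase ?_⟩
                  have h5 : m + 1 + δ1 - dd G W r p1 ≤ s1 y1 :=
                    le_sup (f := fun p => m + 1 + δ1 - dd G W r p) (mem_inter.mpr ⟨hp1, hp1T⟩)
                  omega
                · refine ⟨y2, hAN' ▸ hy2, (hterm y2 (hAN' ▸ hy2)).2.2 (by omega) ?_⟩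
                  have h5 : m + 1 + δ2 - dd G W r' p2 ≤ s2 y2 :=
                    le_sup (f := fun p => m + 1 + δ2 - dd G W r' p) (mem_inter.mpr ⟨hp2, hp2T⟩)
                  omega
              obtain ⟨y, hyA, hyb⟩ := hy
              have h6 : ∑ x ∈ A.erase y, (s1 x + s2 x) ≤ ∑ x ∈ A.erase y, (s x + 2 * σ) :=
                sum_le_sum (fun x hx => (hterm x (mem_of_mem_erase hx)).1)
              rw [sum_add_distrib (f := s), sum_const, smul_eq_mul, card_erase_of_mem hyA] at h6
              rw [← add_sum_erase A _ hyA, ← add_sum_erase A s hyA]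
              have hApos : 0 < A.card := card_pos.mpr ⟨y, hyA⟩
              have h7 : (A.card - 1) * (2 * σ) + σ ≤ c * σ := by
                have : (A.card - 1) * (2 * σ) + σ = (2 * (A.card - 1) + 1) * σ := by ring
                rw [this]
                exact Nat.mul_le_mul_right _ (by omega)
              omega
          have hσval : δ1 + (δ2 + 1) = δ + (σ + m) := by
            rw [hδ, hσ]
            have : m ≤ max δ1 (δ2 + 1) := by omega
            omega
          rw [sum_add_distrib] at htotal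
          simp_rw [hinter]
          rw [sum_add_distrib, sum_add_distrib, hcT]
          have hprod : c * (δ1 + 1) + c * (δ2 + 1) = c * (δ + 1) + c * σ + c * m := by
            have : δ1 + 1 + (δ2 + 1) = δ + 1 + σ + m := by omega
            calc c * (δ1 + 1) + c * (δ2 + 1) = c * (δ1 + 1 + (δ2 + 1)) := by ring
              _ = c * (δ + 1 + σ + m) := by rw [this]
              _ = _ := by ring
          have I1' : c * m * (∑ x ∈ N, (Λ x ∩ T1).card) + (m + 1) * (∑ x ∈ A, (Λ x ∩ T1).card) +
              c * (δ1 + 1) ≤ c * T1.card + c * m + ∑ x ∈ A, s1 x := I1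
          have I2' : c * m * (∑ x ∈ N, (Λ x ∩ T2).card) + (m + 1) * (∑ x ∈ A, (Λ x ∩ T2).card) +
              c * (δ2 + 1) ≤ c * T2.card + c * m + ∑ x ∈ A, s2 x := I2
          have hgoal : c * m * (∑ x ∈ N, (Λ x ∩ T1).card + ∑ x ∈ N, (Λ x ∩ T2).card) +
              (m + 1) * (∑ x ∈ A, (Λ x ∩ T1).card + ∑ x ∈ A, (Λ x ∩ T2).card) + c * (δ + 1) ≤
              c * (T1.card + T2.card) + c * m + ∑ x ∈ A, s x := by
            nlinarith [I1', I2', htotal, hprod]
          exact hgoal
        · -- labels only in T1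
          have hempty : ∀ x ∈ N, Λ x ∩ T2 = ∅ := by
            intro x hx
            rw [← not_nonempty_iff_eq_empty]
            rintro ⟨p, hp⟩
            rw [mem_inter] at hp
            exact hex2 ⟨x, hx, p, hp.1, hp.2⟩
          have heq : ∀ x ∈ N, Λ x ∩ T = Λ x ∩ T1 := by
            intro x hx
            rw [← hun, inter_union_distrib_left, hempty x hx, union_empty]
          have hp0T1 : p0 ∈ T1 := by
            rw [← hun, mem_union] at hp0T
            rcases hp0T with h | h
            · exact h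
            · exact absurd ⟨x0, hx0, p0, hp0, h⟩ hex2
          have I1 := IH1 δ ⟨x0, hx0, p0, hp0, hp0T1, hd0⟩
            (fun x hx p hp hpT => hmin x hx p hp (hT1T hpT))
          have e1 : ∑ x ∈ N, (Λ x ∩ T).card = ∑ x ∈ N, (Λ x ∩ T1).card :=
            sum_congr rfl (fun x hx => by rw [heq x hx])
          have e2 : ∑ x ∈ A, (Λ x ∩ T).card = ∑ x ∈ A, (Λ x ∩ T1).card :=
            sum_congr rfl (fun x hx => by rw [heq x (hAN hx)])
          have e3 : ∑ x ∈ A, (Λ x ∩ T).sup (fun p => m + 1 + δ - dd G W r p) =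
              ∑ x ∈ A, (Λ x ∩ T1).sup (fun p => m + 1 + δ - dd G W r p) :=
            sum_congr rfl (fun x hx => by rw [heq x (hAN hx)])
          rw [e1, e2, e3, hcT]
          nlinarith [I1, Nat.zero_le (c * T2.card)]
      · -- labels only in T2
        have hempty : ∀ x ∈ N, Λ x ∩ T1 = ∅ := by
          intro x hx
          rw [← not_nonempty_iff_eq_empty]
          rintro ⟨p, hp⟩
          rw [mem_inter] at hp
          exact hex1 ⟨x, hx, p, hp.1, hp.2⟩
        have heq : ∀ x ∈ N, Λ x ∩ T = Λ x ∩ T2 := by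
          intro x hx
          rw [← hun, inter_union_distrib_left, hempty x hx, empty_union]
        have hp0T2 : p0 ∈ T2 := by
          rw [← hun, mem_union] at hp0T
          rcases hp0T with h | h
          · exact absurd ⟨x0, hx0, p0, hp0, h⟩ hex1
          · exact h
        have hδpos := hdist p0 hp0T2
        obtain ⟨δ2, rfl⟩ : ∃ δ2, δ = δ2 + 1 := ⟨δ - 1, by omega⟩
        have I2 := IH2 δ2 ⟨x0, hx0, p0, hp0, hp0T2, by omega⟩
          (fun x hx p hp hpT => by
            have h3 := hmin x hx p hp (hT2T hpT)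
            have h4 := hdist p hpT
            omega)
        have e1 : ∑ x ∈ N, (Λ x ∩ T).card = ∑ x ∈ N, (Λ x ∩ T2).card :=
          sum_congr rfl (fun x hx => by rw [heq x hx])
        have e2 : ∑ x ∈ A, (Λ x ∩ T).card = ∑ x ∈ A, (Λ x ∩ T2).card :=
          sum_congr rfl (fun x hx => by rw [heq x (hAN hx)])
        have e3 : ∑ x ∈ A, (Λ x ∩ T).sup (fun p => m + 1 + (δ2 + 1) - dd G W r p) =
            ∑ x ∈ A, (Λ x ∩ T2).sup (fun p => m + 1 + δ2 - dd G W r' p) := by
          apply sum_congr rfl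
          intro x hx
          rw [heq x (hAN hx)]
          apply sup_congr rfl
          intro p hp
          rw [mem_inter] at hp
          rw [hdist p hp.2]
          omega
        rw [e1, e2, e3, hcT]
        have hT1c : c ≤ c * T1.card := Nat.le_mul_of_pos_right c hpos1
        nlinarith [I2, hT1c]

end

end Pool.Agent.H38
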