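import Pool.Agent.H38.Final

set_option autoImplicit false
set_option linter.unusedSectionVars false
set_option linter.unusedSimpArgs false
set_option linter.unusedVariables false

namespace Pool.Agent.H38

open Finset

lemma poly_lt_two_pow (P : Polynomial ℝ) : ∃ L0 : ℕ, ∀ L : ℕ, L0 ≤ L → P.eval (L : ℝ) < 2 ^ L := by
  have h1 : (fun x : ℝ => P.eval x) =O[Filter.atTop] (fun x : ℝ => (Polynomial.X ^ P.natDegree : Polynomial ℝ).eval x) := by
    apply Polynomial.isBigO_atTop_of_degree_le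
    rw [Polynomial.degree_X_pow]
    exact Polynomial.degree_le_natDegree
  have h2 := h1.comp_tendsto (tendsto_natCast_atTop_atTop (R := ℝ))
  have h3 : (fun n : ℕ => (n : ℝ) ^ P.natDegree) =o[Filter.atTop] (fun n : ℕ => (2 : ℝ) ^ n) :=
    isLittleO_pow_const_const_pow_of_one_lt P.natDegree (by norm_num)
  have h4 : (fun n : ℕ => P.eval (n : ℝ)) =o[Filter.atTop] (fun n : ℕ => (2 : ℝ) ^ n) := by
    refine Asymptotics.IsBigO.trans_isLittleO ?_ h3
    refine h2.congr ?_ ?_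
    · intro n; rfl
    · intro n; simp
  have h5 := h4.bound (show (0 : ℝ) < 1 / 2 by norm_num)
  rw [Filter.eventually_atTop] at h5
  obtain ⟨L0, hL0⟩ := h5
  refine ⟨L0, fun L hL => ?_⟩
  have h6 := hL0 L hL
  rw [Real.norm_eq_abs, Real.norm_eq_abs, abs_of_pos (show (0:ℝ) < 2 ^ L by positivity)] at h6
  have h7 := le_abs_self (P.eval (L : ℝ))
  have h8 : (0 : ℝ) < 2 ^ L := by positivity
  linarith

/-- the polynomial bound -/
def FF (M q C1 C2 C0 k x : ℕ) : ℕ :=
  x + M * (x * x + (x + 1) ^ (2 * k) * (2 * k)) +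
    ((q + C2) * (C0 + 2 * M * (x * x)) +
      ((x + 1) ^ (2 * k) * (2 * k)) * ((1 + C2) * (C1 + q * M * x)))

lemma FF_mono (M q C1 C2 C0 k : ℕ) : Monotone (FF M q C1 C2 C0 k) := by
  intro x y hxy
  unfold FF
  gcongr

/-- bound for the size of the exceptional set -/
def XX (k L : ℕ) : ℕ :=
  k * (2 * L + 3) + (k * (2 * L + 3)) * (k * (k * (2 * L + 3) + 1) ^ k)

lemma FF_XX_lt (M q C1 C2 C0 k : ℕ) :
    ∃ L0 : ℕ, ∀ L : ℕ, L0 ≤ L → FF M q C1 C2 C0 k (XX k L) < 2 ^ L := by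
  let PX : Polynomial ℝ := (k : Polynomial ℝ) * (2 * Polynomial.X + 3) +
    ((k : Polynomial ℝ) * (2 * Polynomial.X + 3)) *
      ((k : Polynomial ℝ) * ((k : Polynomial ℝ) * (2 * Polynomial.X + 3) + 1) ^ k)
  let P : Polynomial ℝ := PX + (M : Polynomial ℝ) * (PX * PX + (PX + 1) ^ (2 * k) * (2 * (k : Polynomial ℝ))) +
    (((q : Polynomial ℝ) + (C2 : Polynomial ℝ)) * ((C0 : Polynomial ℝ) + 2 * (M : Polynomial ℝ) * (PX * PX)) +
      ((PX + 1) ^ (2 * k) * (2 * (k : Polynomial ℝ))) * ((1 + (C2 : Polynomial ℝ)) *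
        ((C1 : Polynomial ℝ) + (q : Polynomial ℝ) * (M : Polynomial ℝ) * PX)))
  obtain ⟨L0, hL0⟩ := poly_lt_two_pow P
  refine ⟨L0, fun L hL => ?_⟩
  have h := hL0 L hL
  have hPX : PX.eval (L : ℝ) = (XX k L : ℕ) := by
    simp [PX, XX]
  have hP : P.eval (L : ℝ) = (FF M q C1 C2 C0 k (XX k L) : ℕ) := by
    simp only [P, Polynomial.eval_add, Polynomial.eval_mul, Polynomial.eval_pow,
      Polynomial.eval_natCast, Polynomial.eval_one, Polynomial.eval_ofNat, hPX]
    unfold FF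
    push_cast
    ring
  rw [hP] at h
  exact_mod_cast h

/-- existence of many identical tight components -/
theorem exists_TD (k m : ℕ) (hk : 2 ≤ k) : ∃ n0 : ℕ, ∀ (V : Type) [Fintype V] [DecidableEq V]
    (G : SimpleGraph V), n0 ≤ Fintype.card V →
    (∀ U : Finset V, U.card < 4 * m + 3 → ¬ Dense G U) → ¬ Pack G univ k →
    (Fintype.card V - (2 * k - 1)) + (2 * k - 2) *
      ((Fintype.card V - (2 * k - 1)) / ((2 * k - 1) * m + 1)) ≤ eI G univ →
    ∃ (S : Finset V) (𝒯 : Finset (Finset V)), TD G k m S 𝒯 := by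
  obtain ⟨M, hM⟩ := Int.eq_ofNat_of_zero_le (show 0 ≤ cM k m by linarith [cM_pos (m := m) hk])
  obtain ⟨q, hq⟩ := Int.eq_ofNat_of_zero_le (show 0 ≤ cq k m by linarith [cq_pos (m := m) hk])
  obtain ⟨C1, hC1⟩ := Int.eq_ofNat_of_zero_le (c1_nonneg (m := m) hk)
  obtain ⟨C2, hC2⟩ := Int.eq_ofNat_of_zero_le (c2_nonneg (m := m) hk)
  set C0 : ℕ := (2 * k - 2) * M + (M + 2 * k - 2) * (2 * k - 1) with hC0
  obtain ⟨L0, hL0⟩ := FF_XX_lt M q C1 C2 C0 k
  have hMe : M = (2 * k - 1) * m + 1 := by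
    have : (M : ℤ) = ((2 * k - 1) * m + 1 : ℕ) := by
      rw [← hM]; unfold cM
      push_cast [show 1 ≤ 2 * k by omega]
      ring
    exact_mod_cast this
  refine ⟨2 ^ L0, fun V _ _ G hn hg hP hcon => ?_⟩
  set n := Fintype.card V with hndef
  have hn0 : n ≠ 0 := by
    have : 0 < 2 ^ L0 := by positivity
    omega
  set L := Nat.log 2 n with hL
  have hLL0 : L0 ≤ L := by
    rw [hL]
    exact (Nat.le_log_iff_pow_le (by norm_num) hn0).mpr hn
  have h2L : 2 ^ L ≤ n := Nat.pow_log_le_self 2 hn0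
  have hlt := lt_of_lt_of_le (hL0 L hLL0) h2L
  obtain ⟨s, hs, A, B, hAB, hA, hcard, hWs, hB, hLp⟩ := exists_decomp G k (by omega) hP
  rw [← hndef, ← hL] at hs
  have hdec : Dec G k m A B (univ \ (A ∪ B)) :=
    ⟨hk, hg, hP, hAB, rfl, hA, hWs, hB, hLp⟩
  have hXc : (A ∪ B).card ≤ XX k L := by
    rw [card_union_of_disjoint hAB]
    refine hcard.trans ?_
    unfold XX
    gcongr
  have he : (cM k m + 2 * k - 2) * n ≤ cM k m * eI G univ + C0 := by
    rw [hM]
    have key : (M + 2 * k - 2) * n ≤ M * eI G univ + C0 := by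
      -- eI is large
      set N := n - (2 * k - 1) with hN
      have h1 : N + (2 * k - 2) * (N / M) ≤ eI G univ := by rw [hMe]; exact hcon
      have h3 := Nat.div_add_mod N M
      have h4 : N % M < M := Nat.mod_lt _ (by omega)
      obtain ⟨κ, rfl⟩ : ∃ κ, k = κ + 1 := ⟨k - 1, by omega⟩
      have e2 : 2 * (κ + 1) - 1 = 2 * κ + 1 := by omega
      have e3 : M + 2 * (κ + 1) - 2 = M + 2 * κ := by omega
      have e4 : 2 * (κ + 1) - 2 = 2 * κ := by omega
      rw [e4] at h1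
      rw [hC0, e3, e4, e2]
      rw [e2] at hN
      have hnN : n ≤ N + (2 * κ + 1) := by omega
      have h6 := Nat.mul_le_mul_left M h1
      have h7 := Nat.mul_le_mul_left (M + 2 * κ) hnN
      have h8 : 2 * κ * (N % M) ≤ 2 * κ * M := Nat.mul_le_mul_left _ (by omega)
      have h9 : 2 * κ * N = 2 * κ * (M * (N / M)) + 2 * κ * (N % M) := by
        rw [← mul_add, h3]
      have h10 : (M + 2 * κ) * (N + (2 * κ + 1)) =
          M * N + 2 * κ * N + (M + 2 * κ) * (2 * κ + 1) := by ring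
      have h11 : M * (N + 2 * κ * (N / M)) = M * N + 2 * κ * (M * (N / M)) := by ring
      rw [h10] at h7
      rw [h11] at h6
      generalize (M + 2 * κ) * (2 * κ + 1) = z1 at *
      generalize M * N = z2 at *
      generalize 2 * κ * (M * (N / M)) = z3 at *
      generalize 2 * κ * (N % M) = z4 at *
      generalize 2 * κ * N = z5 at *
      generalize 2 * κ * M = z6 at *
      generalize (M + 2 * κ) * n = z7 at *
      generalize M * eI G univ = z8 at *
      omega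
    have h1 : ((M + 2 * k - 2 : ℕ) : ℤ) = (M : ℤ) + 2 * k - 2 := by
      have : 2 ≤ M + 2 * k := by omega
      push_cast [this]
      ring
    have h2 : ((M : ℤ) + 2 * k - 2) * n ≤ M * eI G univ + C0 := by
      rw [← h1]; exact_mod_cast key
    exact_mod_cast h2
  have hnb : (A ∪ B).card + cM k m * ((A ∪ B).card * (A ∪ B).card +
        ((A ∪ B).card + 1) ^ (2 * k) * (2 * k)) +
      ((cq k m + c2 k m) * (C0 + 2 * cM k m * ((A ∪ B).card * (A ∪ B).card)) +
      ((B.card + 1) ^ (2 * k) * (2 * k)) *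
        ((1 + c2 k m) * (c1 k m + cq k m * cM k m * B.card))) < (n : ℤ) := by
    rw [hM, hq, hC1, hC2]
    have hBc : B.card ≤ (A ∪ B).card := card_le_card subset_union_right
    have h1 : (A ∪ B).card + M * ((A ∪ B).card * (A ∪ B).card +
        ((A ∪ B).card + 1) ^ (2 * k) * (2 * k)) +
      ((q + C2) * (C0 + 2 * M * ((A ∪ B).card * (A ∪ B).card)) +
      ((B.card + 1) ^ (2 * k) * (2 * k)) *
        ((1 + C2) * (C1 + q * M * B.card))) ≤ FF M q C1 C2 C0 k (A ∪ B).card := by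
      unfold FF
      gcongr
    have h2 := FF_mono M q C1 C2 C0 k hXc
    have h3 := lt_of_le_of_lt (h1.trans h2) hlt
    exact_mod_cast h3
  obtain ⟨S, hS, 𝒯, hT, hTs, hTd⟩ := hdec.exists_tight C0 he hnb
  exact ⟨S, 𝒯, hk, hg, hP, hS, hT, fun C hC => (hTs C hC).1,
    fun C hC => (hTs C hC).2.1, fun C hC => (hTs C hC).2.2.1, fun C hC => (hTs C hC).2.2.2.1,
    fun C hC => (hTs C hC).2.2.2.2.1, fun C hC => (hTs C hC).2.2.2.2.2.1,
    fun C hC => (hTs C hC).2.2.2.2.2.2, hTd⟩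

theorem upper (k m : ℕ) (hk : 2 ≤ k) : ∃ n0 : ℕ, ∀ (V : Type) [Fintype V] [DecidableEq V]
    (G : SimpleGraph V), n0 ≤ Fintype.card V →
    (∀ U : Finset V, U.card < 4 * (m + 1) → ¬ Dense G U) → ¬ Pack G univ k →
    eI G univ ≤ (Fintype.card V - (2 * k - 1)) +
      phi (2 * k - 1) m (Fintype.card V - (2 * k - 1)) := by
  obtain ⟨n0, hn0⟩ := exists_TD k m hk
  refine ⟨n0, fun V _ _ G hn hg hP => ?_⟩
  by_contra hcon
  push Not at hcon
  obtain ⟨S, 𝒯, htd⟩ := hn0 V G hn (fun U hU => hg U (by omega)) hP (by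
    have h2 : (2 * k - 1 - 1) * ((Fintype.card V - (2 * k - 1)) / ((2 * k - 1) * m + 1)) ≤
        phi (2 * k - 1) m (Fintype.card V - (2 * k - 1)) := by
      unfold phi
      omega
    have e1 : 2 * k - 1 - 1 = 2 * k - 2 := by omega
    rw [e1] at h2
    omega)
  have := htd.bound hg
  omega

end Pool.Agent.H38
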