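import Pool.Agent.H38.Lower

set_option autoImplicit false
set_option linter.unusedSectionVars false
set_option linter.unusedSimpArgs false
set_option linter.unusedVariables false

namespace Pool.Agent.H38

open Finset

lemma HasDisjointCycles.map {V V' : Type*} {G : SimpleGraph V} {G' : SimpleGraph V'}
    (e : G ≃g G') {k : ℕ} (h : HasDisjointCycles G k) : HasDisjointCycles G' k := by
  obtain ⟨v, c, hc, hd⟩ := h
  refine ⟨fun i => e (v i), fun i => (c i).map e.toHom, fun i => (hc i).map e.injective, ?_⟩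
  intro i j hij z hz hz'
  rw [SimpleGraph.Walk.support_map, List.mem_map] at hz hz'
  obtain ⟨a, ha, rfl⟩ := hz
  obtain ⟨b, hb, hab⟩ := hz'
  have : b = a := e.injective hab
  subst this
  exact hd i j hij ha hb

/-- lower bound graph, transported to `Fin n` -/
lemma exists_lower (k m J p : ℕ) (hk : 2 ≤ k) (Lg : Fin J → ℕ) (hL : ∀ j, Lg j ≤ 2 * k - 1) (n : ℕ)
    (hn : n = (2 * k - 1) + (J + ((∑ j, Lg j) * m + p))) :
    ∃ G : SimpleGraph (Fin n), ¬ HasDisjointCycles G k ∧ ((4 * (m + 1) : ℕ) : ℕ∞) ≤ G.egirth ∧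
      (∑ j, Lg j) * (m + 1) + p ≤ G.edgeSet.ncard := by
  classical
  have hpos : 0 < 2 * k - 1 := by omega
  let H : SimpleGraph (Vt (2 * k - 1) J m p Lg) := gr hL ⟨0, hpos⟩
  have hcard : Fintype.card (Vt (2 * k - 1) J m p Lg) = n := by
    rw [card_Vt, hn]
  let e : Vt (2 * k - 1) J m p Lg ≃ Fin n := Fintype.equivFinOfCardEq hcard
  let G : SimpleGraph (Fin n) := H.map e.toEmbedding
  have iso : H ≃g G := SimpleGraph.Iso.map e H
  refine ⟨G, ?_, ?_, ?_⟩
  · intro hdis
    have h1 : HasDisjointCycles H k := hdis.map iso.symm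
    rw [← pack_iff] at h1
    obtain ⟨f, hf, hd⟩ := h1
    choose D hD hDg using fun i => (hf i).2.exists_good
    set S : Finset (Vt (2 * k - 1) J m p Lg) :=
      (univ : Finset (Fin (2 * k - 1))).map ⟨Sum.inl, Sum.inl_injective⟩ with hS
    have hSc : S.card = 2 * k - 1 := by rw [hS, card_map, card_univ, Fintype.card_fin]
    have h2 : (univ.biUnion (fun i => D i ∩ S)).card = ∑ i, (D i ∩ S).card := by
      apply card_biUnion
      intro i _ j _ hij
      exact ((hd i j hij).mono (hD i) (hD j)).mono inter_subset_left inter_subset_left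
    have h3 : (univ.biUnion (fun i => D i ∩ S)).card ≤ S.card := by
      apply card_le_card
      rw [biUnion_subset]
      intro i _
      exact inter_subset_right
    have h4 : ∑ i : Fin k, 2 ≤ ∑ i, (D i ∩ S).card :=
      sum_le_sum (fun i _ => (good_card (hDg i)).2)
    rw [sum_const, card_univ, Fintype.card_fin, smul_eq_mul] at h4
    omega
  · rw [← iso.egirth_eq, egirth_iff]
    intro U hU hd
    obtain ⟨D, hD, hg⟩ := hd.exists_good
    have h1 := (good_card hg).1
    have h2 := card_le_card hD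
    omega
  · have h1 : (∑ j, Lg j) * (m + 1) + p ≤ H.edgeSet.ncard := edges_ge
    have h2 : H.edgeSet.ncard = G.edgeSet.ncard := by
      rw [← Nat.card_coe_set_eq, ← Nat.card_coe_set_eq]
      exact Nat.card_congr iso.mapEdgeSet
    omega

theorem main (k l : ℕ) (hk : 2 ≤ k) (hl : 1 ≤ l) : ∃ n0 : ℕ, ∀ n t r : ℕ, n0 ≤ n →
    r < (2 * k - 1) * (l - 1) + 1 → n = t * ((2 * k - 1) * (l - 1) + 1) + (2 * k - 1) + r →
    (∃ G : SimpleGraph (Fin n), ¬ HasDisjointCycles G k ∧ ((4 * l : ℕ) : ℕ∞) ≤ G.egirth ∧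
      G.edgeSet.ncard = (2 * k - 1) * l * t + r + ((r - 1) / (l - 1) - 1)) ∧
    ∀ G : SimpleGraph (Fin n), ¬ HasDisjointCycles G k → ((4 * l : ℕ) : ℕ∞) ≤ G.egirth →
      G.edgeSet.ncard ≤ (2 * k - 1) * l * t + r + ((r - 1) / (l - 1) - 1) := by
  classical
  obtain ⟨m, rfl⟩ : ∃ m, l = m + 1 := ⟨l - 1, by omega⟩
  simp only [Nat.add_sub_cancel]
  obtain ⟨n0, hn0⟩ := upper k m hk
  refine ⟨n0, fun n t r hn hr hnt => ?_⟩
  have hup : ∀ G : SimpleGraph (Fin n), ¬ HasDisjointCycles G k →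
      ((4 * (m + 1) : ℕ) : ℕ∞) ≤ G.egirth →
      G.edgeSet.ncard ≤ (2 * k - 1) * (m + 1) * t + r + ((r - 1) / m - 1) := by
    intro G hG hg
    have h1 := hn0 (Fin n) G (by rw [Fintype.card_fin]; exact hn) ((egirth_iff _).mp hg)
      (by rw [pack_iff]; exact hG)
    rw [eI_univ_eq, Fintype.card_fin] at h1
    have h2 : n - (2 * k - 1) = ((2 * k - 1) * m + 1) * t + r := by
      rw [hnt, mul_comm t]; omega
    rw [h2, phi_split _ _ _ _ hr] at h1
    have h3 : ((2 * k - 1) * m + 1) * t + r + ((2 * k - 1 - 1) * t + ((r - 1) / m - 1)) =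
        (2 * k - 1) * (m + 1) * t + r + ((r - 1) / m - 1) := by
      obtain ⟨κ, rfl⟩ : ∃ κ, k = κ + 1 := ⟨k - 1, by omega⟩
      have e1 : 2 * (κ + 1) - 1 - 1 = 2 * κ := by omega
      have e2 : 2 * (κ + 1) - 1 = 2 * κ + 1 := by omega
      rw [e1, e2]; ring
    rw [h3] at h1
    exact h1
  refine ⟨?_, hup⟩
  have hlow : ∃ G : SimpleGraph (Fin n), ¬ HasDisjointCycles G k ∧
      ((4 * (m + 1) : ℕ) : ℕ∞) ≤ G.egirth ∧
      (2 * k - 1) * (m + 1) * t + r + ((r - 1) / m - 1) ≤ G.edgeSet.ncard := by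
    by_cases hq : 2 ≤ (r - 1) / m
    · -- an additional smaller spider
      set q := (r - 1) / m with hqdef
      have hm : 0 < m := by
        rcases Nat.eq_zero_or_pos m with h | h
        · rw [hqdef, h] at hq; simp at hq
        · exact h
      have hqm : q * m ≤ r - 1 := Nat.div_mul_le_self _ _
      have hqK : q ≤ 2 * k - 1 := by
        have : q < 2 * k - 1 := by
          rw [hqdef, Nat.div_lt_iff_lt_mul hm]
          have : 1 ≤ (2 * k - 1) * m := Nat.mul_pos (by omega) hm
          omega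
        omega
      have hr1 : 1 ≤ r := by
        by_contra h
        have : r = 0 := by omega
        rw [hqdef, this] at hq
        simp at hq
      obtain ⟨p, hp⟩ : ∃ p, r = q * m + 1 + p := ⟨r - (q * m + 1), by omega⟩
      have hsum : ∑ j : Fin (t + 1), (if j.1 < t then 2 * k - 1 else q) = t * (2 * k - 1) + q := by
        rw [Fin.sum_univ_castSucc]
        simp
      obtain ⟨G, hG1, hG2, hG3⟩ := exists_lower k m (t + 1) p hk
        (fun j => if j.1 < t then 2 * k - 1 else q)
        (by intro j; split_ifs <;> omega) n (by rw [hsum, hnt, hp]; ring)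
      refine ⟨G, hG1, hG2, le_trans ?_ hG3⟩
      rw [hsum]
      have h1 : (t * (2 * k - 1) + q) * (m + 1) + p =
          (2 * k - 1) * (m + 1) * t + (q * m + p) + q := by ring
      rw [h1]
      omega
    · have h0 : (r - 1) / m - 1 = 0 := by omega
      obtain ⟨G, hG1, hG2, hG3⟩ := exists_lower k m t r hk (fun _ => 2 * k - 1)
        (fun _ => le_rfl) n (by
          rw [sum_const, card_univ, Fintype.card_fin, smul_eq_mul, hnt]; ring)
      refine ⟨G, hG1, hG2, le_trans ?_ hG3⟩
      rw [sum_const, card_univ, Fintype.card_fin, smul_eq_mul, h0]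
      apply le_of_eq
      ring
  obtain ⟨G, hG1, hG2, hG3⟩ := hlow
  exact ⟨G, hG1, hG2, le_antisymm (hup G hG1 hG2) hG3⟩

end Pool.Agent.H38
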