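import Pool.Agent.H38.Count

set_option autoImplicit false
set_option linter.unusedSectionVars false
set_option linter.unusedSimpArgs false
set_option linter.unusedVariables false

namespace Pool.Agent.H38

open Finset

section
variable {V : Type*} [DecidableEq V] [Fintype V] {G : SimpleGraph V}

/-- constants -/
def cM (k m : ℕ) : ℤ := (2 * k - 1) * m + 1
def cq (k m : ℕ) : ℤ := (2 * k - 2) * m + 1
def c1 (k m : ℕ) : ℤ := cM k m * ((k - 1) * (m + 1))
def c2 (k m : ℕ) : ℤ := c1 k m + cq k m * cM k m * (2 * k - 1)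

lemma cM_pos {k m : ℕ} (hk : 2 ≤ k) : 1 ≤ cM k m := by
  unfold cM
  have : (0 : ℤ) ≤ (2 * k - 1) * m := mul_nonneg (by linarith [(by exact_mod_cast hk : (2:ℤ) ≤ k)]) (by positivity)
  linarith

lemma cq_pos {k m : ℕ} (hk : 2 ≤ k) : 1 ≤ cq k m := by
  unfold cq
  have : (0 : ℤ) ≤ (2 * k - 2) * m := mul_nonneg (by linarith [(by exact_mod_cast hk : (2:ℤ) ≤ k)]) (by positivity)
  linarith

lemma c1_nonneg {k m : ℕ} (hk : 2 ≤ k) : 0 ≤ c1 k m := by
  unfold c1
  have h1 := cM_pos (m := m) hk
  have h2 : (0 : ℤ) ≤ (k - 1) * (m + 1) :=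
    mul_nonneg (by linarith [(by exact_mod_cast hk : (2:ℤ) ≤ k)]) (by positivity)
  exact mul_nonneg (by linarith) h2

lemma c2_nonneg {k m : ℕ} (hk : 2 ≤ k) : 0 ≤ c2 k m := by
  unfold c2
  have h1 := cM_pos (m := m) hk
  have h2 := cq_pos (m := m) hk
  have h3 := c1_nonneg (m := m) hk
  have h4 : (0 : ℤ) ≤ cq k m * cM k m * (2 * k - 1) :=
    mul_nonneg (mul_nonneg (by linarith) (by linarith))
      (by linarith [(by exact_mod_cast hk : (2:ℤ) ≤ k)])
  linarith

open scoped Classical in
lemma Dec.wt_bound {k m : ℕ} {A B W : Finset V} (h : Dec G k m A B W) {C : Finset V}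
    (hC : C ∈ comps G W) :
    (cq k m + c2 k m) * wt G (A ∪ B) W k m C ≤
      - (if Tight G (A ∪ B) W k m C then 0 else (C.card : ℤ)) +
      (if 2 * (k - A.card) ≤ (att G B C).card then
        (1 + c2 k m) * (c1 k m + cq k m * cM k m * B.card) else 0) := by
  have hk := h.hk
  have hM := cM_pos (m := m) hk
  have hq := cq_pos (m := m) hk
  have hc1 := c1_nonneg (m := m) hk
  have hc2 := c2_nonneg (m := m) hk
  have hD : 0 ≤ c1 k m + cq k m * cM k m * B.card := by
    have : (0 : ℤ) ≤ cq k m * cM k m * B.card :=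
      mul_nonneg (mul_nonneg (by linarith) (by linarith)) (by positivity)
    linarith
  have hDD : 0 ≤ (1 + c2 k m) * (c1 k m + cq k m * cM k m * B.card) :=
    mul_nonneg (by linarith) hD
  by_cases ht : Tight G (A ∪ B) W k m C
  · rw [if_pos ht, wt_tight hk ht]
    split_ifs
    · simpa using hDD
    · simp
  · rw [if_neg ht]
    have hlin := h.wt_lin hC
    have hlin' : cq k m * wt G (A ∪ B) W k m C ≤ - C.card + c1 k m +
        cq k m * cM k m * (att G B C).card := hlin
    have hatt : (att G B C).card ≤ B.card := card_le_card (filter_subset _ _)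
    have hqM : 0 ≤ cq k m * cM k m := mul_nonneg (by linarith) (by linarith)
    have hCpos : (0 : ℤ) ≤ C.card := by positivity
    by_cases hb : 2 * (k - A.card) ≤ (att G B C).card
    · rw [if_pos hb]
      have h1 : cq k m * cM k m * (att G B C).card ≤ cq k m * cM k m * B.card :=
        mul_le_mul_of_nonneg_left (by exact_mod_cast hatt) hqM
      have h2 : wt G (A ∪ B) W k m C ≤ c1 k m + cq k m * cM k m * B.card := by
        by_cases hw : wt G (A ∪ B) W k m C ≤ 0
        · linarith
        · push Not at hw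
          have : wt G (A ∪ B) W k m C ≤ cq k m * wt G (A ∪ B) W k m C := by nlinarith
          linarith
      have h3 := mul_le_mul_of_nonneg_left h2 hc2
      nlinarith
    · rw [if_neg hb]
      have hneg : wt G (A ∪ B) W k m C ≤ -1 := by
        rcases h.wt_neg hC hb with h1 | h1
        · exact h1
        · exact absurd h1 ht
      have h1 : (att G B C).card ≤ 2 * k - 1 := by omega
      have h2 : ((att G B C).card : ℤ) ≤ 2 * k - 1 := by
        have : (att G B C).card + 1 ≤ 2 * k := by omega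
        have h3 : ((att G B C).card : ℤ) + 1 ≤ 2 * k := by exact_mod_cast this
        linarith
      have h3 := mul_le_mul_of_nonneg_left h2 hqM
      have h4 := mul_le_mul_of_nonneg_left hneg hc2
      have h5 : cq k m * wt G (A ∪ B) W k m C ≤ - C.card + c2 k m := by
        unfold c2; linarith
      linarith

open scoped Classical in
lemma Dec.nontight_le {k m : ℕ} {A B W : Finset V} (h : Dec G k m A B W) (C0 : ℕ)
    (he : (cM k m + 2 * k - 2) * Fintype.card V ≤ cM k m * eI G univ + C0) :
    (∑ C ∈ (comps G W).filter (fun C => ¬ Tight G (A ∪ B) W k m C), (C.card : ℤ)) ≤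
      (cq k m + c2 k m) * (C0 + 2 * cM k m * ((A ∪ B).card * (A ∪ B).card)) +
      ((B.card + 1) ^ (2 * k) * (2 * k)) *
        ((1 + c2 k m) * (c1 k m + cq k m * cM k m * B.card)) := by
  have hk := h.hk
  have hM := cM_pos (m := m) hk
  have hq := cq_pos (m := m) hk
  have hc1 := c1_nonneg (m := m) hk
  have hc2 := c2_nonneg (m := m) hk
  have hD : 0 ≤ c1 k m + cq k m * cM k m * B.card := by
    have : (0 : ℤ) ≤ cq k m * cM k m * B.card :=
      mul_nonneg (mul_nonneg (by linarith) (by linarith)) (by positivity)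
    linarith
  have hDD : 0 ≤ (1 + c2 k m) * (c1 k m + cq k m * cM k m * B.card) :=
    mul_nonneg (by linarith) hD
  have hXW : (A ∪ B) ∪ W = univ := by
    rw [h.hW, union_sdiff_of_subset (subset_univ _)]
  have hcount := edge_count h.hWs h.disj h.hg
  rw [hXW] at hcount
  have hn : Fintype.card V = (A ∪ B).card + W.card := by
    rw [← card_univ, ← hXW, card_union_of_disjoint h.disj]
  set X := A ∪ B with hX
  have hsum : ∑ C ∈ comps G W, wt G X W k m C =
      cM k m * ((∑ C ∈ comps G W, ∑ x ∈ X, (Lam G X W m x ∩ C).card : ℕ) -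
        (comps G W).card) - (2 * k - 2) * W.card := by
    have h1 : (W.card : ℤ) = ∑ C ∈ comps G W, (C.card : ℤ) := by
      rw [card_comps h.hWs]; push_cast; rfl
    rw [h1, mul_sum]
    rw [card_eq_sum_ones]
    push_cast
    rw [← sum_sub_distrib, mul_sum, ← sum_sub_distrib]
    apply sum_congr rfl
    intro C hC
    unfold wt cM lab
    push_cast
    ring
  have hwsum : (cq k m + c2 k m) * ∑ C ∈ comps G W, wt G X W k m C ≤
      - (∑ C ∈ (comps G W).filter (fun C => ¬ Tight G X W k m C), (C.card : ℤ)) +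
      ((comps G W).filter (fun C => 2 * (k - A.card) ≤ (att G B C).card)).card *
        ((1 + c2 k m) * (c1 k m + cq k m * cM k m * B.card)) := by
    rw [mul_sum]
    refine (sum_le_sum (fun C hC => h.wt_bound hC)).trans ?_
    rw [sum_add_distrib]
    apply add_le_add
    · rw [sum_neg_distrib, neg_le_neg_iff, sum_filter]
      apply le_of_eq
      apply sum_congr rfl
      intro C _
      by_cases ht : Tight G X W k m C
      · rw [if_pos ht, if_neg (not_not.mpr ht)]
      · rw [if_neg ht, if_pos ht]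
    · rw [← sum_filter, sum_const, nsmul_eq_mul]
  have hbig := h.big_card
  have hbig' : ((((comps G W).filter (fun C => 2 * (k - A.card) ≤ (att G B C).card)).card : ℕ) : ℤ) ≤
      (B.card + 1) ^ (2 * k) * (2 * k) := by exact_mod_cast hbig
  have hbm := mul_le_mul_of_nonneg_right hbig' hDD
  have hcount' : (eI G univ : ℤ) + (comps G W).card ≤ 2 * (X.card * X.card) + W.card +
      (∑ C ∈ comps G W, ∑ x ∈ X, (Lam G X W m x ∩ C).card : ℕ) := by exact_mod_cast hcount
  rw [hn] at he
  push_cast at he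
  generalize (∑ C ∈ comps G W, ∑ x ∈ X, (Lam G X W m x ∩ C).card : ℕ) = SL at *
  generalize hw : ∑ C ∈ comps G W, wt G X W k m C = w at *
  generalize (∑ C ∈ (comps G W).filter (fun C => ¬ Tight G X W k m C), (C.card : ℤ)) = nt at *
  have hmul := mul_le_mul_of_nonneg_left hcount' (show 0 ≤ cM k m by linarith)
  have hk2 : (2 : ℤ) ≤ k := by exact_mod_cast hk
  have hwlow : - (C0 + 2 * cM k m * (X.card * X.card)) ≤ w := by
    rw [hsum]
    have hXn : (0 : ℤ) ≤ (cM k m + 2 * k - 2) * X.card :=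
      mul_nonneg (by linarith) (by positivity)
    nlinarith [hmul, he, hXn]
  have hwm := mul_le_mul_of_nonneg_left hwlow (show 0 ≤ cq k m + c2 k m by linarith)
  linarith

/-- the vertices of `W` which are conflict labels -/
noncomputable def cfSet (G : SimpleGraph V) (X W : Finset V) (m : ℕ) : Finset V :=
  (X ×ˢ X).biUnion (fun xy => if xy.1 = xy.2 then ∅ else
    (by classical exact W.filter (fun p => IsCf G W m xy.1 xy.2 p)))

lemma cfSet_card {X W : Finset V} {m : ℕ} (hW : Sparse G W) (hd : Disjoint X W)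
    (hg : ∀ U : Finset V, U.card < 4 * m + 3 → ¬ Dense G U) :
    (cfSet G X W m).card ≤ X.card * X.card := by
  classical
  unfold cfSet
  rw [← card_product]
  refine (card_biUnion_le_card_mul _ _ 1 ?_).trans (le_of_eq (mul_one _))
  intro xy hxy
  rw [mem_product] at hxy
  split_ifs with h
  · simp
  · rw [card_le_one]
    intro p hp p' hp'
    rw [mem_filter] at hp hp'
    exact isCf_unique hW hg h (disjoint_left.mp hd hxy.1) (disjoint_left.mp hd hxy.2) hp.2 hp'.2

lemma lab_eq_of_not_cf {X W C : Finset V} {m : ℕ} (hC : C ⊆ W)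
    (hn : ∀ p ∈ C, p ∉ cfSet G X W m) {x : V} (hx : x ∈ X) :
    lab G X W m C x = dN G C x := by
  classical
  unfold lab dN
  congr 1
  ext p
  rw [mem_inter, mem_Lam, mem_filter]
  constructor
  · rintro ⟨⟨_, h2, _⟩, h4⟩
    exact ⟨h4, h2⟩
  · rintro ⟨h1, h2⟩
    refine ⟨⟨hC h1, h2, ?_⟩, h1⟩
    intro y hy hyx hcf
    apply hn p h1
    unfold cfSet
    rw [mem_biUnion]
    refine ⟨(x, y), mem_product.mpr ⟨hx, hy⟩, ?_⟩
    rw [if_neg (fun h => hyx h.symm), mem_filter]
    exact ⟨hC h1, hcf⟩

/-- many identical tight components -/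
theorem Dec.exists_tight {k m : ℕ} {A B W : Finset V} (h : Dec G k m A B W) (C0 : ℕ)
    (he : (cM k m + 2 * k - 2) * Fintype.card V ≤ cM k m * eI G univ + C0)
    (hn : (A ∪ B).card + cM k m * ((A ∪ B).card * (A ∪ B).card +
        ((A ∪ B).card + 1) ^ (2 * k) * (2 * k)) +
      ((cq k m + c2 k m) * (C0 + 2 * cM k m * ((A ∪ B).card * (A ∪ B).card)) +
      ((B.card + 1) ^ (2 * k) * (2 * k)) *
        ((1 + c2 k m) * (c1 k m + cq k m * cM k m * B.card))) < Fintype.card V) :
    ∃ S : Finset V, S.card = 2 * k - 1 ∧ ∃ 𝒯 : Finset (Finset V), 2 * k + 1 ≤ 𝒯.card ∧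
      (∀ C ∈ 𝒯, IsSub G C ∧ Sparse G C ∧ Disjoint C S ∧ C.card = (2 * k - 1) * m + 1 ∧
        (∀ x ∈ S, dN G C x = 1) ∧ (∀ u ∈ C, ∀ w, w ∉ C → G.Adj u w → w ∈ S) ∧
        (∀ x ∈ S, ∀ y ∈ S, x ≠ y → ∀ p ∈ C, ∀ q ∈ C, G.Adj x p → G.Adj y q → 
          ∀ P ⊆ C, IsSub G P → p ∈ P → q ∈ P → 2 * m + 1 ≤ P.card)) ∧
      (∀ C ∈ 𝒯, ∀ C' ∈ 𝒯, C ≠ C' → Disjoint C C') := by
  classical
  have hk := h.hk
  have hWs := h.hWs
  have hnt := h.nontight_le C0 he
  have hXW : (A ∪ B) ∪ W = univ := by
    rw [h.hW, union_sdiff_of_subset (subset_univ _)]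
  have hnc : Fintype.card V = (A ∪ B).card + W.card := by
    rw [← card_univ, ← hXW, card_union_of_disjoint h.disj]
  have hcf := cfSet_card h.hWs h.disj h.hg
  have hd := h.disj
  set X := A ∪ B with hX
  set TT := (comps G W).filter (fun C => Tight G X W k m C) with hTT
  set bad := (cfSet G X W m).image (comp G W) with hbad
  have hbadc : bad.card ≤ X.card * X.card := card_image_le.trans hcf
  set GT := TT \ bad with hGT
  have hsplit : (W.card : ℤ) = ∑ C ∈ TT, (C.card : ℤ) +
      ∑ C ∈ (comps G W).filter (fun C => ¬ Tight G X W k m C), (C.card : ℤ) := by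
    rw [hTT, sum_filter_add_sum_filter_not]
    rw [card_comps h.hWs]; push_cast; rfl
  have hTTs : ∑ C ∈ TT, (C.card : ℤ) = TT.card * cM k m := by
    rw [← nsmul_eq_mul, ← sum_const]
    apply sum_congr rfl
    intro C hC
    rw [hTT, mem_filter] at hC
    rw [hC.2.2.2]
    unfold cM
    obtain ⟨κ, rfl⟩ : ∃ κ, k = κ + 1 := ⟨k - 1, by omega⟩
    rw [show 2 * (κ + 1) - 1 = 2 * κ + 1 by omega]
    push_cast; ring
  have hM := cM_pos (m := m) hk
  have hGTc : X.card * X.card + GT.card ≥ TT.card := by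
    have := le_card_sdiff bad TT
    rw [← hGT] at this
    omega
  have hmany : (X.card + 1) ^ (2 * k) * (2 * k) < GT.card := by
    by_contra hcon
    push Not at hcon
    have h1 : (TT.card : ℤ) ≤ X.card * X.card + (X.card + 1) ^ (2 * k) * (2 * k) := by
      have : TT.card ≤ X.card * X.card + (X.card + 1) ^ (2 * k) * (2 * k) := by omega
      exact_mod_cast this
    have h2 := mul_le_mul_of_nonneg_left h1 (show 0 ≤ cM k m by linarith)
    rw [hTTs] at hsplit
    have h3 : (Fintype.card V : ℤ) = X.card + W.card := by exact_mod_cast hnc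
    nlinarith
  -- names of a component
  have hGTspec : ∀ C ∈ GT, C ∈ comps G W ∧ Tight G X W k m C ∧
      (∀ x ∈ X, lab G X W m C x = dN G C x) := by
    intro C hC
    rw [hGT, mem_sdiff, hTT, mem_filter] at hC
    refine ⟨hC.1.1, hC.1.2, ?_⟩
    intro x hx
    apply lab_eq_of_not_cf (comps_spec hWs hC.1.1).1 _ hx
    intro p hp hpc
    apply hC.2
    rw [hbad, mem_image]
    exact ⟨p, hpc, (comps_spec hWs hC.1.1).2.2.1 p hp⟩
  have hle1 : ∀ C ∈ GT, ∀ x ∈ X, dN G C x ≤ 1 := by
    intro C hC x hx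
    obtain ⟨h1, h2, h3⟩ := hGTspec C hC
    rw [← h3 x hx]
    by_contra hcon
    have h4 := h2.1
    rw [card_eq_zero, filter_eq_empty_iff] at h4
    exact h4 hx (by omega)
  have hmaps : ∀ C ∈ GT, X.filter (fun x => 1 ≤ dN G C x) ∈ X.powersetCard (2 * k - 1) := by
    intro C hC
    obtain ⟨h1, h2, h3⟩ := hGTspec C hC
    rw [mem_powersetCard]
    refine ⟨filter_subset _ _, ?_⟩
    rw [← h2.2.1, card_filter]
    apply sum_congr rfl
    intro x hx
    rw [h3 x hx]
    have := hle1 C hC x hx
    split_ifs <;> omega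
  have hcard : (X.powersetCard (2 * k - 1)).card * (2 * k) < GT.card := by
    refine lt_of_le_of_lt (Nat.mul_le_mul_right _ ?_) hmany
    rw [card_powersetCard]
    calc X.card.choose (2 * k - 1) ≤ X.card ^ (2 * k - 1) := Nat.choose_le_pow _ _
      _ ≤ (X.card + 1) ^ (2 * k - 1) := Nat.pow_le_pow_left (by omega) _
      _ ≤ (X.card + 1) ^ (2 * k) := Nat.pow_le_pow_right (by omega) (by omega)
  obtain ⟨S, hS, hfib⟩ := exists_lt_card_fiber_of_mul_lt_card_of_maps_to hmaps hcard
  rw [mem_powersetCard] at hS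
  refine ⟨S, hS.2, GT.filter (fun C => X.filter (fun x => 1 ≤ dN G C x) = S), hfib, ?_, ?_⟩
  · intro C hC
    rw [mem_filter] at hC
    obtain ⟨hCG, hCS⟩ := hC
    obtain ⟨h1, h2, h3⟩ := hGTspec C hCG
    obtain ⟨c1, c2, c3, c4⟩ := comps_spec hWs h1
    have hSX : S ⊆ X := hS.1
    refine ⟨c2, hWs.mono G c1, ?_, h2.2.2, ?_, ?_, ?_⟩
    · exact (hd.mono hSX c1).symm
    · intro x hx
      have hx' := hx
      rw [← hCS, mem_filter] at hx'
      have := hle1 C hCG x hx'.1
      omega
    · intro u hu w hw hadj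
      have hwW : w ∉ W := fun hwW => hw (c4 u hu w hwW hadj)
      have hwX : w ∈ X := by
        have : w ∈ X ∪ W := by rw [hXW]; exact mem_univ _
        rcases mem_union.mp this with h | h
        · exact h
        · exact absurd h hwW
      rw [← hCS, mem_filter]
      exact ⟨hwX, one_le_dN_of_adj G hu hadj.symm⟩
    · intro x hx y hy hxy p hp q hq hxp hyq P hP hPs hpP hqP
      have hxX := hSX hx
      have hyX := hSX hy
      -- p, q are labels without conflict
      have key : ∀ z ∈ X, ∀ r ∈ C, G.Adj z r → r ∈ Lam G X W m z := by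
        intro z hz r hr hadj
        have e1 := h3 z hz
        unfold lab dN at e1
        have hsub : Lam G X W m z ∩ C ⊆ C.filter (fun u => G.Adj z u) := by
          intro t ht
          rw [mem_inter, mem_Lam] at ht
          rw [mem_filter]
          exact ⟨ht.2, ht.1.2.1⟩
        have e2 := eq_of_subset_of_card_le hsub (le_of_eq (by
          rw [e1]))
        have hmem : r ∈ C.filter (fun u => G.Adj z u) := mem_filter.mpr ⟨hr, hadj⟩
        rw [← e2, mem_inter] at hmem
        exact hmem.1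
      have hdist := Lam_dist hWs c1 c2 x hxX y hyX hxy p (key x hxX p hp hxp) q
        (key y hyX q hq hyq) hp hq
      have := dd_le (G := G) (hP.trans c1) hPs hpP hqP
      omega
  · intro C hC C' hC' hne
    rw [mem_filter] at hC hC'
    exact comps_disjoint hWs (hGTspec C hC.1).1 (hGTspec C' hC'.1).1 hne

end

end Pool.Agent.H38
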