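import Mathlib

set_option autoImplicit false
set_option linter.unusedSectionVars false
set_option linter.unusedSimpArgs false
set_option linter.unusedVariables false

namespace Pool.Agent.H38

open Finset
open scoped Classical in
/-- number of edges of `G` with both ends in `U` -/
noncomputable def eI {V : Type*} (G : SimpleGraph V) (U : Finset V) : ℕ :=
  (U.sym2.filter (fun e => e ∈ G.edgeSet)).card

open scoped Classical in
/-- number of neighbours of `v` inside `U` -/
noncomputable def dN {V : Type*} (G : SimpleGraph V) (U : Finset V) (v : V) : ℕ :=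
  (U.filter (fun u => G.Adj v u)).card

/-- every nonempty subset of `W` spans fewer edges than vertices -/
def Sparse {V : Type*} (G : SimpleGraph V) (W : Finset V) : Prop :=
  ∀ U ⊆ W, U.Nonempty → eI G U < U.card

/-- a nonempty set spanning at least as many edges as vertices -/
def Dense {V : Type*} (G : SimpleGraph V) (U : Finset V) : Prop :=
  U.Nonempty ∧ U.card ≤ eI G U

/-- nonempty set with all inner degrees at least two -/
def Good {V : Type*} (G : SimpleGraph V) (U : Finset V) : Prop :=
  U.Nonempty ∧ ∀ v ∈ U, 2 ≤ dN G U v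

section
variable {V : Type*} [DecidableEq V] (G : SimpleGraph V)

lemma eI_insert {U : Finset V} {v : V} (hv : v ∉ U) :
    eI G (insert v U) = eI G U + dN G U v := by
  classical
  unfold eI dN
  have h1 : ((insert v U).sym2.filter (fun e => e ∈ G.edgeSet)) =
      (U.sym2.filter (fun e => e ∈ G.edgeSet)) ∪
        ((U.filter (fun u => G.Adj v u)).image (fun u => s(v, u))) := by
    ext e
    induction e using Sym2.ind with
    | _ a b =>
      simp only [mem_filter, mem_union, mem_image, Finset.mk_mem_sym2_iff, mem_insert,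
        SimpleGraph.mem_edgeSet]
      constructor
      · rintro ⟨⟨ha, hb⟩, hab⟩
        rcases ha with rfl | ha
        · rcases hb with rfl | hb
          · exact absurd hab (G.irrefl)
          · right; exact ⟨b, ⟨hb, hab⟩, rfl⟩
        · rcases hb with rfl | hb
          · right; exact ⟨a, ⟨ha, hab.symm⟩, Sym2.eq_swap⟩
          · left; exact ⟨⟨ha, hb⟩, hab⟩
      · rintro (⟨⟨ha, hb⟩, hab⟩ | ⟨u, ⟨hu, hvu⟩, he⟩)
        · exact ⟨⟨Or.inr ha, Or.inr hb⟩, hab⟩
        · rw [Sym2.eq_iff] at he
          rcases he with ⟨rfl, rfl⟩ | ⟨rfl, rfl⟩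
          · exact ⟨⟨Or.inl rfl, Or.inr hu⟩, hvu⟩
          · exact ⟨⟨Or.inr hu, Or.inl rfl⟩, hvu.symm⟩
  rw [h1, card_union_of_disjoint, card_image_of_injOn]
  · intro a ha b hb hab
    have hab' : s(v, a) = s(v, b) := hab
    rw [Sym2.eq_iff] at hab'
    rcases hab' with ⟨_, h⟩ | ⟨h1, h2⟩
    · exact h
    · rw [h2, ← h1]
  · rw [disjoint_left]
    intro e he he'
    simp only [mem_image, mem_filter] at he'
    obtain ⟨u, _, rfl⟩ := he'
    simp only [mem_filter, Finset.mk_mem_sym2_iff] at he
    exact hv he.1.1

@[simp] lemma eI_empty : eI G (∅ : Finset V) = 0 := by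
  simp [eI]

@[simp] lemma eI_singleton (v : V) : eI G ({v} : Finset V) = 0 := by
  have := eI_insert G (U := ∅) (v := v) (by simp)
  simpa [dN] using this

lemma eI_mono {U W : Finset V} (h : U ⊆ W) : eI G U ≤ eI G W := by
  classical
  unfold eI
  apply card_le_card
  intro e he
  rw [mem_filter] at he ⊢
  exact ⟨Finset.sym2_mono h he.1, he.2⟩

lemma dN_mono {U W : Finset V} (h : U ⊆ W) (v : V) : dN G U v ≤ dN G W v := by
  classical
  unfold dN
  exact card_le_card (filter_subset_filter _ h)

lemma eI_super (U W : Finset V) : eI G U + eI G W ≤ eI G (U ∪ W) + eI G (U ∩ W) := by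
  classical
  unfold eI
  rw [← card_union_add_card_inter]
  apply Nat.add_le_add
  · apply card_le_card
    intro e he
    rw [mem_union, mem_filter, mem_filter] at he
    rw [mem_filter]
    rcases he with he | he
    · exact ⟨Finset.sym2_mono subset_union_left he.1, he.2⟩
    · exact ⟨Finset.sym2_mono subset_union_right he.1, he.2⟩
  · apply card_le_card
    intro e he
    rw [mem_inter, mem_filter, mem_filter] at he
    rw [mem_filter]
    refine ⟨?_, he.1.2⟩
    induction e using Sym2.ind with
    | _ a b =>
      simp only [Finset.mk_mem_sym2_iff] at he ⊢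
      simp [he.1.1.1, he.1.1.2, he.2.1.1, he.2.1.2]

lemma eI_erase {U : Finset V} {v : V} (hv : v ∈ U) :
    eI G U = eI G (U.erase v) + dN G (U.erase v) v := by
  have := eI_insert G (U := U.erase v) (v := v) (by simp)
  rwa [insert_erase hv] at this

lemma dN_erase_self (U : Finset V) (v : V) : dN G (U.erase v) v = dN G U v := by
  classical
  unfold dN
  congr 1
  ext u
  simp only [mem_filter, mem_erase]
  constructor
  · rintro ⟨⟨_, h1⟩, h2⟩; exact ⟨h1, h2⟩
  · rintro ⟨h1, h2⟩; exact ⟨⟨h2.ne', h1⟩, h2⟩

lemma eI_erase' {U : Finset V} {v : V} (hv : v ∈ U) :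
    eI G U = eI G (U.erase v) + dN G U v := by
  rw [eI_erase G hv, dN_erase_self]

lemma dN_union_disjoint {U W : Finset V} (h : Disjoint U W) (v : V) :
    dN G (U ∪ W) v = dN G U v + dN G W v := by
  classical
  unfold dN
  rw [filter_union, card_union_of_disjoint]
  exact disjoint_filter_filter h

open scoped Classical in
lemma dN_insert {U : Finset V} {w : V} (hw : w ∉ U) (v : V) :
    dN G (insert w U) v = dN G U v + (if G.Adj v w then 1 else 0) := by
  classical
  unfold dN
  rw [filter_insert]
  split_ifs with h
  · rw [card_insert_of_notMem]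
    simp [hw]
  · rfl

lemma sum_dN (U : Finset V) : ∑ v ∈ U, dN G U v = 2 * eI G U := by
  classical
  induction U using Finset.induction_on with
  | empty => simp
  | insert w U hw ih =>
    rw [sum_insert hw, eI_insert G hw]
    have h1 : dN G (insert w U) w = dN G U w := by
      rw [dN_insert G hw]; simp
    have h2 : ∑ v ∈ U, dN G (insert w U) v = ∑ v ∈ U, dN G U v + dN G U w := by
      simp_rw [dN_insert G hw]
      rw [sum_add_distrib]
      congr 1
      unfold dN
      rw [card_filter]
      apply sum_congr rfl
      intro v _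
      simp only [G.adj_comm]
    rw [h1, h2, ih]; ring

lemma Good.dense {U : Finset V} (h : Good G U) : Dense G U := by
  refine ⟨h.1, ?_⟩
  have h1 := sum_dN G U
  have h2 : ∑ v ∈ U, 2 ≤ ∑ v ∈ U, dN G U v := sum_le_sum h.2
  simp at h2
  omega

lemma Dense.exists_good {U : Finset V} (h : Dense G U) : ∃ D ⊆ U, Good G D := by
  classical
  induction hn : U.card using Nat.strong_induction_on generalizing U with
  | _ n ih =>
    by_cases hg : ∀ v ∈ U, 2 ≤ dN G U v
    · exact ⟨U, subset_rfl, h.1, hg⟩
    · push Not at hg
      obtain ⟨v, hv, hd⟩ := hg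
      have h1 := eI_erase' G hv
      have h2 := h.2
      have hc := card_erase_of_mem hv
      have hpos : 0 < U.card := card_pos.mpr h.1
      have hne : (U.erase v).Nonempty := by
        rw [nonempty_iff_ne_empty]
        intro he
        rw [he] at h1 hc
        simp only [eI_empty, card_empty] at h1 hc
        have h3 : U = {v} := by
          rw [← insert_erase hv, he]; rfl
        rw [h3] at h2
        simp at h2
      have hD : Dense G (U.erase v) := ⟨hne, by omega⟩
      obtain ⟨D, hDs, hDg⟩ := ih (U.erase v).card (by omega) hD rfl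
      exact ⟨D, hDs.trans (erase_subset _ _), hDg⟩

lemma sparse_iff_no_dense {W : Finset V} : Sparse G W ↔ ∀ U ⊆ W, ¬ Dense G U := by
  constructor
  · intro h U hU hd
    exact absurd (h U hU hd.1) (by have := hd.2; omega)
  · intro h U hU hne
    by_contra hc
    exact h U hU ⟨hne, by omega⟩

lemma Sparse.mono {W W' : Finset V} (h : Sparse G W) (hs : W' ⊆ W) : Sparse G W' :=
  fun U hU hne => h U (hU.trans hs) hne

end

end Pool.Agent.H38
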