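import Pool.Agent.H38.Label

set_option autoImplicit false
set_option linter.unusedSectionVars false
set_option linter.unusedSimpArgs false
set_option linter.unusedVariables false

namespace Pool.Agent.H38

open Finset

/-- `u` and `v` lie in a common subtree of `W` -/
def InComp {V : Type*} (G : SimpleGraph V) (W : Finset V) (v u : V) : Prop :=
  ∃ P ⊆ W, IsSub G P ∧ v ∈ P ∧ u ∈ P

open scoped Classical in
/-- the component of `v` in the forest `W` -/
noncomputable def comp {V : Type*} (G : SimpleGraph V) (W : Finset V) (v : V) : Finset V :=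
  W.filter (fun u => InComp G W v u)

/-- the set of components of the forest `W` -/
noncomputable def comps {V : Type*} [DecidableEq V] (G : SimpleGraph V) (W : Finset V) :
    Finset (Finset V) :=
  W.image (comp G W)

section
variable {V : Type*} [DecidableEq V] {G : SimpleGraph V}

lemma comp_subset (W : Finset V) (v : V) : comp G W v ⊆ W := by
  classical
  exact filter_subset _ _

lemma mem_comp {W : Finset V} {u v : V} :
    u ∈ comp G W v ↔ ∃ P ⊆ W, IsSub G P ∧ v ∈ P ∧ u ∈ P := by
  classical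
  unfold comp
  rw [mem_filter]
  unfold InComp
  constructor
  · exact fun h => h.2
  · intro h
    refine ⟨?_, h⟩
    obtain ⟨P, hP, _, _, hu⟩ := h
    exact hP hu

lemma mem_comp_self {W : Finset V} {v : V} (hv : v ∈ W) : v ∈ comp G W v :=
  mem_comp.mpr ⟨{v}, by simpa using hv, isSub_singleton v, by simp, by simp⟩

lemma mem_comp_comm {W : Finset V} {u v : V} (h : u ∈ comp G W v) : v ∈ comp G W u := by
  rw [mem_comp] at h ⊢
  obtain ⟨P, h1, h2, h3, h4⟩ := h
  exact ⟨P, h1, h2, h4, h3⟩

lemma mem_comp_trans {W : Finset V} (hW : Sparse G W) {u v w : V} (h : u ∈ comp G W v)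
    (h' : w ∈ comp G W u) : w ∈ comp G W v := by
  rw [mem_comp] at h h' ⊢
  obtain ⟨P, h1, h2, h3, h4⟩ := h
  obtain ⟨P', h1', h2', h3', h4'⟩ := h'
  refine ⟨P ∪ P', union_subset h1 h1', h2.union hW h1 h2' ⟨u, mem_inter.mpr ⟨h4, h3'⟩⟩,
    mem_union_left _ h3, mem_union_right _ h4'⟩

lemma comp_eq_of_mem {W : Finset V} (hW : Sparse G W) {u v : V} (h : u ∈ comp G W v) :
    comp G W u = comp G W v := by
  ext w
  exact ⟨fun hw => mem_comp_trans hW h hw, fun hw => mem_comp_trans hW (mem_comp_comm h) hw⟩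

lemma isSub_comp {W : Finset V} (hW : Sparse G W) {v : V} (hv : v ∈ W) :
    IsSub G (comp G W v) := by
  classical
  set S := W.powerset.filter (fun P => IsSub G P ∧ v ∈ P) with hS
  have hSne : S.Nonempty := ⟨{v}, by
    rw [hS, mem_filter, mem_powerset]
    exact ⟨by simpa using hv, isSub_singleton _, by simp⟩⟩
  obtain ⟨C, hC, hmax⟩ := exists_max_image S card hSne
  rw [hS, mem_filter, mem_powerset] at hC
  obtain ⟨hCW, hCs, hvC⟩ := hC
  have : comp G W v = C := by
    ext u
    rw [mem_comp]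
    constructor
    · rintro ⟨P, hP, hPs, hvP, huP⟩
      have h1 : IsSub G (C ∪ P) := hCs.union hW hCW hPs ⟨v, mem_inter.mpr ⟨hvC, hvP⟩⟩
      have h2 := hmax (C ∪ P) (by
        rw [hS, mem_filter, mem_powerset]
        exact ⟨union_subset hCW hP, h1, mem_union_left _ hvC⟩)
      have h3 : C = C ∪ P := eq_of_subset_of_card_le subset_union_left h2
      rw [h3]; exact mem_union_right _ huP
    · intro hu
      exact ⟨C, hCW, hCs, hvC, hu⟩
  rw [this]; exact hCs

lemma comp_closed {W : Finset V} (hW : Sparse G W) {u v w : V} (hu : u ∈ comp G W v)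
    (hw : w ∈ W) (ha : G.Adj u w) : w ∈ comp G W v := by
  classical
  refine mem_comp_trans hW hu ?_
  have huW := comp_subset W v hu
  rw [mem_comp]
  refine ⟨insert w {u}, ?_, ?_, ?_, ?_⟩
  · intro z hz
    rw [mem_insert, mem_singleton] at hz
    rcases hz with rfl | rfl
    · exact hw
    · exact huW
  · exact (isSub_singleton u).insert_of_adj (by simp) (by simpa using ha.ne') ha.symm
  · simp
  · simp

lemma isSub_subset_comp {W P : Finset V} (hP : P ⊆ W) (hs : IsSub G P) {v : V} (hv : v ∈ P) :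
    P ⊆ comp G W v := by
  intro u hu
  exact mem_comp.mpr ⟨P, hP, hs, hv, hu⟩

lemma mem_comps {W C : Finset V} : C ∈ comps G W ↔ ∃ v ∈ W, comp G W v = C := by
  classical
  unfold comps
  rw [mem_image]

lemma comps_spec {W C : Finset V} (hW : Sparse G W) (hC : C ∈ comps G W) :
    C ⊆ W ∧ IsSub G C ∧ (∀ u ∈ C, comp G W u = C) ∧
      (∀ u ∈ C, ∀ w ∈ W, G.Adj u w → w ∈ C) := by
  obtain ⟨v, hv, rfl⟩ := mem_comps.mp hC
  exact ⟨comp_subset W v, isSub_comp hW hv, fun u hu => comp_eq_of_mem hW hu,
    fun u hu w hw ha => comp_closed hW hu hw ha⟩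

lemma comps_disjoint {W C D : Finset V} (hW : Sparse G W) (hC : C ∈ comps G W)
    (hD : D ∈ comps G W) (hne : C ≠ D) : Disjoint C D := by
  rw [disjoint_left]
  intro u hu hu'
  exact hne (((comps_spec hW hC).2.2.1 u hu).symm.trans ((comps_spec hW hD).2.2.1 u hu'))

lemma comps_biUnion (W : Finset V) : (comps G W).biUnion id = W := by
  ext v
  simp only [mem_biUnion, id]
  constructor
  · rintro ⟨C, hC, hv⟩
    obtain ⟨w, hw, rfl⟩ := mem_comps.mp hC
    exact comp_subset W w hv
  · intro hv
    exact ⟨comp G W v, mem_comps.mpr ⟨v, hv, rfl⟩, mem_comp_self hv⟩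

lemma comps_pairwise {W : Finset V} (hW : Sparse G W) :
    (↑(comps G W) : Set (Finset V)).PairwiseDisjoint id := by
  intro C hC D hD hne
  exact comps_disjoint hW hC hD hne

lemma sum_comps {W : Finset V} (hW : Sparse G W) (f : V → ℕ) :
    ∑ v ∈ W, f v = ∑ C ∈ comps G W, ∑ v ∈ C, f v := by
  conv_lhs => rw [← comps_biUnion (G := G) W]
  rw [sum_biUnion (comps_pairwise hW)]
  rfl

lemma card_comps {W : Finset V} (hW : Sparse G W) :
    W.card = ∑ C ∈ comps G W, C.card := by
  have := sum_comps hW (fun _ => 1)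
  simpa using this

lemma dN_eq_sum_comps {W : Finset V} (hW : Sparse G W) (x : V) :
    dN G W x = ∑ C ∈ comps G W, dN G C x := by
  classical
  have := sum_comps hW (fun v => if G.Adj x v then 1 else 0)
  unfold dN
  simp_rw [card_filter]
  exact this

lemma eI_eq_sum_comps {W : Finset V} (hW : Sparse G W) :
    eI G W = ∑ C ∈ comps G W, eI G C := by
  classical
  have h1 := sum_dN G W
  rw [sum_comps hW] at h1
  have h2 : ∀ C ∈ comps G W, ∑ v ∈ C, dN G W v = 2 * eI G C := by
    intro C hC
    rw [← sum_dN G C]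
    apply sum_congr rfl
    intro v hv
    unfold dN
    congr 1
    ext u
    simp only [mem_filter]
    constructor
    · rintro ⟨hu, ha⟩
      exact ⟨(comps_spec hW hC).2.2.2 v hv u hu ha, ha⟩
    · rintro ⟨hu, ha⟩
      exact ⟨(comps_spec hW hC).1 hu, ha⟩
  rw [sum_congr rfl h2, ← mul_sum] at h1
  omega

lemma eI_add_comps {W : Finset V} (hW : Sparse G W) :
    eI G W + (comps G W).card = W.card := by
  rw [eI_eq_sum_comps hW, card_comps hW, card_eq_sum_ones, ← sum_add_distrib]
  apply sum_congr rfl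
  intro C hC
  obtain ⟨h1, h2, _⟩ := comps_spec hW hC
  exact h2.eI_eq hW h1

/-- edge count through a splitting `X, W` with `W` a forest -/
lemma eI_univ_split {X W : Finset V} (hd : Disjoint X W) (hW : Sparse G W) :
    eI G (X ∪ W) + (comps G W).card = eI G X + W.card + ∑ C ∈ comps G W, ∑ x ∈ X, dN G C x := by
  rw [eI_union_disjoint hd]
  have h1 := eI_add_comps hW
  have h2 : ∑ z ∈ X, dN G W z = ∑ C ∈ comps G W, ∑ x ∈ X, dN G C x := by
    rw [sum_comm]
    exact sum_congr rfl (fun x _ => dN_eq_sum_comps hW x)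
  omega

end

end Pool.Agent.H38
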