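import Pool.Agent.H38.Weight

set_option autoImplicit false
set_option linter.unusedSectionVars false
set_option linter.unusedSimpArgs false
set_option linter.unusedVariables false

namespace Pool.Agent.H38

open Finset

/-- the decomposition data -/
structure Dec {V : Type*} [DecidableEq V] [Fintype V] (G : SimpleGraph V) (k m : ℕ)
    (A B W : Finset V) : Prop where
  hk : 2 ≤ k
  hg : ∀ U : Finset V, U.card < 4 * m + 3 → ¬ Dense G U
  hP : ¬ Pack G univ k
  hAB : Disjoint A B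
  hW : W = univ \ (A ∪ B)
  hA : A.card ≤ k - 1
  hWs : Sparse G W
  hB : ∀ b ∈ B, ∀ P ⊆ W, IsSub G P → dN G P b ≤ 1
  hL : ∃ f : V → Fin k → Finset V, ∀ a ∈ A,
        (∀ i, f a i ⊆ W ∧ IsSub G (f a i) ∧ 2 ≤ dN G (f a i) a) ∧
        ∀ i j, i ≠ j → Disjoint (f a i) (f a j)

section
variable {V : Type*} [DecidableEq V] [Fintype V] {G : SimpleGraph V}

/-- attachments of `C` in `B` -/
noncomputable def att (G : SimpleGraph V) (B C : Finset V) : Finset V :=
  B.filter (fun b => 1 ≤ dN G C b)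

lemma Dec.disj {k m : ℕ} {A B W : Finset V} (h : Dec G k m A B W) : Disjoint (A ∪ B) W := by
  rw [h.hW]; exact disjoint_sdiff

lemma Dec.big_card {k m : ℕ} {A B W : Finset V} (h : Dec G k m A B W) :
    ((comps G W).filter (fun C => 2 * (k - A.card) ≤ (att G B C).card)).card ≤
      (B.card + 1) ^ (2 * k) * (2 * k) := by
  classical
  by_contra hcon
  push Not at hcon
  have hk := h.hk
  have hAk := h.hA
  have hWs := h.hWs
  set E := (comps G W).filter (fun C => 2 * (k - A.card) ≤ (att G B C).card) with hE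
  have hsel : ∀ C ∈ E, ∃ R ⊆ att G B C, R.card = 2 * (k - A.card) := by
    intro C hC
    rw [hE, mem_filter] at hC
    exact exists_subset_card_eq hC.2
  choose! R hR hRc using hsel
  have hmaps : ∀ C ∈ E, R C ∈ B.powersetCard (2 * (k - A.card)) := by
    intro C hC
    rw [mem_powersetCard]
    exact ⟨(hR C hC).trans (filter_subset _ _), hRc C hC⟩
  have hcard : (B.powersetCard (2 * (k - A.card))).card * (2 * k) < E.card := by
    refine lt_of_le_of_lt (Nat.mul_le_mul_right _ ?_) hcon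
    rw [card_powersetCard]
    calc B.card.choose (2 * (k - A.card)) ≤ B.card ^ (2 * (k - A.card)) := Nat.choose_le_pow _ _
      _ ≤ (B.card + 1) ^ (2 * (k - A.card)) := Nat.pow_le_pow_left (by omega) _
      _ ≤ (B.card + 1) ^ (2 * k) := Nat.pow_le_pow_right (by omega) (by omega)
  obtain ⟨R0, hR0, hfib⟩ := exists_lt_card_fiber_of_mul_lt_card_of_maps_to hmaps hcard
  set 𝒯0 := E.filter (fun C => R C = R0) with h𝒯0
  have hdis := h.disj
  obtain ⟨f, hf⟩ := h.hL
  have hAW : Disjoint A W := hdis.mono_left subset_union_left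
  have hBW : Disjoint B W := hdis.mono_left subset_union_right
  obtain ⟨Y, hY, hYd⟩ := pack_loops (G := G) hWs A hAW (fun _ => k) f
    (fun a ha i => (hf a ha).1 i) (fun a ha => (hf a ha).2) (fun a ha => by omega)
  have hpk1 := pack_of_loops A hAW Y hY hYd
  -- the components hit by the loops
  set Hit := A.image (fun a => if h : (Y a).Nonempty then comp G W h.choose else ∅) with hHit
  have hHitc : Hit.card ≤ A.card := card_image_le
  set 𝒯 := 𝒯0 \ Hit with h𝒯
  have h𝒯c : 2 * (k - A.card) ≤ 𝒯.card := by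
    have h1 := le_card_sdiff Hit 𝒯0
    rw [← h𝒯] at h1
    have h2 : 2 * k < 𝒯0.card := hfib
    omega
  have hmem : ∀ C ∈ 𝒯, C ∈ comps G W ∧ R0 ⊆ att G B C ∧ C ∉ Hit := by
    intro C hC
    rw [h𝒯, mem_sdiff, h𝒯0, mem_filter] at hC
    have h1 := hC.1.1
    rw [hE, mem_filter] at h1
    refine ⟨h1.1, ?_, hC.2⟩
    rw [← hC.1.2]
    exact hR C hC.1.1
  have hYC : ∀ C ∈ 𝒯, ∀ a ∈ A, Disjoint C (Y a) := by
    intro C hC a ha
    obtain ⟨hC1, hC2, hC3⟩ := hmem C hC
    rw [disjoint_left]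
    intro z hzC hzY
    apply hC3
    rw [hHit, mem_image]
    refine ⟨a, ha, ?_⟩
    have hne : (Y a).Nonempty := ⟨z, hzY⟩
    rw [dif_pos hne]
    have h1 : hne.choose ∈ comp G W z :=
      isSub_subset_comp (hY a ha).1 (hY a ha).2.1 hzY hne.choose_spec
    rw [comp_eq_of_mem hWs h1]
    exact (comps_spec hWs hC1).2.2.1 z hzC
  have hR0B : R0 ⊆ B := (mem_powersetCard.mp hR0).1
  have hpk2 : Pack G (R0 ∪ 𝒯.biUnion id) (k - A.card) := by
    apply pack_pairs
    · rw [(mem_powersetCard.mp hR0).2]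
    · exact h𝒯c
    · intro C hC
      obtain ⟨hC1, hC2, hC3⟩ := hmem C hC
      refine ⟨(comps_spec hWs hC1).2.1, ?_, ?_⟩
      · exact (hBW.mono hR0B (comps_spec hWs hC1).1).symm
      · intro x hx
        exact (mem_filter.mp (hC2 hx)).2
    · intro C hC C' hC' hne
      exact comps_disjoint hWs (hmem C hC).1 (hmem C' hC').1 hne
  have hdd : Disjoint (R0 ∪ 𝒯.biUnion id) (A ∪ A.biUnion Y) := by
    rw [disjoint_left]
    intro z hz hz'
    rw [mem_union, mem_biUnion] at hz hz'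
    rcases hz with hz | ⟨C, hC, hz⟩ <;> rcases hz' with hz' | ⟨a, ha, hz'⟩
    · exact disjoint_left.mp h.hAB hz' (hR0B hz)
    · exact disjoint_left.mp hBW (hR0B hz) ((hY a ha).1 hz')
    · exact disjoint_left.mp hAW hz' ((comps_spec hWs (hmem C hC).1).1 hz)
    · exact disjoint_left.mp (hYC C hC a ha) hz hz'
  have := (hpk2.add hpk1 hdd).mono (subset_univ _)
  rw [show k - A.card + A.card = k by omega] at this
  exact h.hP this

/-- number of labels of name `x` in `C` -/
noncomputable def lab (G : SimpleGraph V) (X W : Finset V) (m : ℕ) (C : Finset V) (x : V) : ℕ :=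
  (Lam G X W m x ∩ C).card

lemma Dec.lab_le_one {k m : ℕ} {A B W : Finset V} (h : Dec G k m A B W) {C : Finset V}
    (hC : C ∈ comps G W) {b : V} (hb : b ∈ B) : lab G (A ∪ B) W m C b ≤ 1 := by
  obtain ⟨h1, h2, _⟩ := comps_spec h.hWs hC
  exact Lam_inter_card_le.trans (h.hB b hb C h1 h2)

lemma Dec.viol_imp {k m : ℕ} {A B W : Finset V} (h : Dec G k m A B W) {C : Finset V}
    (hC : C ∈ comps G W)
    (hv : ¬ 2 * ((A ∪ B).filter (fun x => 2 ≤ lab G (A ∪ B) W m C x)).card +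
      ((A ∪ B).filter (fun x => lab G (A ∪ B) W m C x = 1)).card ≤ 2 * k - 1) :
    2 * (k - A.card) ≤ (att G B C).card := by
  classical
  have hk := h.hk
  have hAk := h.hA
  set A2 := (A ∪ B).filter (fun x => 2 ≤ lab G (A ∪ B) W m C x) with hA2
  set A1 := (A ∪ B).filter (fun x => lab G (A ∪ B) W m C x = 1) with hA1
  have hA2A : A2 ⊆ A := by
    intro x hx
    rw [hA2, mem_filter] at hx
    rcases mem_union.mp hx.1 with h1 | h1
    · exact h1
    · have := h.lab_le_one hC h1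
      omega
  have hA1s : A1 ⊆ (A \ A2) ∪ att G B C := by
    intro x hx
    rw [hA1, mem_filter] at hx
    rw [mem_union, mem_sdiff]
    rcases mem_union.mp hx.1 with h1 | h1
    · left
      refine ⟨h1, fun h2 => ?_⟩
      rw [hA2, mem_filter] at h2
      omega
    · right
      unfold att
      rw [mem_filter]
      refine ⟨h1, ?_⟩
      have : lab G (A ∪ B) W m C x ≤ dN G C x := Lam_inter_card_le
      omega
  have h1 := card_le_card hA1s
  have h2 := card_union_le (A \ A2) (att G B C)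
  have h3 := card_sdiff_of_subset hA2A
  have h4 := card_le_card hA2A
  omega

lemma Dec.sum_lab_le {k m : ℕ} {A B W : Finset V} (h : Dec G k m A B W) {C : Finset V}
    (hC : C ∈ comps G W) :
    ∑ x ∈ A ∪ B, lab G (A ∪ B) W m C x ≤
      ∑ x ∈ A, lab G (A ∪ B) W m C x + (att G B C).card := by
  classical
  rw [sum_union h.hAB]
  apply Nat.add_le_add_left
  unfold att
  rw [card_filter]
  apply sum_le_sum
  intro b hb
  have h1 := h.lab_le_one hC hb
  have h2 : lab G (A ∪ B) W m C b ≤ dN G C b := Lam_inter_card_le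
  split_ifs with h3
  · exact h1
  · omega

/-- weight of a component -/
noncomputable def wt (G : SimpleGraph V) (X W : Finset V) (k m : ℕ) (C : Finset V) : ℤ :=
  ((2 * k - 1) * m + 1 : ℤ) * ((∑ x ∈ X, lab G X W m C x : ℕ) - 1) - (2 * k - 2) * C.card

lemma Dec.wt_lin {k m : ℕ} {A B W : Finset V} (h : Dec G k m A B W) {C : Finset V}
    (hC : C ∈ comps G W) :
    ((2 * k - 2) * m + 1 : ℤ) * wt G (A ∪ B) W k m C ≤
      - C.card + ((2 * k - 1) * m + 1) * ((k - 1) * (m + 1)) +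
        ((2 * k - 2) * m + 1) * ((2 * k - 1) * m + 1) * (att G B C).card := by
  classical
  obtain ⟨h1, h2, _⟩ := comps_spec h.hWs hC
  have hk := h.hk
  have hlin := linear_bound h.hWs m k hk A h.hA (Lam G (A ∪ B) W m) h1 h2
    (fun x hx y hy => Lam_dist h.hWs h1 h2 x (mem_union_left _ hx) y (mem_union_left _ hy))
    (fun x hx => Lam_dist' h.hWs h1 h2 h.disj h.hg x (mem_union_left _ hx))
  have hsum := h.sum_lab_le hC
  have hlab : ∑ x ∈ A, lab G (A ∪ B) W m C x = ∑ x ∈ A, (Lam G (A ∪ B) W m x ∩ C).card := rfl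
  rw [← hlab] at hlin
  unfold wt
  obtain ⟨κ, rfl⟩ : ∃ κ, k = κ + 2 := ⟨k - 2, by omega⟩
  have e1 : 2 * (κ + 2) - 2 = 2 * κ + 2 := by omega
  have e2 : 2 * (κ + 2) - 3 = 2 * κ + 1 := by omega
  have e3 : κ + 2 - 1 = κ + 1 := by omega
  rw [e1, e2, e3] at hlin
  generalize hL : ∑ x ∈ A ∪ B, lab G (A ∪ B) W m C x = L at *
  generalize hLA : ∑ x ∈ A, lab G (A ∪ B) W m C x = LA at *
  generalize hs : (att G B C).card = s at *
  generalize hc : C.card = c at *
  have hlin' : ((2 * κ + 2) * m + 1 : ℤ) * LA ≤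
      (2 * κ + 1) * c + (κ + 1) * (m + 1) + ((2 * κ + 2) * m + 1) := by exact_mod_cast hlin
  have hsum' : (L : ℤ) ≤ LA + s := by exact_mod_cast hsum
  push_cast
  have hM : (0 : ℤ) ≤ (2 * κ + 3) * m + 1 := by positivity
  have hq : (0 : ℤ) ≤ (2 * κ + 2) * m + 1 := by positivity
  have hb1 := mul_le_mul_of_nonneg_left hsum' (mul_nonneg hM hq)
  have hb2 := mul_le_mul_of_nonneg_left hlin' hM
  have hmc : (0 : ℤ) ≤ m * c := by positivity
  nlinarith [hb1, hb2, hmc]

/-- tight components -/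
def Tight (G : SimpleGraph V) (X W : Finset V) (k m : ℕ) (C : Finset V) : Prop :=
  (X.filter (fun x => 2 ≤ lab G X W m C x)).card = 0 ∧
    ∑ x ∈ X, lab G X W m C x = 2 * k - 1 ∧ C.card = (2 * k - 1) * m + 1

lemma Dec.wt_neg {k m : ℕ} {A B W : Finset V} (h : Dec G k m A B W) {C : Finset V}
    (hC : C ∈ comps G W) (hv : ¬ 2 * (k - A.card) ≤ (att G B C).card) :
    wt G (A ∪ B) W k m C ≤ -1 ∨ Tight G (A ∪ B) W k m C := by
  classical
  obtain ⟨h1, h2, _⟩ := comps_spec h.hWs hC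
  have hk := h.hk
  have hnum : 2 * ((A ∪ B).filter (fun x => 2 ≤ lab G (A ∪ B) W m C x)).card +
      ((A ∪ B).filter (fun x => lab G (A ∪ B) W m C x = 1)).card ≤ 2 * k - 1 := by
    by_contra hc
    exact hv (h.viol_imp hC hc)
  have ht := tree_bound h.hWs m k hk (A ∪ B) (Lam G (A ∪ B) W m) h1 h2
    (Lam_dist h.hWs h1 h2) (Lam_dist' h.hWs h1 h2 h.disj h.hg) hnum
  rcases ht with ht | ht
  · left
    have hlab : ∑ x ∈ A ∪ B, lab G (A ∪ B) W m C x =
      ∑ x ∈ A ∪ B, (Lam G (A ∪ B) W m x ∩ C).card := rfl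
    rw [← hlab] at ht
    unfold wt
    obtain ⟨κ, rfl⟩ : ∃ κ, k = κ + 2 := ⟨k - 2, by omega⟩
    have e1 : 2 * (κ + 2) - 1 = 2 * κ + 3 := by omega
    have e2 : 2 * (κ + 2) - 2 = 2 * κ + 2 := by omega
    rw [e1, e2] at ht
    generalize hL : ∑ x ∈ A ∪ B, lab G (A ∪ B) W m C x = L at *
    have ht' : ((2 * κ + 3) * m + 1 : ℤ) * L + 1 ≤
      (2 * κ + 2) * C.card + ((2 * κ + 3) * m + 1) := by exact_mod_cast ht
    push_cast
    nlinarith [ht']
  · right
    exact ht

lemma wt_tight {X W : Finset V} {k m : ℕ} (hk : 2 ≤ k) {C : Finset V}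
    (h : Tight G X W k m C) : wt G X W k m C = 0 := by
  obtain ⟨_, h2, h3⟩ := h
  unfold wt
  rw [h2, h3]
  obtain ⟨κ, rfl⟩ : ∃ κ, k = κ + 2 := ⟨k - 2, by omega⟩
  have e1 : 2 * (κ + 2) - 1 = 2 * κ + 3 := by omega
  rw [e1]
  push_cast
  ring

end

end Pool.Agent.H38
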