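import Pool.Agent.H38.Pack

set_option autoImplicit false
set_option linter.unusedSectionVars false
set_option linter.unusedSimpArgs false
set_option linter.unusedVariables false

namespace Pool.Agent.H38

open Finset

section
variable {V : Type*} [DecidableEq V] {G : SimpleGraph V}

lemma stable_index (k : ℕ) (hk : 1 ≤ k) (c : ℕ → ℕ) (h0 : c 0 ≤ k - 1)
    (hmono : ∀ j, c (j + 1) ≤ c j) : ∃ j < k, c (j + 1) = c j := by
  by_contra hcon
  push Not at hcon
  have h : ∀ j ≤ k, c j + j ≤ c 0 := by
    intro j
    induction j with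
    | zero => intro _; simp
    | succ j ih =>
      intro hj
      have h1 := ih (by omega)
      have h2 := hcon j (by omega)
      have h3 := hmono j
      omega
  have := h k le_rfl
  omega

open scoped Classical in
lemma dN_eq_inter_card [Fintype V] {P W : Finset V} (hP : P ⊆ W) (x : V) :
    dN G P x = (P ∩ (W.filter (fun u => G.Adj x u))).card := by
  classical
  unfold dN
  congr 1
  ext u
  simp only [mem_filter, mem_inter]
  constructor
  · rintro ⟨h1, h2⟩; exact ⟨h1, hP h1, h2⟩
  · rintro ⟨h1, _, h2⟩; exact ⟨h1, h2⟩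

theorem exists_decomp [Fintype V] (G : SimpleGraph V) (k : ℕ) (hk : 1 ≤ k)
    (hP : ¬ Pack G univ k) :
    ∃ s, s ≤ k * (2 * Nat.log 2 (Fintype.card V) + 3) ∧
    ∃ A B : Finset V, Disjoint A B ∧ A.card ≤ k - 1 ∧ A.card + B.card ≤ s + s * (k * (s + 1) ^ k) ∧
      Sparse G (univ \ (A ∪ B)) ∧
      (∀ b ∈ B, ∀ P ⊆ univ \ (A ∪ B), IsSub G P → dN G P b ≤ 1) ∧
      (∃ f : V → Fin k → Finset V, ∀ a ∈ A,
        (∀ i, f a i ⊆ univ \ (A ∪ B) ∧ IsSub G (f a i) ∧ 2 ≤ dN G (f a i) a) ∧
        ∀ i j, i ≠ j → Disjoint (f a i) (f a j)) := by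
  classical
  obtain ⟨X0, _, hX0c, hX0s⟩ := exists_hitting G (Fintype.card V) k univ
    (by rw [card_univ]) hP
  refine ⟨X0.card, hX0c, ?_⟩
  set s := X0.card with hs
  set W0 : Finset V := univ \ X0 with hW0
  have hex : ∀ x : V, ∃ Z ⊆ W0, ∃ m : ℕ, ∃ f : Fin m → Finset V, Z.card ≤ m ∧
      (∀ i, f i ⊆ W0 ∧ IsSub G (f i) ∧ 2 ≤ (f i ∩ W0.filter (fun u => G.Adj x u)).card) ∧
      (∀ i j, i ≠ j → Disjoint (f i) (f j)) ∧
      ∀ P ⊆ W0 \ Z, IsSub G P → (P ∩ W0.filter (fun u => G.Adj x u)).card ≤ 1 :=
    fun x => exists_loops W0.card W0 rfl hX0s _ (filter_subset _ _)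
  choose Z hZW m f hZm hf hfd hZP using hex
  have hf' : ∀ x i, f x i ⊆ W0 ∧ IsSub G (f x i) ∧ 2 ≤ dN G (f x i) x := by
    intro x i
    refine ⟨(hf x i).1, (hf x i).2.1, ?_⟩
    rw [dN_eq_inter_card (hf x i).1]
    exact (hf x i).2.2
  set N : ℕ → ℕ := fun j => k * (s + 1) ^ j with hN
  set A : ℕ → Finset V := fun j => X0.filter (fun x => N j ≤ m x) with hA
  have hNmono : ∀ j, N j ≤ N (j + 1) := by
    intro j
    simp only [hN]
    apply Nat.mul_le_mul_left
    exact Nat.pow_le_pow_right (by omega) (by omega)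
  have hAmono : ∀ j, A (j + 1) ⊆ A j := by
    intro j x hx
    simp only [hA, mem_filter] at hx ⊢
    exact ⟨hx.1, (hNmono j).trans hx.2⟩
  have hA0 : (A 0).card ≤ k - 1 := by
    by_contra hcon
    push Not at hcon
    obtain ⟨A', hA', hA'c⟩ := exists_subset_card_eq (show k ≤ (A 0).card by omega)
    have hdis : Disjoint A' W0 := by
      rw [disjoint_left]
      intro z hz hz'
      have h1 := hA' hz
      simp only [hA, mem_filter] at h1
      rw [hW0, mem_sdiff] at hz'
      exact hz'.2 h1.1
    obtain ⟨Y, hY, hYd⟩ := pack_loops (G := G) hX0s A' hdis m f (fun x _ i => hf' x i)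
      (fun x _ => hfd x) (by
        intro x hx
        have h1 := hA' hx
        simp only [hA, hN, mem_filter, pow_zero, mul_one] at h1
        omega)
    have := pack_of_loops A' hdis Y hY hYd
    rw [hA'c] at this
    exact hP (this.mono (subset_univ _))
  obtain ⟨j, hjk, hj⟩ := stable_index k hk (fun j => (A j).card) hA0
    (fun j => card_le_card (hAmono j))
  have hAj : A (j + 1) = A j := eq_of_subset_of_card_le (hAmono j) (le_of_eq hj.symm)
  set Zs := (X0 \ A j).biUnion Z with hZs
  have hZsW : Zs ⊆ W0 := by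
    rw [hZs, biUnion_subset]
    intro x _
    exact hZW x
  have hAX : A j ⊆ X0 := filter_subset _ _
  have hZsc : Zs.card ≤ s * N j := by
    calc Zs.card ≤ ∑ x ∈ X0 \ A j, (Z x).card := card_biUnion_le
      _ ≤ ∑ x ∈ X0 \ A j, N j := by
        apply sum_le_sum
        intro x hx
        rw [mem_sdiff] at hx
        refine (hZm x).trans ?_
        by_contra hc
        apply hx.2
        simp only [hA, mem_filter]
        exact ⟨hx.1, by omega⟩
      _ ≤ s * N j := by
        rw [sum_const, smul_eq_mul]
        exact Nat.mul_le_mul_right _ (card_le_card sdiff_subset)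
  have hWeq : univ \ (A j ∪ ((X0 \ A j) ∪ Zs)) = W0 \ Zs := by
    ext z
    simp only [mem_sdiff, mem_univ, true_and, mem_union, hW0]
    constructor
    · intro h
      push Not at h
      refine ⟨fun hz => ?_, h.2.2⟩
      have := h.2.1 hz
      exact h.1 this
    · rintro ⟨h1, h2⟩ h
      rcases h with h | h | h
      · exact h1 (hAX h)
      · exact h1 h.1
      · exact h2 h
  refine ⟨A j, (X0 \ A j) ∪ Zs, ?_, ?_, ?_, ?_, ?_, ?_⟩
  · rw [disjoint_union_right]
    refine ⟨disjoint_sdiff, ?_⟩
    rw [disjoint_left]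
    intro z hz hz'
    have := hZsW hz'
    rw [hW0, mem_sdiff] at this
    exact this.2 (hAX hz)
  · exact (card_le_card (by
      have : ∀ i, A i ⊆ A 0 := by
        intro i
        induction i with
        | zero => exact subset_rfl
        | succ i ih => exact (hAmono i).trans ih
      exact this j)).trans hA0
  · have h1 : ((X0 \ A j) ∪ Zs).card ≤ (X0 \ A j).card + Zs.card := card_union_le _ _
    have h2 : (A j).card + (X0 \ A j).card = s := by
      rw [hs, card_sdiff_of_subset hAX]
      have := card_le_card hAX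
      omega
    have h3 : s * N j ≤ s * (k * (s + 1) ^ k) := by
      apply Nat.mul_le_mul_left
      simp only [hN]
      apply Nat.mul_le_mul_left
      exact Nat.pow_le_pow_right (by omega) (by omega)
    omega
  · rw [hWeq]
    exact hX0s.mono G sdiff_subset
  · rw [hWeq]
    intro b hb P hPW hPs
    rw [mem_union] at hb
    rcases hb with hb | hb
    · rw [mem_sdiff] at hb
      have hbX : b ∈ X0 \ A j := mem_sdiff.mpr hb
      have hPW' : P ⊆ W0 \ Z b := by
        intro z hz
        have := hPW hz
        rw [mem_sdiff] at this ⊢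
        refine ⟨this.1, fun h => this.2 ?_⟩
        rw [hZs, mem_biUnion]
        exact ⟨b, hbX, h⟩
      rw [dN_eq_inter_card (hPW.trans sdiff_subset)]
      exact hZP b P hPW' hPs
    · refine hPs.dN_le_one hX0s (hPW.trans sdiff_subset) (hZsW hb) ?_
      intro h
      exact (mem_sdiff.mp (hPW h)).2 hb
  · -- loops avoiding Zs
    have hex2 : ∀ a : V, ∃ f' : Fin k → Finset V, a ∈ A j →
        (∀ i, f' i ⊆ W0 \ Zs ∧ IsSub G (f' i) ∧ 2 ≤ dN G (f' i) a) ∧
        ∀ i i', i ≠ i' → Disjoint (f' i) (f' i') := by
      intro a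
      by_cases ha : a ∈ A j
      swap
      · exact ⟨fun _ => ∅, fun h => absurd h ha⟩
      have ham : N (j + 1) ≤ m a := by
        rw [← hAj] at ha
        simp only [hA, mem_filter] at ha
        exact ha.2
      -- bad indices
      set bad := (univ : Finset (Fin (m a))).filter (fun i => ¬ Disjoint (f a i) Zs) with hbad
      have hbadc : bad.card ≤ Zs.card := by
        have hsel : ∀ i ∈ bad, ∃ z, z ∈ f a i ∧ z ∈ Zs := by
          intro i hi
          rw [hbad, mem_filter] at hi
          exact not_disjoint_iff.mp hi.2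
        haveI : Nonempty V := ⟨a⟩
        choose! g hg1 hg2 using hsel
        apply card_le_card_of_injOn g
        · intro i hi
          exact hg2 i hi
        · intro i hi i' hi' hgg
          by_contra hne
          have := hfd a i i' hne
          rw [disjoint_left] at this
          exact this (hg1 i hi) (hgg ▸ hg1 i' hi')
      have hgood : k ≤ (univ \ bad : Finset (Fin (m a))).card := by
        rw [card_sdiff_of_subset (subset_univ _), card_univ, Fintype.card_fin]
        have h1 : k + s * N j ≤ N (j + 1) := by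
          simp only [hN]
          have h2 : 1 ≤ (s + 1) ^ j := Nat.one_le_pow _ _ (by omega)
          calc k + s * (k * (s + 1) ^ j) ≤ k * (s + 1) ^ j + s * (k * (s + 1) ^ j) := by
                have := Nat.mul_le_mul_left k h2
                omega
            _ = k * (s + 1) ^ (j + 1) := by ring
        omega
      obtain ⟨gd, hgd, hgdc⟩ := exists_subset_card_eq hgood
      have e := gd.equivFinOfCardEq hgdc
      refine ⟨fun i => f a (e.symm i), fun _ => ⟨?_, ?_⟩⟩
      · intro i
        have h1 : (e.symm i : Fin (m a)) ∈ univ \ bad := hgd (e.symm i).2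
        rw [mem_sdiff, hbad, mem_filter] at h1
        have h2 : Disjoint (f a (e.symm i)) Zs := by
          by_contra h
          exact h1.2 ⟨mem_univ _, h⟩
        refine ⟨?_, (hf' a _).2⟩
        intro z hz
        rw [mem_sdiff]
        exact ⟨(hf' a _).1 hz, disjoint_left.mp h2 hz⟩
      · intro i i' hne
        apply hfd a
        intro h
        exact hne (e.symm.injective (Subtype.ext h))
    choose f' hf'' using hex2
    rw [hWeq]
    exact ⟨f', hf''⟩

end

end Pool.Agent.H38
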