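import Pool.Agent.H38.Agg

set_option autoImplicit false
set_option linter.unusedSectionVars false
set_option linter.unusedSimpArgs false
set_option linter.unusedVariables false

namespace Pool.Agent.H38

open Finset

/-- knapsack value -/
def phi (K m j : ℕ) : ℕ := (K - 1) * (j / (K * m + 1)) + ((j % (K * m + 1) - 1) / m - 1)

lemma phi_zero (K m : ℕ) : phi K m 0 = 0 := by
  simp [phi]

lemma phi_split (K m t r : ℕ) (hr : r < K * m + 1) :
    phi K m ((K * m + 1) * t + r) = (K - 1) * t + ((r - 1) / m - 1) := by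
  unfold phi
  rw [Nat.mul_add_div (by omega), Nat.div_eq_of_lt hr, Nat.mul_add_mod, Nat.mod_eq_of_lt hr,
    Nat.add_zero]

lemma phi_succ (K m j : ℕ) (hK : 1 ≤ K) : phi K m j ≤ phi K m (j + 1) := by
  obtain ⟨t, r, hr, rfl⟩ : ∃ t r, r < K * m + 1 ∧ j = (K * m + 1) * t + r :=
    ⟨j / (K * m + 1), j % (K * m + 1), Nat.mod_lt _ (by omega), (Nat.div_add_mod _ _).symm⟩
  rw [phi_split K m t r hr]
  by_cases h : r + 1 < K * m + 1
  · rw [add_assoc, phi_split K m t (r + 1) h]
    have : (r - 1) / m ≤ (r + 1 - 1) / m := Nat.div_le_div_right (by omega)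
    omega
  · have hr' : r = K * m := by omega
    have : (K * m + 1) * t + r + 1 = (K * m + 1) * (t + 1) + 0 := by rw [hr']; ring
    rw [this, phi_split K m (t + 1) 0 (by omega)]
    have h1 : (r - 1) / m ≤ K := by
      rw [hr']
      rcases Nat.eq_zero_or_pos m with hm | hm
      · simp [hm]
      · calc (K * m - 1) / m ≤ (K * m) / m := Nat.div_le_div_right (by omega)
          _ = K := Nat.mul_div_cancel _ hm
    have h2 : (K - 1) * (t + 1) = (K - 1) * t + (K - 1) := by ring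
    rw [h2]
    omega

lemma phi_mono (K m : ℕ) (hK : 1 ≤ K) : Monotone (phi K m) :=
  monotone_nat_of_le_succ (fun j => phi_succ K m j hK)

lemma phi_step (K m j σ L : ℕ) (hK : 1 ≤ K) (hL : L ≤ K) (h : 2 ≤ L → m * L + 1 ≤ σ) :
    phi K m j + (L - 1) ≤ phi K m (j + σ) := by
  by_cases hL2 : 2 ≤ L
  swap
  · have := phi_mono K m hK (show j ≤ j + σ by omega)
    omega
  · refine le_trans ?_ (phi_mono K m hK (show j + (m * L + 1) ≤ j + σ from
      Nat.add_le_add_left (h hL2) j))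
    obtain ⟨t, r, hr, rfl⟩ : ∃ t r, r < K * m + 1 ∧ j = (K * m + 1) * t + r :=
      ⟨j / (K * m + 1), j % (K * m + 1), Nat.mod_lt _ (by omega), (Nat.div_add_mod _ _).symm⟩
    rw [phi_split K m t r hr]
    by_cases hc : r + (m * L + 1) < K * m + 1
    · rw [add_assoc ((K * m + 1) * t), phi_split K m t _ hc]
      rcases Nat.eq_zero_or_pos m with hm | hm
      · subst hm; omega
      · have e1 : (r + (m * L + 1) - 1) / m = r / m + L := by
          rw [show r + (m * L + 1) - 1 = r + m * L by omega, Nat.add_mul_div_left _ _ hm]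
        have e2 : (r - 1) / m ≤ r / m := Nat.div_le_div_right (by omega)
        rw [e1]
        generalize (r - 1) / m = a at *
        generalize r / m = b at *
        omega
    · obtain ⟨u, rfl⟩ : ∃ u, K = L + u := ⟨K - L, by omega⟩
      obtain ⟨r', hr'⟩ : ∃ r', r = r' + u * m := by
        refine ⟨r - u * m, ?_⟩
        have : (L + u) * m = m * L + u * m := by ring
        omega
      subst hr'
      have e1 : ((L + u) * m + 1) * t + (r' + u * m) + (m * L + 1) =
          ((L + u) * m + 1) * (t + 1) + r' := by ring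
      rw [e1, phi_split (L + u) m (t + 1) r' (by omega)]
      have e2 : (L + u - 1) * (t + 1) = (L + u - 1) * t + (L + u - 1) := by ring
      rw [e2]
      rcases Nat.eq_zero_or_pos m with hm | hm
      · subst hm; simp; omega
      · rcases Nat.eq_zero_or_pos r' with h0 | h0
        · subst h0
          have e3 : (0 + u * m - 1) / m ≤ u := by
            calc (0 + u * m - 1) / m ≤ (u * m) / m := Nat.div_le_div_right (by omega)
              _ = u := Nat.mul_div_cancel _ hm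
          omega
        · have e3 : (r' + u * m - 1) / m = (r' - 1) / m + u := by
            rw [show r' + u * m - 1 = (r' - 1) + u * m by omega, Nat.add_mul_div_right _ _ hm]
          rw [e3]
          omega

lemma phi_sum {ι : Type*} [DecidableEq ι] (K m : ℕ) (hK : 1 ≤ K) (s : Finset ι) (σ L : ι → ℕ)
    (h1 : ∀ i ∈ s, L i ≤ K) (h2 : ∀ i ∈ s, 2 ≤ L i → m * L i + 1 ≤ σ i) :
    ∑ i ∈ s, L i ≤ s.card + phi K m (∑ i ∈ s, σ i) := by
  induction s using Finset.induction_on with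
  | empty => simp
  | insert a s ha ih =>
    rw [sum_insert ha, sum_insert ha, card_insert_of_notMem ha]
    have h3 := ih (fun i hi => h1 i (mem_insert_of_mem hi)) (fun i hi => h2 i (mem_insert_of_mem hi))
    have h4 := phi_step K m (∑ i ∈ s, σ i) (σ a) (L a) hK (h1 a (mem_insert_self _ _))
      (h2 a (mem_insert_self _ _))
    rw [add_comm (σ a)]
    omega

section
variable {V : Type*} [DecidableEq V] [Fintype V] {G : SimpleGraph V}

lemma IsSub.subset_of_closed {P T : Finset V} (h : IsSub G P) (hs : Sparse G P)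
    (hT : ∀ u ∈ P, u ∈ T → ∀ w ∈ P, G.Adj u w → w ∈ T) (hne : (P ∩ T).Nonempty) : P ⊆ T := by
  classical
  by_contra hcon
  have hne2 : (P \ T).Nonempty := by
    rw [sdiff_nonempty]; exact hcon
  have hdis : Disjoint (P ∩ T) (P \ T) := by
    rw [disjoint_left]
    intro z hz hz'
    exact (mem_sdiff.mp hz').2 (mem_inter.mp hz).2
  have hun : (P ∩ T) ∪ (P \ T) = P := by
    ext z; simp only [mem_union, mem_inter, mem_sdiff]; tauto
  have h1 := eI_union_disjoint (G := G) hdis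
  rw [hun] at h1
  have h2 : ∑ z ∈ P ∩ T, dN G (P \ T) z = 0 := by
    apply sum_eq_zero
    intro z hz
    rw [mem_inter] at hz
    unfold dN
    rw [card_eq_zero, filter_eq_empty_iff]
    intro w hw hadj
    rw [mem_sdiff] at hw
    exact hw.2 (hT z hz.1 hz.2 w hw.1 hadj)
  have h3 := hs (P ∩ T) inter_subset_left hne
  have h4 := hs (P \ T) sdiff_subset hne2
  have h5 := card_union_of_disjoint hdis
  rw [hun] at h5
  have := h.2
  omega

/-- data of many identical tight components -/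
structure TD (G : SimpleGraph V) (k m : ℕ) (S : Finset V) (𝒯 : Finset (Finset V)) : Prop where
  hk : 2 ≤ k
  hg : ∀ U : Finset V, U.card < 4 * m + 3 → ¬ Dense G U
  hP : ¬ Pack G univ k
  hS : S.card = 2 * k - 1
  hT : 2 * k + 1 ≤ 𝒯.card
  sub : ∀ C ∈ 𝒯, IsSub G C
  sp : ∀ C ∈ 𝒯, Sparse G C
  disj : ∀ C ∈ 𝒯, Disjoint C S
  card : ∀ C ∈ 𝒯, C.card = (2 * k - 1) * m + 1
  one : ∀ C ∈ 𝒯, ∀ x ∈ S, dN G C x = 1
  closed : ∀ C ∈ 𝒯, ∀ u ∈ C, ∀ w, w ∉ C → G.Adj u w → w ∈ S
  far : ∀ C ∈ 𝒯, ∀ x ∈ S, ∀ y ∈ S, x ≠ y → ∀ p ∈ C, ∀ q ∈ C, G.Adj x p → G.Adj y q →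
          ∀ P ⊆ C, IsSub G P → p ∈ P → q ∈ P → 2 * m + 1 ≤ P.card
  pd : ∀ C ∈ 𝒯, ∀ C' ∈ 𝒯, C ≠ C' → Disjoint C C'

lemma TD.pack_rest {k m : ℕ} {S : Finset V} {𝒯 : Finset (Finset V)} (h : TD G k m S 𝒯)
    {R : Finset V} (hR : R ⊆ S) (hRc : 2 * (k - 1) ≤ R.card) :
    Pack G (R ∪ 𝒯.biUnion id) (k - 1) := by
  have hT := h.hT
  apply pack_pairs _ _ _ hRc (by omega)
  · intro T hT
    exact ⟨h.sub T hT, (h.disj T hT).mono_right hR, fun x hx => by rw [h.one T hT x (hR hx)]⟩
  · exact h.pd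

lemma TD.no_dense {k m : ℕ} {S : Finset V} {𝒯 : Finset (Finset V)} (h : TD G k m S 𝒯)
    {R D : Finset V} (hR : R ⊆ S) (hRc : 2 * (k - 1) ≤ R.card) (hD : Dense G D)
    (hDR : Disjoint D R) (hDT : ∀ C ∈ 𝒯, Disjoint D C) : False := by
  have hk := h.hk
  have h1 := h.pack_rest hR hRc
  have h2 : Pack G D 1 := Pack.one subset_rfl hD
  have hdd : Disjoint (R ∪ 𝒯.biUnion id) D := by
    rw [disjoint_left]
    intro z hz hz'
    rw [mem_union, mem_biUnion] at hz
    rcases hz with hz | ⟨C, hC, hz⟩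
    · exact disjoint_left.mp hDR hz' hz
    · exact disjoint_left.mp (hDT C hC) hz' hz
  have := (h1.add h2 hdd).mono (subset_univ _)
  rw [show k - 1 + 1 = k by omega] at this
  exact h.hP this

lemma TD.sparse {k m : ℕ} {S : Finset V} {𝒯 : Finset (Finset V)} (h : TD G k m S 𝒯) :
    Sparse G (univ \ S) := by
  classical
  rw [sparse_iff_no_dense]
  intro U hU hUd
  obtain ⟨D, hDU, hDg⟩ := hUd.exists_good
  have hk := h.hk
  refine h.no_dense (R := S) subset_rfl (by rw [h.hS]; omega) hDg.dense ?_ ?_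
  · rw [disjoint_left]
    intro z hz hzS
    exact (mem_sdiff.mp (hU (hDU hz))).2 hzS
  · intro C hC
    by_contra hcon
    rw [not_disjoint_iff] at hcon
    obtain ⟨z, hzD, hzC⟩ := hcon
    have hg : Good G (D ∩ C) := by
      refine ⟨⟨z, mem_inter.mpr ⟨hzD, hzC⟩⟩, ?_⟩
      intro v hv
      rw [mem_inter] at hv
      refine (hDg.2 v hv.1).trans ?_
      unfold dN
      apply card_le_card
      intro w hw
      rw [mem_filter] at hw ⊢
      refine ⟨mem_inter.mpr ⟨hw.1, ?_⟩, hw.2⟩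
      by_contra hwC
      have := h.closed C hC v hv.2 w hwC hw.2
      exact (mem_sdiff.mp (hU (hDU hw.1))).2 this
    have h1 := hg.dense.2
    have h2 := h.sp C hC _ inter_subset_right hg.1
    omega

lemma TD.mem_comps {k m : ℕ} {S : Finset V} {𝒯 : Finset (Finset V)} (h : TD G k m S 𝒯)
    {C : Finset V} (hC : C ∈ 𝒯) : C ∈ comps G (univ \ S) := by
  obtain ⟨z, hz⟩ := (h.sub C hC).1
  have hCW : C ⊆ univ \ S := by
    intro w hw
    rw [mem_sdiff]
    exact ⟨mem_univ _, disjoint_left.mp (h.disj C hC) hw⟩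
  rw [Pool.Agent.H38.mem_comps]
  refine ⟨z, hCW hz, ?_⟩
  apply Subset.antisymm
  · have hcs := isSub_comp h.sparse (hCW hz)
    apply hcs.subset_of_closed
    · exact h.sparse.mono G (comp_subset _ _)
    · intro u hu huC w hw hadj
      by_contra hwC
      have := h.closed C hC u huC w hwC hadj
      exact (mem_sdiff.mp (comp_subset _ _ hw)).2 this
    · exact ⟨z, mem_inter.mpr ⟨mem_comp_self (hCW hz), hz⟩⟩
  · exact isSub_subset_comp hCW (h.sub C hC) hz

lemma TD.dN_le_one {k m : ℕ} {S : Finset V} {𝒯 : Finset (Finset V)} (h : TD G k m S 𝒯)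
    {C : Finset V} (hC : C ∈ comps G (univ \ S)) {x : V} (hx : x ∈ S) : dN G C x ≤ 1 := by
  by_contra hcon
  push Not at hcon
  have hk := h.hk
  obtain ⟨c1, c2, c3, c4⟩ := comps_spec h.sparse hC
  have hxC : x ∉ C := fun h' => (mem_sdiff.mp (c1 h')).2 hx
  refine h.no_dense (R := S.erase x) (erase_subset _ _) ?_ (c2.dense_insert hxC (by omega)) ?_ ?_
  · rw [card_erase_of_mem hx, h.hS]; omega
  · rw [disjoint_left]
    intro z hz hz'
    rw [mem_insert] at hz
    rw [mem_erase] at hz'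
    rcases hz with rfl | hz
    · exact hz'.1 rfl
    · exact (mem_sdiff.mp (c1 hz)).2 hz'.2
  · intro T hT
    have hne : T ≠ C := by
      rintro rfl
      rw [h.one T hT x hx] at hcon
      omega
    rw [disjoint_insert_left]
    refine ⟨fun hxT => disjoint_left.mp (h.disj T hT) hxT hx, ?_⟩
    exact comps_disjoint h.sparse hC (h.mem_comps hT) (Ne.symm hne)

lemma exists_label {C : Finset V} {x : V} (h : 1 ≤ dN G C x) : ∃ p ∈ C, G.Adj x p := by
  classical
  unfold dN at h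
  obtain ⟨p, hp⟩ := card_pos.mp (show 0 < _ from h)
  rw [mem_filter] at hp
  exact ⟨p, hp⟩

lemma label_unique {C : Finset V} {x p p' : V} (h : dN G C x ≤ 1) (hp : p ∈ C) (hp' : p' ∈ C)
    (h1 : G.Adj x p) (h2 : G.Adj x p') : p = p' := by
  by_contra hne
  have := two_le_dN_of_adj G hne hp hp' h1 h2
  omega

/-- in a tight component all label distances are exactly `2m` -/
lemma TD.exact {k m : ℕ} {S : Finset V} {𝒯 : Finset (Finset V)} (h : TD G k m S 𝒯)
    {T : Finset V} (hT : T ∈ 𝒯) {x y : V} (hx : x ∈ S) (hy : y ∈ S) (hxy : x ≠ y) :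
    ∃ P ⊆ T, IsSub G P ∧ P.card = 2 * m + 1 ∧ (∃ p ∈ P, G.Adj x p) ∧ (∃ q ∈ P, G.Adj y q) := by
  classical
  have hk := h.hk
  have hsp := h.sp T hT
  have hsub := h.sub T hT
  obtain ⟨p, hp, hxp⟩ := exists_label (G := G) (C := T) (x := x) (by rw [h.one T hT x hx])
  obtain ⟨q, hq, hyq⟩ := exists_label (G := G) (C := T) (x := y) (by rw [h.one T hT y hy])
  have hfar : ∀ a ∈ S, ∀ b ∈ S, a ≠ b → ∀ u ∈ T, ∀ v ∈ T, G.Adj a u → G.Adj b v →
      2 * m ≤ dd G T u v := by
    intro a ha b hb hab u hu v hv hau hbv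
    obtain ⟨P, hPT, hPs, huP, hvP, hPc⟩ := dd_spec hsp subset_rfl hsub hu hv
    have := h.far T hT a ha b hb hab u hu v hv hau hbv P hPT hPs huP hvP
    omega
  have huniq : ∀ a ∈ S, ∀ u ∈ T, ∀ v ∈ T, G.Adj a u → G.Adj a v → u = v := by
    intro a ha u hu v hv h1 h2
    exact label_unique (le_of_eq (h.one T hT a ha)) hu hv h1 h2
  set Λ : V → Finset V := fun z => T.filter (fun u => G.Adj z u) with hΛ
  have hΛm : ∀ z u, u ∈ Λ z ↔ u ∈ T ∧ G.Adj z u := by
    intro z u; simp only [hΛ, mem_filter]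
  have hΛc : ∀ z ∈ S, (Λ z ∩ T).card = 1 := by
    intro z hz
    rw [← h.one T hT z hz]
    unfold dN
    congr 1
    ext u
    simp only [hΛ, mem_inter, mem_filter]
    tauto
  set N := S.erase x with hN
  have hyN : y ∈ N := by rw [hN, mem_erase]; exact ⟨hxy.symm, hy⟩
  -- minimal distance
  have hne : (N.biUnion Λ).Nonempty := ⟨q, by
    rw [mem_biUnion]; exact ⟨y, hyN, (hΛm y q).mpr ⟨hq, hyq⟩⟩⟩
  obtain ⟨w, hw, hwmin⟩ := exists_min_image _ (fun w => dd G T p w) hne
  rw [mem_biUnion] at hw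
  obtain ⟨z, hz, hwz⟩ := hw
  have PL := potential hsp m 2 N {y} (by simpa using hyN) Λ (Or.inl (by simp)) T.card T rfl
    subset_rfl hsub
    (by
      intro a ha b hb hab u hu v hv _ _
      rw [hN, mem_erase] at ha hb
      rw [hΛm] at hu hv
      exact hfar a ha.2 b hb.2 hab u hu.1 v hv.1 hu.2 hv.2)
    (by
      intro a ha u hu v hv huv
      rw [hN, mem_erase] at ha
      rw [hΛm] at hu hv
      exact absurd (huniq a ha.2 u hu.1 v hv.1 hu.2 hv.2) huv)
    (by
      intro a ha u hu v hv huv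
      rw [mem_singleton] at ha
      subst ha
      rw [hΛm] at hu hv
      exact absurd (huniq a hy u hu.1 v hv.1 hu.2 hv.2) huv)
    p hp (dd G T p w) ⟨z, hz, w, hwz, ((hΛm z w).mp hwz).1, rfl⟩
    (by
      intro a ha u hu _
      exact hwmin u (mem_biUnion.mpr ⟨a, ha, hu⟩))
  have hsumN : ∑ a ∈ N, (Λ a ∩ T).card = 2 * k - 2 := by
    rw [sum_congr rfl (fun a ha => hΛc a (mem_of_mem_erase ha)), sum_const, smul_eq_mul,
      mul_one, card_erase_of_mem hx, h.hS]
    omega
  have hsing : Λ y ∩ T = {q} := by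
    ext u
    rw [mem_inter, hΛm, mem_singleton]
    constructor
    · rintro ⟨⟨h1, h2⟩, _⟩
      exact huniq y hy u h1 q hq h2 hyq
    · rintro rfl
      exact ⟨⟨hq, hyq⟩, hq⟩
  rw [hsumN, sum_singleton, sum_singleton, hΛc y hy, hsing, sup_singleton, h.card T hT] at PL
  have hδ : 2 * m ≤ dd G T p w := by
    rw [hN, mem_erase] at hz
    rw [hΛm] at hwz
    exact hfar x hx z hz.2 (Ne.symm hz.1) p hp w hwz.1 hxp hwz.2
  have hmin := hwmin q (mem_biUnion.mpr ⟨y, hyN, (hΛm y q).mpr ⟨hq, hyq⟩⟩)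
  have hpq := hfar x hx y hy hxy p hp q hq hxp hyq
  have hfin : dd G T p q = 2 * m := by
    obtain ⟨κ, rfl⟩ : ∃ κ, k = κ + 2 := ⟨k - 2, by omega⟩
    have e1 : 2 * (κ + 2) - 1 = 2 * κ + 3 := by omega
    have e2 : 2 * (κ + 2) - 2 = 2 * κ + 2 := by omega
    rw [e1, e2] at PL
    have e3 : 2 * m * (2 * κ + 2) = 4 * (κ * m) + 4 * m := by ring
    have e4 : (2 * κ + 3) * m = 2 * (κ * m) + 3 * m := by ring
    rw [e3, e4] at PL
    omega
  obtain ⟨P, hPT, hPs, hpP, hqP, hPc⟩ := dd_spec hsp subset_rfl hsub hp hq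
  exact ⟨P, hPT, hPs, by rw [hPc, hfin], ⟨p, hpP, hxp⟩, ⟨q, hqP, hyq⟩⟩

lemma TD.indep {k m : ℕ} {S : Finset V} {𝒯 : Finset (Finset V)} (h : TD G k m S 𝒯)
    (hg2 : ∀ U : Finset V, U.card < 2 * m + 4 → ¬ Dense G U) :
    eI G S = 0 := by
  classical
  have h1 := sum_dN G S
  have h2 : ∑ v ∈ S, dN G S v = 0 := by
    apply sum_eq_zero
    intro x hx
    unfold dN
    rw [card_eq_zero, filter_eq_empty_iff]
    intro y hy hxy
    have hk := h.hk
    have hTc := h.hT
    obtain ⟨T, hT⟩ := card_pos.mp (show 0 < 𝒯.card by omega)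
    obtain ⟨P, hPT, hPs, hPc, ⟨p, hp, hxp⟩, ⟨q, hq, hyq⟩⟩ := h.exact hT hx hy hxy.ne
    have hyP : y ∉ P := fun h' => disjoint_left.mp (h.disj T hT) (hPT h') hy
    have hxP : x ∉ P := fun h' => disjoint_left.mp (h.disj T hT) (hPT h') hx
    have hs := hPs.insert_of_adj hq hyP hyq
    have hx' : x ∉ insert y P := by
      rw [mem_insert]
      rintro (h' | h')
      · exact hxy.ne h'
      · exact hxP h'
    have hd : 2 ≤ dN G (insert y P) x :=
      two_le_dN_of_adj G (show y ≠ p from fun h' => hyP (h' ▸ hp)) (mem_insert_self _ _)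
        (mem_insert_of_mem hp) hxy hxp
    refine hg2 _ ?_ (hs.dense_insert hx' hd)
    rw [card_insert_of_notMem hx', card_insert_of_notMem hyP, hPc]
    omega
  omega

lemma TD.comp_card {k m : ℕ} {S : Finset V} {𝒯 : Finset (Finset V)} (h : TD G k m S 𝒯)
    (hg4 : ∀ U : Finset V, U.card < 4 * (m + 1) → ¬ Dense G U)
    {C : Finset V} (hC : C ∈ comps G (univ \ S)) (hL : 2 ≤ ∑ x ∈ S, dN G C x) :
    m * (∑ x ∈ S, dN G C x) + 1 ≤ C.card := by
  classical
  obtain ⟨c1, c2, c3, c4⟩ := comps_spec h.sparse hC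
  set Λ : V → Finset V := fun z => C.filter (fun u => G.Adj z u) with hΛ
  have hΛm : ∀ z u, u ∈ Λ z ↔ u ∈ C ∧ G.Adj z u := by
    intro z u; simp only [hΛ, mem_filter]
  have hΛc : ∀ z, (Λ z ∩ C).card = dN G C z := by
    intro z
    unfold dN
    congr 1
    ext u
    simp only [hΛ, mem_inter, mem_filter]
    tauto
  have hfar : ∀ x ∈ S, ∀ y ∈ S, x ≠ y → ∀ p ∈ Λ x, ∀ q ∈ Λ y, p ∈ C → q ∈ C →
      2 * m ≤ dd G (univ \ S) p q := by
    intro x hx y hy hxy p hp q hq hpC hqC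
    rw [hΛm] at hp hq
    by_contra hcon
    push Not at hcon
    obtain ⟨P, hPC, hPs, hpP, hqP, hPc⟩ := dd_spec h.sparse c1 c2 hpC hqC
    have hTc := h.hT
    have hk := h.hk
    have : (1 : ℕ) ≤ (𝒯.erase C).card := by
      have := pred_card_le_card_erase (s := 𝒯) (a := C)
      omega
    obtain ⟨T, hTe⟩ := card_pos.mp (show 0 < (𝒯.erase C).card from this)
    rw [mem_erase] at hTe
    obtain ⟨hTC, hT⟩ := hTe
    obtain ⟨P', hPT', hPs', hPc', ⟨p', hp', hxp'⟩, ⟨q', hq', hyq'⟩⟩ := h.exact hT hx hy hxy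
    have hdis : Disjoint P P' :=
      (comps_disjoint h.sparse hC (h.mem_comps hT) (Ne.symm hTC)).mono hPC hPT'
    have hxP : x ∉ P := fun h' => (mem_sdiff.mp (c1 (hPC h'))).2 hx
    have hyP : y ∉ P := fun h' => (mem_sdiff.mp (c1 (hPC h'))).2 hy
    have hxP' : x ∉ P' := fun h' => disjoint_left.mp (h.disj T hT) (hPT' h') hx
    have hyP' : y ∉ P' := fun h' => disjoint_left.mp (h.disj T hT) (hPT' h') hy
    refine hg4 _ ?_ (pair_dense hPs hPs' hdis hxy hxP hxP' hyP hyP'
      (one_le_dN_of_adj G hqP hq.2) (one_le_dN_of_adj G hq' hyq')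
      (one_le_dN_of_adj G hpP hp.2) (one_le_dN_of_adj G hp' hxp'))
    have h1 := card_insert_le x (insert y (P ∪ P'))
    have h2 := card_insert_le y (P ∪ P')
    have h3 := card_union_le P P'
    omega
  have hsum : ∑ x ∈ S, dN G C x = ∑ x ∈ S, (Λ x ∩ C).card :=
    sum_congr rfl (fun x _ => (hΛc x).symm)
  rw [hsum] at hL ⊢
  apply basic_bound h.sparse m S Λ c1 c2 hfar _ hL
  intro x hx p hp q hq hpq _ _
  rw [hΛm] at hp hq
  exact absurd (label_unique (h.dN_le_one hC hx) hp.1 hq.1 hp.2 hq.2) hpq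

/-- exact upper bound in the presence of tight data -/
theorem TD.bound {k m : ℕ} {S : Finset V} {𝒯 : Finset (Finset V)} (h : TD G k m S 𝒯)
    (hg4 : ∀ U : Finset V, U.card < 4 * (m + 1) → ¬ Dense G U) :
    eI G univ ≤ (Fintype.card V - (2 * k - 1)) +
      phi (2 * k - 1) m (Fintype.card V - (2 * k - 1)) := by
  classical
  have hk := h.hk
  have hSW : S ∪ (univ \ S) = univ := by rw [union_sdiff_of_subset (subset_univ _)]
  have h1 := eI_univ_split (G := G) (X := S) (W := univ \ S) disjoint_sdiff h.sparse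
  rw [hSW, h.indep (fun U hU => hg4 U (by omega))] at h1
  have hWc : (univ \ S : Finset V).card = Fintype.card V - (2 * k - 1) := by
    rw [card_sdiff_of_subset (subset_univ _), card_univ, h.hS]
  have h2 := phi_sum (2 * k - 1) m (by omega) (comps G (univ \ S)) (fun C => C.card)
    (fun C => ∑ x ∈ S, dN G C x)
    (by
      intro C hC
      calc ∑ x ∈ S, dN G C x ≤ ∑ x ∈ S, 1 := sum_le_sum (fun x hx => h.dN_le_one hC hx)
        _ = 2 * k - 1 := by rw [sum_const, smul_eq_mul, mul_one, h.hS])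
    (fun C hC hL => h.comp_card hg4 hC hL)
  rw [← card_comps h.sparse, hWc] at h2
  rw [hWc] at h1
  omega

end

end Pool.Agent.H38
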