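import Pool.Agent.H38.Upper

set_option autoImplicit false
set_option linter.unusedSectionVars false
set_option linter.unusedSimpArgs false
set_option linter.unusedVariables false

namespace Pool.Agent.H38

open Finset

/-- knapsack value for girth `4 m + 3` -/
def psi (k m N : ℕ) : ℕ :=
  (2 * k - 2) * ((N + (k - 1)) / ((2 * k - 1) * m + 1)) +
    (max (min k (((N + (k - 1)) % ((2 * k - 1) * m + 1)) / m))
      ((((N + (k - 1)) % ((2 * k - 1) * m + 1)) - 1) / m) - 1)

lemma psi_arith (k m N v J E : ℕ) (hk : 2 ≤ k) (hm : 1 ≤ m) (h1 : v ≤ (2 * k - 2) * J)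
    (h2 : v + (2 * k - 2) * E ≤ (2 * k - 1) * (k - 1) + (2 * k - 2) * J)
    (h3 : m * v + (m + 1) * J ≤ N + E) : v ≤ psi k m N := by
  unfold psi
  obtain ⟨κ, rfl⟩ : ∃ κ, k = κ + 1 := ⟨k - 1, by omega⟩
  have e1 : 2 * (κ + 1) - 2 = 2 * κ := by omega
  have e2 : 2 * (κ + 1) - 1 = 2 * κ + 1 := by omega
  have e3 : κ + 1 - 1 = κ := by omega
  rw [e1] at h1 h2 ⊢
  rw [e2, e3] at h2 ⊢
  set M := (2 * κ + 1) * m + 1 with hM
  set y := N + κ with hy
  obtain ⟨t', r', hr', hyt⟩ : ∃ t' r', r' < M ∧ y = M * t' + r' :=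
    ⟨y / M, y % M, Nat.mod_lt _ (by omega), (Nat.div_add_mod _ _).symm⟩
  have hdiv : y / M = t' := by
    rw [hyt, Nat.mul_add_div (by omega), Nat.div_eq_of_lt hr', Nat.add_zero]
  have hmod : y % M = r' := by
    rw [hyt, Nat.mul_add_mod, Nat.mod_eq_of_lt hr']
  rw [hdiv, hmod]
  have hκ : 1 ≤ κ := by omega
  obtain ⟨t, a, ha, hv⟩ : ∃ t a, a < 2 * κ ∧ v = 2 * κ * t + a :=
    ⟨v / (2 * κ), v % (2 * κ), Nat.mod_lt _ (by omega), (Nat.div_add_mod _ _).symm⟩
  -- t ≤ J
  have htJ : t ≤ J := by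
    by_contra hc
    push Not at hc
    have : 2 * κ * (J + 1) ≤ 2 * κ * t := Nat.mul_le_mul_left _ hc
    have h4 : 2 * κ * (J + 1) = 2 * κ * J + 2 * κ := by ring
    omega
  rcases Nat.eq_zero_or_pos a with ha0 | ha0
  · subst ha0
    obtain ⟨x, rfl⟩ : ∃ x, J = t + x := ⟨J - t, by omega⟩
    -- E ≤ κ + x
    have hE : E ≤ κ + x := by
      by_contra hc
      push Not at hc
      have h4 : 2 * κ * (κ + x + 1) ≤ 2 * κ * E := Nat.mul_le_mul_left _ hc
      have h5 : 2 * κ * (κ + x + 1) = (2 * κ + 1) * κ + 2 * κ * x + κ := by ring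
      have h6 : 2 * κ * (t + x) = 2 * κ * t + 2 * κ * x := by ring
      omega
    have hcost : M * t ≤ y := by
      have h4 : m * v + (m + 1) * (t + x) = M * t + (m + 1) * x := by
        rw [hv, hM]; ring
      rw [h4] at h3
      have h5 : x ≤ (m + 1) * x := Nat.le_mul_of_pos_left x (by omega)
      omega
    have htt : t ≤ t' := by
      by_contra hc
      push Not at hc
      have h4 : M * (t' + 1) ≤ M * t := Nat.mul_le_mul_left _ hc
      have h5 : M * (t' + 1) = M * t' + M := by ring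
      omega
    have h4 : 2 * κ * t ≤ 2 * κ * t' := Nat.mul_le_mul_left _ htt
    omega
  · -- a ≥ 1, so t + 1 ≤ J
    have htJ' : t + 1 ≤ J := by
      by_contra hc
      obtain rfl : J = t := by omega
      omega
    obtain ⟨x, rfl⟩ : ∃ x, J = t + 1 + x := ⟨J - (t + 1), by omega⟩
    have h6 : 2 * κ * (t + 1 + x) = 2 * κ * t + 2 * κ + 2 * κ * x := by ring
    have hE1 : E ≤ κ + 1 + x := by
      by_contra hc
      push Not at hc
      have h4 : 2 * κ * (κ + 1 + x + 1) ≤ 2 * κ * E := Nat.mul_le_mul_left _ hc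
      have h5 : 2 * κ * (κ + 1 + x + 1) = (2 * κ + 1) * κ + 2 * κ * x + 3 * κ := by ring
      omega
    have hE2 : κ + 1 ≤ a → E ≤ κ + x := by
      intro haκ
      by_contra hc
      push Not at hc
      have h4 : 2 * κ * (κ + x + 1) ≤ 2 * κ * E := Nat.mul_le_mul_left _ hc
      have h5 : 2 * κ * (κ + x + 1) = (2 * κ + 1) * κ + 2 * κ * x + κ := by ring
      omega
    have h4 : m * v + (m + 1) * (t + 1 + x) = M * t + m * (a + 1) + 1 + (m + 1) * x := by
      rw [hv, hM]; ring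
    rw [h4] at h3
    have h5 : x ≤ (m + 1) * x := Nat.le_mul_of_pos_left x (by omega)
    have hcost : M * t + m * (a + 1) ≤ y := by omega
    have hcost2 : κ + 1 ≤ a → M * t + m * (a + 1) + 1 ≤ y := by
      intro haκ
      have := hE2 haκ
      omega
    have htt : t ≤ t' := by
      by_contra hc
      push Not at hc
      have h7 : M * (t' + 1) ≤ M * t := Nat.mul_le_mul_left _ hc
      have h8 : M * (t' + 1) = M * t' + M := by ring
      omega
    rcases Nat.lt_or_ge t t' with hlt | hge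
    · have h7 : 2 * κ * (t + 1) ≤ 2 * κ * t' := Nat.mul_le_mul_left _ hlt
      have h8 : 2 * κ * (t + 1) = 2 * κ * t + 2 * κ := by ring
      omega
    · obtain rfl : t = t' := by omega
      by_cases haκ : κ + 1 ≤ a
      · have h7 := hcost2 haκ
        have h8 : a + 1 ≤ (r' - 1) / m := by
          rw [Nat.le_div_iff_mul_le (by omega), mul_comm]
          omega
        have h9 := le_max_right (min (κ + 1) (r' / m)) ((r' - 1) / m)
        generalize (r' - 1) / m = b1 at *
        generalize r' / m = b2 at *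
        omega
      · have h8 : a + 1 ≤ r' / m := by
          rw [Nat.le_div_iff_mul_le (by omega), mul_comm]
          omega
        have h9 := le_max_left (min (κ + 1) (r' / m)) ((r' - 1) / m)
        have h10 : a + 1 ≤ min (κ + 1) (r' / m) := le_min (by omega) h8
        generalize (r' - 1) / m = b1 at *
        generalize r' / m = b2 at *
        omega

lemma psi_sum {ι : Type*} [DecidableEq ι] (k m : ℕ) (hk : 2 ≤ k) (hm : 1 ≤ m) (s I : Finset ι)
    (σ L : ι → ℕ) (h1 : ∀ i ∈ s, L i ≤ 2 * k - 1)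
    (h2 : ∀ i ∈ s, 2 ≤ L i → m * L i + 1 ≤ σ i ∨ (m * L i ≤ σ i ∧ i ∈ I))
    (hI : ∑ i ∈ s.filter (fun i => 2 ≤ L i ∧ i ∈ I), (L i - 1) ≤ (2 * k - 1) * (k - 1)) :
    ∑ i ∈ s, L i ≤ s.card + psi k m (∑ i ∈ s, σ i) := by
  classical
  set s' := s.filter (fun i => 2 ≤ L i) with hs'
  set sI := s.filter (fun i => 2 ≤ L i ∧ i ∈ I) with hsI
  have hsIs : sI ⊆ s' := by
    intro i hi
    rw [hsI, mem_filter] at hi
    rw [hs', mem_filter]
    exact ⟨hi.1, hi.2.1⟩
  set v := ∑ i ∈ s', (L i - 1) with hv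
  set J := s'.card with hJ
  set E := sI.card with hE
  have hLv : ∑ i ∈ s, L i ≤ s.card + v := by
    rw [hv, card_eq_sum_ones, hs', sum_filter, ← sum_add_distrib]
    apply sum_le_sum
    intro i _
    split_ifs <;> omega
  refine hLv.trans (Nat.add_le_add_left ?_ _)
  apply psi_arith k m _ v J E hk hm
  · rw [hv, hJ]
    calc ∑ i ∈ s', (L i - 1) ≤ ∑ i ∈ s', (2 * k - 2) := by
          apply sum_le_sum
          intro i hi
          rw [hs', mem_filter] at hi
          have := h1 i hi.1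
          omega
      _ = (2 * k - 2) * s'.card := by rw [sum_const, smul_eq_mul, mul_comm]
  · have hsplit : ∑ i ∈ s' \ sI, (L i - 1) + ∑ i ∈ sI, (L i - 1) = v := sum_sdiff hsIs
    have h4 : ∑ i ∈ s' \ sI, (L i - 1) ≤ (2 * k - 2) * (s' \ sI).card := by
      calc ∑ i ∈ s' \ sI, (L i - 1) ≤ ∑ i ∈ s' \ sI, (2 * k - 2) := by
            apply sum_le_sum
            intro i hi
            rw [mem_sdiff, hs', mem_filter] at hi
            have := h1 i hi.1.1
            omega
        _ = (2 * k - 2) * (s' \ sI).card := by rw [sum_const, smul_eq_mul, mul_comm]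
    rw [card_sdiff_of_subset hsIs, ← hJ, ← hE] at h4
    have h5 : (2 * k - 2) * (J - E) + (2 * k - 2) * E = (2 * k - 2) * J := by
      rw [← mul_add, Nat.sub_add_cancel (card_le_card hsIs)]
    omega
  · have h4 : ∑ i ∈ s', (m * L i + 1) ≤ ∑ i ∈ s', (σ i + (if i ∈ I then 1 else 0)) := by
      apply sum_le_sum
      intro i hi
      rw [hs', mem_filter] at hi
      rcases h2 i hi.1 hi.2 with h | h
      · omega
      · rw [if_pos h.2]; omega
    have h5 : ∑ i ∈ s', (if i ∈ I then 1 else 0) = sI.card := by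
      rw [card_eq_sum_ones, hsI, hs', sum_filter, sum_filter]
      apply sum_congr rfl
      intro i _
      by_cases ha : 2 ≤ L i <;> by_cases hb : i ∈ I <;> simp [ha, hb]
    have h6 : ∑ i ∈ s', σ i ≤ ∑ i ∈ s, σ i :=
      sum_le_sum_of_subset (filter_subset _ _)
    have h7 : ∑ i ∈ s', (m * L i + 1) = m * v + (m + 1) * J := by
      rw [hv, hJ, mul_sum, card_eq_sum_ones, mul_sum, ← sum_add_distrib]
      apply sum_congr rfl
      intro i hi
      rw [hs', mem_filter] at hi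
      obtain ⟨z, hz⟩ : ∃ z, L i = z + 1 := ⟨L i - 1, by omega⟩
      rw [hz, Nat.add_sub_cancel]
      ring
    rw [h7, sum_add_distrib, h5] at h4
    omega

section
variable {V : Type*} [DecidableEq V] {G : SimpleGraph V}

/-- a set through which all cuts are crossed is connected -/
lemma isSub_of_expansion {H : SimpleGraph V} {N : Finset V} (hne : N.Nonempty)
    (h : ∀ N1 ⊆ N, N1.Nonempty → N1 ≠ N → ∃ u ∈ N1, ∃ w ∈ N, w ∉ N1 ∧ H.Adj u w) :
    IsSub H N := by
  classical
  obtain ⟨x, hx⟩ := hne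
  set S := N.powerset.filter (fun P => IsSub H P) with hS
  have hSne : S.Nonempty := ⟨{x}, by
    rw [hS, mem_filter, mem_powerset]
    exact ⟨by simpa using hx, isSub_singleton _⟩⟩
  obtain ⟨P, hP, hmax⟩ := exists_max_image S card hSne
  rw [hS, mem_filter, mem_powerset] at hP
  by_cases hPN : P = N
  · rw [← hPN]; exact hP.2
  · exfalso
    obtain ⟨u, hu, w, hw, hwP, hadj⟩ := h P hP.1 hP.2.1 hPN
    have h1 := hP.2.insert_of_adj hu hwP hadj.symm
    have h2 := hmax (insert w P) (by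
      rw [hS, mem_filter, mem_powerset]
      exact ⟨insert_subset hw hP.1, h1⟩)
    rw [card_insert_of_notMem hwP] at h2
    omega

lemma dd_triangle {W : Finset V} (hW : Sparse G W) {T : Finset V} (hT : T ⊆ W) (hs : IsSub G T)
    {p q v : V} (hp : p ∈ T) (hq : q ∈ T) (hv : v ∈ T) :
    dd G W p q ≤ dd G W p v + dd G W v q := by
  obtain ⟨P, hPT, hPs, hpP, hvP, hPc⟩ := dd_spec hW hT hs hp hv
  obtain ⟨Q, hQT, hQs, hvQ, hqQ, hQc⟩ := dd_spec hW hT hs hv hq
  have h1 := hPs.union hW (hPT.trans hT) hQs ⟨v, mem_inter.mpr ⟨hvP, hvQ⟩⟩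
  have h2 := dd_le (G := G) (union_subset (hPT.trans hT) (hQT.trans hT)) h1
    (mem_union_left _ hpP) (mem_union_right _ hqQ)
  have h3 := card_union_add_card_inter P Q
  have h4 : 0 < (P ∩ Q).card := card_pos.mpr ⟨v, mem_inter.mpr ⟨hvP, hvQ⟩⟩
  omega

variable [Fintype V]

lemma exists_sub_card {P : Finset V} {p : V} (hsp : Sparse G P) (h : IsSub G P) (hp : p ∈ P) :
    ∀ j, 1 ≤ j → j ≤ P.card → ∃ Q ⊆ P, IsSub G Q ∧ p ∈ Q ∧ Q.card = j := by
  intro j hj
  induction j, hj using Nat.le_induction with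
  | base =>
    intro _
    exact ⟨{p}, by simpa using hp, isSub_singleton p, by simp, by simp⟩
  | succ j hj ih =>
    intro hjP
    obtain ⟨Q, hQP, hQs, hpQ, hQc⟩ := ih (by omega)
    have : ∃ u ∈ P, u ∈ Q ∧ ∃ w ∈ P, G.Adj u w ∧ w ∉ Q := by
      by_contra hcon
      push Not at hcon
      have h1 : P ⊆ Q := by
        apply h.subset_of_closed hsp
        · intro u hu huQ w hw hadj
          exact hcon u hu huQ w hw hadj
        · exact ⟨p, mem_inter.mpr ⟨hp, hpQ⟩⟩
      have := card_le_card h1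
      omega
    obtain ⟨u, hu, huQ, w, hw, hadj, hwQ⟩ := this
    refine ⟨insert w Q, insert_subset hw hQP, hQs.insert_of_adj huQ hwQ hadj.symm,
      mem_insert_of_mem hpQ, ?_⟩
    rw [card_insert_of_notMem hwQ, hQc]

/-- graph of short pairs in `C` -/
def shG (G : SimpleGraph V) (m : ℕ) (C : Finset V) : SimpleGraph V where
  Adj x y := x ≠ y ∧ ∃ P ⊆ C, IsSub G P ∧ P.card ≤ 2 * m ∧ (∃ p ∈ P, G.Adj x p) ∧
    (∃ q ∈ P, G.Adj y q)
  symm := ⟨by
    rintro x y ⟨hne, P, h1, h2, h3, h4, h5⟩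
    exact ⟨hne.symm, P, h1, h2, h3, h5, h4⟩⟩
  loopless := ⟨by
    rintro x ⟨hne, _⟩
    exact hne rfl⟩

lemma TD.sh_disjoint {k m : ℕ} {S : Finset V} {𝒯 : Finset (Finset V)} (h : TD G k m S 𝒯)
    {C C' : Finset V} (hC : C ∈ comps G (univ \ S)) (hC' : C' ∈ comps G (univ \ S))
    (hne : C ≠ C') {x y : V} (hx : x ∈ S) (hy : y ∈ S) (h1 : (shG G m C).Adj x y)
    (h2 : (shG G m C').Adj x y) : False := by
  obtain ⟨hxy, P, hPC, hPs, hPc, ⟨p, hp, hxp⟩, ⟨q, hq, hyq⟩⟩ := h1
  obtain ⟨_, P', hPC', hPs', hPc', ⟨p', hp', hxp'⟩, ⟨q', hq', hyq'⟩⟩ := h2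
  obtain ⟨c1, _, _, _⟩ := comps_spec h.sparse hC
  obtain ⟨c1', _, _, _⟩ := comps_spec h.sparse hC'
  have hdis : Disjoint P P' := (comps_disjoint h.sparse hC hC' hne).mono hPC hPC'
  have hxP : x ∉ P := fun h' => (mem_sdiff.mp (c1 (hPC h'))).2 hx
  have hyP : y ∉ P := fun h' => (mem_sdiff.mp (c1 (hPC h'))).2 hy
  have hxP' : x ∉ P' := fun h' => (mem_sdiff.mp (c1' (hPC' h'))).2 hx
  have hyP' : y ∉ P' := fun h' => (mem_sdiff.mp (c1' (hPC' h'))).2 hy
  refine h.hg _ ?_ (pair_dense hPs hPs' hdis hxy hxP hxP' hyP hyP'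
    (one_le_dN_of_adj G hq hyq) (one_le_dN_of_adj G hq' hyq')
    (one_le_dN_of_adj G hp hxp) (one_le_dN_of_adj G hp' hxp'))
  have h1 := card_insert_le x (insert y (P ∪ P'))
  have h2 := card_insert_le y (P ∪ P')
  have h3 := card_union_le P P'
  omega

/-- all label distances in components are at least `2m-1` -/
lemma TD.dist_ge {k m : ℕ} {S : Finset V} {𝒯 : Finset (Finset V)} (h : TD G k m S 𝒯)
    {C : Finset V} (hC : C ∈ comps G (univ \ S)) {x y p q : V} (hx : x ∈ S) (hy : y ∈ S)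
    (hxy : x ≠ y) (hxp : G.Adj x p) (hyq : G.Adj y q) {P : Finset V} (hPC : P ⊆ C)
    (hPs : IsSub G P) (hpP : p ∈ P) (hqP : q ∈ P) : 2 * m ≤ P.card := by
  by_contra hcon
  push Not at hcon
  obtain ⟨c1, _, _, _⟩ := comps_spec h.sparse hC
  have hTc := h.hT
  have hk := h.hk
  have : (1 : ℕ) ≤ (𝒯.erase C).card := by
    have := pred_card_le_card_erase (s := 𝒯) (a := C)
    omega
  obtain ⟨T, hTe⟩ := card_pos.mp (show 0 < (𝒯.erase C).card from this)
  rw [mem_erase] at hTe
  obtain ⟨hTC, hT⟩ := hTe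
  obtain ⟨P', hPT', hPs', hPc', ⟨p', hp', hxp'⟩, ⟨q', hq', hyq'⟩⟩ := h.exact hT hx hy hxy
  have hdis : Disjoint P P' :=
    (comps_disjoint h.sparse hC (h.mem_comps hT) (Ne.symm hTC)).mono hPC hPT'
  have hxP : x ∉ P := fun h' => (mem_sdiff.mp (c1 (hPC h'))).2 hx
  have hyP : y ∉ P := fun h' => (mem_sdiff.mp (c1 (hPC h'))).2 hy
  have hxP' : x ∉ P' := fun h' => disjoint_left.mp (h.disj T hT) (hPT' h') hx
  have hyP' : y ∉ P' := fun h' => disjoint_left.mp (h.disj T hT) (hPT' h') hy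
  refine h.hg _ ?_ (pair_dense hPs hPs' hdis hxy hxP hxP' hyP hyP'
    (one_le_dN_of_adj G hqP hyq) (one_le_dN_of_adj G hq' hyq')
    (one_le_dN_of_adj G hpP hxp) (one_le_dN_of_adj G hp' hxp'))
  have h1 := card_insert_le x (insert y (P ∪ P'))
  have h2 := card_insert_le y (P ∪ P')
  have h3 := card_union_le P P'
  omega

/-- size of a component, with the number of short pairs -/
lemma TD.comp_card3 {k m : ℕ} (hm : 1 ≤ m) {S : Finset V} {𝒯 : Finset (Finset V)}
    (h : TD G k m S 𝒯)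
    {C : Finset V} (hC : C ∈ comps G (univ \ S)) (hL : 2 ≤ ∑ x ∈ S, dN G C x) :
    m * (∑ x ∈ S, dN G C x) + 1 ≤ C.card ∨
      (m * (∑ x ∈ S, dN G C x) ≤ C.card ∧
        ∑ x ∈ S, dN G C x - 1 ≤ eI (shG G m C) S) := by
  classical
  obtain ⟨c1, c2, c3, c4⟩ := comps_spec h.sparse hC
  have hWs := h.sparse
  have hCs : Sparse G C := hWs.mono G c1
  set N := S.filter (fun x => 1 ≤ dN G C x) with hN
  have hsum : ∑ x ∈ S, dN G C x = N.card := by
    rw [hN, card_filter]
    apply sum_congr rfl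
    intro x hx
    have := h.dN_le_one hC hx
    split_ifs <;> omega
  rw [hsum] at hL ⊢
  have hNS : N ⊆ S := filter_subset _ _
  -- choose labels
  have hlab : ∀ x, ∃ p, x ∈ N → p ∈ C ∧ G.Adj x p := by
    intro x
    by_cases hx : x ∈ N
    · have h1 := hx
      rw [hN, mem_filter] at h1
      obtain ⟨p, hp, hxp⟩ := exists_label h1.2
      exact ⟨p, fun _ => ⟨hp, hxp⟩⟩
    · exact ⟨x, fun h => absurd h hx⟩
  choose ℓ hℓ using hlab
  have hdist : ∀ x ∈ N, ∀ y ∈ N, x ≠ y → 2 * m ≤ dd G (univ \ S) (ℓ x) (ℓ y) + 1 := by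
    intro x hx y hy hxy
    obtain ⟨P, hPC, hPs, hpP, hqP, hPc⟩ := dd_spec hWs c1 c2 (hℓ x hx).1 (hℓ y hy).1
    have := h.dist_ge hC (hNS hx) (hNS hy) hxy (hℓ x hx).2 (hℓ y hy).2 hPC hPs hpP hqP
    omega
  set B : V → Finset V := fun x => C.filter (fun v => dd G (univ \ S) (ℓ x) v + 1 ≤ m) with hB
  have hBdis : ∀ x ∈ N, ∀ y ∈ N, x ≠ y → Disjoint (B x) (B y) := by
    intro x hx y hy hxy
    rw [disjoint_left]
    intro v hv hv'
    simp only [hB, mem_filter] at hv hv'
    have h1 := dd_triangle hWs c1 c2 (hℓ x hx).1 (hℓ y hy).1 hv.1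
    rw [dd_comm (univ \ S) v (ℓ y)] at h1
    have h2 := hdist x hx y hy hxy
    omega
  have hBcard : ∀ x ∈ N, m ≤ (B x).card := by
    intro x hx
    -- another label
    obtain ⟨y, hy, hyx⟩ : ∃ y ∈ N, y ≠ x := by
      have : 1 < N.card := by omega
      obtain ⟨a, ha, b, hb, hab⟩ := one_lt_card.mp this
      by_cases hax : a = x
      · exact ⟨b, hb, fun h => hab (hax.trans h.symm)⟩
      · exact ⟨a, ha, hax⟩
    obtain ⟨P, hPC, hPs, hpP, hqP, hPc⟩ := dd_spec hWs c1 c2 (hℓ x hx).1 (hℓ y hy).1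
    have h1 := hdist x hx y hy (Ne.symm hyx)
    obtain ⟨Q, hQP, hQs, hpQ, hQc⟩ := exists_sub_card (hCs.mono G hPC) hPs hpP m hm (by omega)
    rw [← hQc]
    apply card_le_card
    intro v hv
    simp only [hB, mem_filter]
    refine ⟨hPC (hQP hv), ?_⟩
    have := dd_le (G := G) (hQP.trans (hPC.trans c1)) hQs hpQ hv
    omega
  have hBC : N.biUnion B ⊆ C := by
    rw [biUnion_subset]
    intro x _
    exact filter_subset _ _
  have hcardU : (N.biUnion B).card = ∑ x ∈ N, (B x).card := by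
    apply card_biUnion
    intro x hx y hy hxy
    exact hBdis x hx y hy hxy
  have hge : m * N.card ≤ (N.biUnion B).card := by
    rw [hcardU]
    calc m * N.card = ∑ x ∈ N, m := by rw [sum_const, smul_eq_mul, mul_comm]
      _ ≤ _ := sum_le_sum hBcard
  by_cases hcov : N.biUnion B = C
  swap
  · left
    have h1 : (N.biUnion B).card < C.card := by
      apply card_lt_card
      exact hBC.ssubset_of_ne hcov
    omega
  · right
    refine ⟨by rw [← hcov]; exact hge, ?_⟩
    have hsub : IsSub (shG G m C) N := by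
      apply isSub_of_expansion
      · exact card_pos.mp (by omega)
      · intro N1 hN1 hne1 hneN
        set C1 := N1.biUnion B with hC1
        have hC1C : C1 ⊆ C := by
          rw [hC1, biUnion_subset]
          intro x _
          exact filter_subset _ _
        -- there is an edge leaving C1
        have : ∃ u ∈ C, u ∈ C1 ∧ ∃ w ∈ C, G.Adj u w ∧ w ∉ C1 := by
          by_contra hcon
          push Not at hcon
          obtain ⟨x1, hx1⟩ := hne1
          obtain ⟨z, hz⟩ := card_pos.mp (show 0 < (B x1).card by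
            have := hBcard x1 (hN1 hx1); omega)
          have hz1 : z ∈ C1 := mem_biUnion.mpr ⟨x1, hx1, hz⟩
          have h1 : C ⊆ C1 := by
            apply c2.subset_of_closed hCs
            · intro u hu huQ w hw hadj
              exact hcon u hu huQ w hw hadj
            · exact ⟨z, mem_inter.mpr ⟨hC1C hz1, hz1⟩⟩
          obtain ⟨x2, hx2, hx21⟩ : ∃ x2 ∈ N, x2 ∉ N1 := by
            by_contra hc
            push Not at hc
            exact hneN (Subset.antisymm hN1 hc)
          obtain ⟨z2, hz2⟩ := card_pos.mp (show 0 < (B x2).card by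
            have := hBcard x2 hx2; omega)
          have hz2C : z2 ∈ C := (mem_filter.mp hz2).1
          obtain ⟨x3, hx3, hz3⟩ := mem_biUnion.mp (h1 hz2C)
          have hne3 : x2 ≠ x3 := fun h => hx21 (h ▸ hx3)
          exact disjoint_left.mp (hBdis x2 hx2 x3 (hN1 hx3) hne3) hz2 hz3
        obtain ⟨u, hu, huC1, w, hw, hadj, hwC1⟩ := this
        obtain ⟨x, hx, hux⟩ := mem_biUnion.mp huC1
        have hwU : w ∈ N.biUnion B := by rw [hcov]; exact hw
        obtain ⟨y, hy, hwy⟩ := mem_biUnion.mp hwU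
        have hyN1 : y ∉ N1 := fun h => hwC1 (mem_biUnion.mpr ⟨y, h, hwy⟩)
        have hxy : x ≠ y := fun h => hyN1 (h ▸ hx)
        refine ⟨x, hx, y, hy, hyN1, hxy, ?_⟩
        simp only [hB, mem_filter] at hux hwy
        obtain ⟨P, hPC, hPs, hpP, huP, hPc⟩ := dd_spec hWs c1 c2 (hℓ x (hN1 hx)).1 hu
        obtain ⟨Q, hQC, hQs, hqQ, hwQ, hQc⟩ := dd_spec hWs c1 c2 (hℓ y hy).1 hw
        have hPQ : IsSub G (P ∪ Q) := by
          by_cases hi : (P ∩ Q).Nonempty
          · exact hPs.union hWs (hPC.trans c1) hQs hi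
          · rw [not_nonempty_iff_eq_empty, ← disjoint_iff_inter_eq_empty] at hi
            exact hPs.union_of_adj hQs hi huP hwQ hadj
        refine ⟨P ∪ Q, union_subset hPC hQC, hPQ, ?_, ⟨ℓ x, mem_union_left _ hpP, (hℓ x (hN1 hx)).2⟩,
          ⟨ℓ y, mem_union_right _ hqQ, (hℓ y hy).2⟩⟩
        have := card_union_le P Q
        omega
    have h1 := hsub.2
    have h2 := eI_mono (shG G m C) hNS
    omega

lemma eI_top (S : Finset V) : 2 * eI (⊤ : SimpleGraph V) S = S.card * (S.card - 1) := by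
  classical
  rw [← sum_dN, ← smul_eq_mul, ← sum_const]
  apply sum_congr rfl
  intro v hv
  unfold dN
  rw [← card_erase_of_mem hv]
  congr 1
  ext u
  simp only [mem_filter, mem_erase, SimpleGraph.top_adj]
  constructor
  · rintro ⟨h1, h2⟩; exact ⟨h2.symm, h1⟩
  · rintro ⟨h1, h2⟩; exact ⟨h2, h1.symm⟩

open scoped Classical in
/-- the edges of `H` inside `S` -/
noncomputable def ES (H : SimpleGraph V) (S : Finset V) : Finset (Sym2 V) :=
  S.sym2.filter (fun e => e ∈ H.edgeSet)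

lemma mem_ES {H : SimpleGraph V} {S : Finset V} {x y : V} :
    s(x, y) ∈ ES H S ↔ (x ∈ S ∧ y ∈ S) ∧ H.Adj x y := by
  classical
  unfold ES
  rw [mem_filter, Finset.mk_mem_sym2_iff, SimpleGraph.mem_edgeSet]

lemma eI_eq_ES (H : SimpleGraph V) (S : Finset V) : eI H S = (ES H S).card := rfl

lemma TD.sum_sh {k m : ℕ} {S : Finset V} {𝒯 : Finset (Finset V)} (h : TD G k m S 𝒯) :
    ∑ C ∈ comps G (univ \ S), eI (shG G m C) S ≤ (2 * k - 1) * (k - 1) := by
  classical
  have hk := h.hk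
  have h1 : ∑ C ∈ comps G (univ \ S), eI (shG G m C) S ≤ eI (⊤ : SimpleGraph V) S := by
    simp_rw [eI_eq_ES]
    rw [← card_biUnion]
    · apply card_le_card
      intro e he
      rw [mem_biUnion] at he
      obtain ⟨C, hC, he⟩ := he
      revert he
      induction e using Sym2.ind with
      | _ x y =>
        intro he
        rw [mem_ES] at he ⊢
        exact ⟨he.1, he.2.1⟩
    · intro C hC C' hC' hne
      rw [Function.onFun, disjoint_left]
      intro e
      induction e using Sym2.ind with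
      | _ x y =>
        intro he he'
        rw [mem_ES] at he he'
        exact h.sh_disjoint hC hC' hne he.1.1 he.1.2 he.2 he'.2
  have h2 := eI_top S
  rw [h.hS] at h2
  obtain ⟨κ, rfl⟩ : ∃ κ, k = κ + 1 := ⟨k - 1, by omega⟩
  have e1 : 2 * (κ + 1) - 1 - 1 = 2 * κ := by omega
  have e2 : 2 * (κ + 1) - 1 = 2 * κ + 1 := by omega
  rw [e1, e2] at h2
  rw [e2, Nat.add_sub_cancel]
  have h3 : (2 * κ + 1) * (2 * κ) = 2 * ((2 * κ + 1) * κ) := by ring
  omega

theorem TD.bound3 {k m : ℕ} (hm : 1 ≤ m) {S : Finset V} {𝒯 : Finset (Finset V)}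
    (h : TD G k m S 𝒯) :
    eI G univ ≤ (Fintype.card V - (2 * k - 1)) + psi k m (Fintype.card V - (2 * k - 1)) := by
  classical
  have hk := h.hk
  have hSW : S ∪ (univ \ S) = univ := by rw [union_sdiff_of_subset (subset_univ _)]
  have h1 := eI_univ_split (G := G) (X := S) (W := univ \ S) disjoint_sdiff h.sparse
  rw [hSW, h.indep (fun U hU => h.hg U (by omega))] at h1
  have hWc : (univ \ S : Finset V).card = Fintype.card V - (2 * k - 1) := by
    rw [card_sdiff_of_subset (subset_univ _), card_univ, h.hS]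
  have h2 := psi_sum k m hk hm (comps G (univ \ S))
    ((comps G (univ \ S)).filter (fun C => ∑ x ∈ S, dN G C x - 1 ≤ eI (shG G m C) S))
    (fun C => C.card)
    (fun C => ∑ x ∈ S, dN G C x)
    (by
      intro C hC
      calc ∑ x ∈ S, dN G C x ≤ ∑ x ∈ S, 1 := sum_le_sum (fun x hx => h.dN_le_one hC hx)
        _ = 2 * k - 1 := by rw [sum_const, smul_eq_mul, mul_one, h.hS])
    (by
      intro C hC hL
      rcases h.comp_card3 hm hC hL with h3 | h3
      · exact Or.inl h3
      · exact Or.inr ⟨h3.1, mem_filter.mpr ⟨hC, h3.2⟩⟩)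
    (by
      refine le_trans ?_ h.sum_sh
      calc _ ≤ ∑ C ∈ (comps G (univ \ S)).filter (fun C => 2 ≤ ∑ x ∈ S, dN G C x ∧
            C ∈ (comps G (univ \ S)).filter
              (fun C => ∑ x ∈ S, dN G C x - 1 ≤ eI (shG G m C) S)), eI (shG G m C) S := by
            apply sum_le_sum
            intro C hC
            rw [mem_filter, mem_filter] at hC
            exact hC.2.2.2
        _ ≤ _ := sum_le_sum_of_subset (filter_subset _ _))
  rw [← card_comps h.sparse, hWc] at h2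
  rw [hWc] at h1
  omega

end

theorem upper3 (k m : ℕ) (hk : 2 ≤ k) (hm : 1 ≤ m) : ∃ n0 : ℕ, ∀ (V : Type) [Fintype V]
    [DecidableEq V] (G : SimpleGraph V), n0 ≤ Fintype.card V →
    (∀ U : Finset V, U.card < 4 * m + 3 → ¬ Dense G U) → ¬ Pack G univ k →
    eI G univ ≤ (Fintype.card V - (2 * k - 1)) + psi k m (Fintype.card V - (2 * k - 1)) := by
  obtain ⟨n0, hn0⟩ := exists_TD k m hk
  refine ⟨n0, fun V _ _ G hn hg hP => ?_⟩
  by_contra hcon
  push Not at hcon
  obtain ⟨S, 𝒯, htd⟩ := hn0 V G hn hg hP (by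
    have h2 : (2 * k - 2) * ((Fintype.card V - (2 * k - 1)) / ((2 * k - 1) * m + 1)) ≤
        psi k m (Fintype.card V - (2 * k - 1)) := by
      unfold psi
      have h3 : (Fintype.card V - (2 * k - 1)) / ((2 * k - 1) * m + 1) ≤
          (Fintype.card V - (2 * k - 1) + (k - 1)) / ((2 * k - 1) * m + 1) :=
        Nat.div_le_div_right (by omega)
      have h4 := Nat.mul_le_mul_left (2 * k - 2) h3
      omega
    omega)
  have := htd.bound3 hm
  omega

end Pool.Agent.H38
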