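import Pool.Agent.H38.Sep

set_option autoImplicit false
set_option linter.unusedSectionVars false
set_option linter.unusedSimpArgs false
set_option linter.unusedVariables false

namespace Pool.Agent.H38

open Finset

/-- subtree (inside a sparse set: nonempty connected vertex set) -/
def IsSub {V : Type*} (G : SimpleGraph V) (P : Finset V) : Prop :=
  P.Nonempty ∧ P.card ≤ eI G P + 1

section
variable {V : Type*} [DecidableEq V] {G : SimpleGraph V}

lemma isSub_singleton (v : V) : IsSub G {v} := ⟨by simp, by simp⟩

lemma IsSub.eI_eq {W P : Finset V} (hW : Sparse G W) (hP : P ⊆ W) (h : IsSub G P) :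
    eI G P + 1 = P.card := by
  have := hW P hP h.1
  have := h.2
  omega

lemma IsSub.union {W P Q : Finset V} (hW : Sparse G W) (hP : P ⊆ W)
    (h : IsSub G P) (h' : IsSub G Q) (hi : (P ∩ Q).Nonempty) : IsSub G (P ∪ Q) := by
  refine ⟨h.1.mono subset_union_left, ?_⟩
  exact card_union_le_of_inter G h.2 h'.2 (hW _ (inter_subset_left.trans hP) hi)

lemma IsSub.inter {W P Q : Finset V} (hW : Sparse G W) (hP : P ⊆ W) (hQ : Q ⊆ W)
    (h : IsSub G P) (h' : IsSub G Q) (hi : (P ∩ Q).Nonempty) : IsSub G (P ∩ Q) := by
  refine ⟨hi, ?_⟩
  have h1 := eI_super G P Q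
  have h2 := card_union_add_card_inter P Q
  have h3 := hW (P ∪ Q) (union_subset hP hQ) (h.1.mono subset_union_left)
  have := h.2
  have := h'.2
  omega

lemma IsSub.insert_of_adj {P : Finset V} {u v : V} (h : IsSub G P) (hu : u ∈ P) (hv : v ∉ P)
    (ha : G.Adj v u) : IsSub G (insert v P) := by
  refine ⟨insert_nonempty _ _, ?_⟩
  rw [card_insert_of_notMem hv, eI_insert G hv]
  have := one_le_dN_of_adj G hu ha
  have := h.2
  omega

lemma IsSub.dN_le_one {W P : Finset V} {v : V} (hW : Sparse G W) (h : IsSub G P)
    (hP : P ⊆ W) (hv : v ∈ W) (hvP : v ∉ P) : dN G P v ≤ 1 := by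
  have h1 := hW (insert v P) (insert_subset hv hP) (insert_nonempty _ _)
  rw [card_insert_of_notMem hvP, eI_insert G hvP] at h1
  have := h.2
  omega

/-- union of disjoint subtrees joined by an edge -/
lemma IsSub.union_of_adj {P Q : Finset V} {u v : V} (h : IsSub G P) (h' : IsSub G Q)
    (hd : Disjoint P Q) (hu : u ∈ P) (hv : v ∈ Q) (ha : G.Adj u v) : IsSub G (P ∪ Q) := by
  classical
  refine ⟨h.1.mono subset_union_left, ?_⟩
  have huQ : u ∉ Q := fun hh => (disjoint_left.mp hd) hu hh
  have e1 := eI_insert G huQ
  have d1 := one_le_dN_of_adj G hv ha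
  have h1 := eI_super G P (insert u Q)
  have h2 : P ∪ insert u Q = P ∪ Q := by
    ext z; simp only [mem_union, mem_insert]
    constructor
    · rintro (h | rfl | h)
      · exact Or.inl h
      · exact Or.inl hu
      · exact Or.inr h
    · rintro (h | h)
      · exact Or.inl h
      · exact Or.inr (Or.inr h)
  have h3 : P ∩ insert u Q = {u} := by
    ext z; simp only [mem_inter, mem_insert, mem_singleton]
    constructor
    · rintro ⟨h4, h5 | h5⟩
      · exact h5
      · exact absurd h5 (disjoint_left.mp hd h4)
    · rintro rfl; exact ⟨hu, Or.inl rfl⟩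
  rw [h2, h3, eI_singleton] at h1
  rw [card_union_of_disjoint hd]
  have := h.2
  have := h'.2
  omega

lemma exists_leaf {W : Finset V} (hW : Sparse G W) (hne : W.Nonempty) :
    ∃ v ∈ W, dN G W v ≤ 1 := by
  by_contra hcon
  push Not at hcon
  have hg : Good G W := ⟨hne, fun v hv => hcon v hv⟩
  have := hg.dense.2
  have := hW W subset_rfl hne
  omega

lemma IsSub.erase_leaf {W P : Finset V} {v : V} (hW : Sparse G W) (hP : P ⊆ W)
    (h : IsSub G P) (hl : dN G W v ≤ 1) (hne : P ≠ {v}) : IsSub G (P.erase v) := by
  by_cases hv : v ∈ P
  · have h1 := eI_erase' G hv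
    have h2 := dN_mono G hP v
    have h3 := card_erase_of_mem hv
    have hpos : 0 < P.card := card_pos.mpr h.1
    refine ⟨?_, ?_⟩
    · by_contra hc
      rw [not_nonempty_iff_eq_empty] at hc
      apply hne
      rw [← insert_erase hv, hc]; rfl
    · have := h.2
      omega
  · rwa [erase_eq_of_notMem hv]

/-- in a subtree of size at least two every vertex has a neighbour -/
lemma IsSub.exists_adj {W P : Finset V} {v : V} (hW : Sparse G W) (hP : P ⊆ W)
    (h : IsSub G P) (hv : v ∈ P) (hne : P ≠ {v}) : ∃ u ∈ P, G.Adj v u := by
  classical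
  by_contra hcon
  push Not at hcon
  have h0 : dN G P v = 0 := by
    unfold dN
    rw [card_eq_zero, filter_eq_empty_iff]
    exact fun x hx => hcon x hx
  have h1 := eI_erase' G hv
  have hpos : 0 < P.card := card_pos.mpr h.1
  have hne' : (P.erase v).Nonempty := by
    by_contra hc
    rw [not_nonempty_iff_eq_empty] at hc
    apply hne
    rw [← insert_erase hv, hc]; rfl
  have h2 := hW (P.erase v) ((erase_subset _ _).trans hP) hne'
  have h3 := card_erase_of_mem hv
  have := h.2
  omega

/-- Duality for sets with at least two labels in a forest. -/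
theorem exists_loops : ∀ (n : ℕ) (W : Finset V), W.card = n → Sparse G W →
    ∀ Λ ⊆ W, ∃ Z ⊆ W, ∃ m : ℕ, ∃ f : Fin m → Finset V, Z.card ≤ m ∧
      (∀ i, f i ⊆ W ∧ IsSub G (f i) ∧ 2 ≤ (f i ∩ Λ).card) ∧
      (∀ i j, i ≠ j → Disjoint (f i) (f j)) ∧
      ∀ P ⊆ W \ Z, IsSub G P → (P ∩ Λ).card ≤ 1 := by
  classical
  intro n
  induction n using Nat.strong_induction_on with
  | _ n ih =>
    intro W hc hW Λ hΛ
    by_cases hne : W.Nonempty
    swap
    · rw [not_nonempty_iff_eq_empty] at hne
      subst hne
      refine ⟨∅, subset_rfl, 0, fun i => i.elim0, by simp, fun i => i.elim0, fun i => i.elim0, ?_⟩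
      intro P hP hs
      have : P = ∅ := by simpa using hP
      subst this
      simp
    obtain ⟨v, hv, hl⟩ := exists_leaf hW hne
    have hcv : (W.erase v).card < n := by
      rw [card_erase_of_mem hv]
      have : 0 < W.card := card_pos.mpr hne
      omega
    by_cases hvΛ : v ∈ Λ
    swap
    · -- unlabelled leaf
      obtain ⟨Z, hZ, m, f, hZm, hf, hdis, hsep⟩ := ih _ hcv (W.erase v) rfl
        (hW.mono G (erase_subset _ _)) Λ (by
          intro x hx; rw [mem_erase]; exact ⟨fun h => hvΛ (h ▸ hx), hΛ hx⟩)
      refine ⟨Z, hZ.trans (erase_subset _ _), m, f, hZm,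
        fun i => ⟨(hf i).1.trans (erase_subset _ _), (hf i).2⟩, hdis, ?_⟩
      intro P hP hs
      by_cases hPv : P = {v}
      · subst hPv
        exact (card_le_card inter_subset_left).trans (by simp)
      · have h1 := hs.erase_leaf hW (hP.trans sdiff_subset) hl hPv
        have h2 := hsep (P.erase v) (by
          intro x hx
          rw [mem_erase] at hx
          have := hP hx.2
          rw [mem_sdiff] at this ⊢
          exact ⟨by simp [hx.1, this.1], this.2⟩) h1
        have h3 : P ∩ Λ = P.erase v ∩ Λ := by
          ext x; simp only [mem_inter, mem_erase]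
          constructor
          · rintro ⟨h4, h5⟩; exact ⟨⟨fun h => hvΛ (h ▸ h5), h4⟩, h5⟩
          · rintro ⟨⟨_, h4⟩, h5⟩; exact ⟨h4, h5⟩
        rwa [h3]
    by_cases hd0 : ∃ u ∈ W, G.Adj v u
    swap
    · -- isolated labelled vertex
      push Not at hd0
      obtain ⟨Z, hZ, m, f, hZm, hf, hdis, hsep⟩ := ih _ hcv (W.erase v) rfl
        (hW.mono G (erase_subset _ _)) (Λ.erase v) (erase_subset_erase _ hΛ)
      refine ⟨Z, hZ.trans (erase_subset _ _), m, f, hZm,
        fun i => ⟨(hf i).1.trans (erase_subset _ _), (hf i).2.1, (hf i).2.2.trans (card_le_card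
          (inter_subset_inter_left (erase_subset _ _)))⟩, hdis, ?_⟩
      intro P hP hs
      by_cases hvP : v ∈ P
      · by_cases hPv : P = {v}
        · subst hPv
          exact (card_le_card inter_subset_left).trans (by simp)
        · obtain ⟨u, hu, hau⟩ := hs.exists_adj hW (hP.trans sdiff_subset) hvP hPv
          exact absurd hau (hd0 u (mem_sdiff.mp (hP hu)).1)
      · have h2 := hsep P (by
          intro x hx
          have := hP hx
          rw [mem_sdiff] at this ⊢
          exact ⟨by rw [mem_erase]; exact ⟨fun h => hvP (h ▸ hx), this.1⟩, this.2⟩) hs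
        have h3 : P ∩ Λ = P ∩ Λ.erase v := by
          ext x; simp only [mem_inter, mem_erase]
          constructor
          · rintro ⟨h4, h5⟩; exact ⟨h4, fun h => hvP (h ▸ h4), h5⟩
          · rintro ⟨h4, _, h5⟩; exact ⟨h4, h5⟩
        rwa [h3]
    obtain ⟨u, hu, hau⟩ := hd0
    -- unique neighbour
    have huniq : ∀ w ∈ W, G.Adj v w → w = u := by
      intro w hw haw
      by_contra hne'
      have := two_le_dN_of_adj G hne' hw hu haw hau
      omega
    have huv : u ≠ v := hau.ne'
    have hPu : ∀ P ⊆ W, IsSub G P → v ∈ P → P ≠ {v} → u ∈ P := by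
      intro P hP hs hvP hPv
      obtain ⟨w, hw, haw⟩ := hs.exists_adj hW hP hvP hPv
      rw [← huniq w (hP hw) haw]; exact hw
    by_cases huΛ : u ∈ Λ
    · -- loop {u, v}
      have hc2 : ((W.erase v).erase u).card < n := lt_of_le_of_lt (card_le_card (erase_subset _ _)) hcv
      obtain ⟨Z, hZ, m, f, hZm, hf, hdis, hsep⟩ := ih _ hc2 ((W.erase v).erase u) rfl
        (hW.mono G ((erase_subset _ _).trans (erase_subset _ _))) ((Λ.erase v).erase u)
        (erase_subset_erase _ (erase_subset_erase _ hΛ))
      have hfu : ∀ i, Disjoint ({u, v} : Finset V) (f i) := by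
        intro i
        rw [disjoint_left]
        intro x hx hxf
        have := (hf i).1 hxf
        simp only [mem_erase] at this
        simp only [mem_insert, mem_singleton] at hx
        rcases hx with rfl | rfl
        · exact this.1 rfl
        · exact this.2.1 rfl
      refine ⟨insert u Z, ?_, m + 1, Fin.cons {u, v} f, ?_, ?_, ?_, ?_⟩
      · exact insert_subset hu (hZ.trans ((erase_subset _ _).trans (erase_subset _ _)))
      · exact (card_insert_le _ _).trans (by omega)
      · intro i
        refine Fin.cases ?_ (fun i => ?_) i
        · simp only [Fin.cons_zero]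
          refine ⟨?_, ?_, ?_⟩
          · intro x hx
            simp only [mem_insert, mem_singleton] at hx
            rcases hx with rfl | rfl <;> assumption
          · exact (isSub_singleton v).insert_of_adj (by simp) (by simpa using huv) hau.symm
          · have : ({u, v} : Finset V) ∩ Λ = {u, v} := by
              rw [inter_eq_left]
              intro x hx
              simp only [mem_insert, mem_singleton] at hx
              rcases hx with rfl | rfl <;> assumption
            rw [this, card_pair huv]
        · simp only [Fin.cons_succ]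
          exact ⟨(hf i).1.trans ((erase_subset _ _).trans (erase_subset _ _)), (hf i).2.1,
            (hf i).2.2.trans (card_le_card (inter_subset_inter_left
              ((erase_subset _ _).trans (erase_subset _ _))))⟩
      · intro i j
        refine Fin.cases ?_ (fun i' => ?_) i <;> refine Fin.cases ?_ (fun j' => ?_) j
        · intro h; exact absurd rfl h
        · intro _; simpa using hfu j'
        · intro _; simpa using (hfu i').symm
        · intro hne'
          simp only [Fin.cons_succ]
          exact hdis i' j' (fun h => hne' (by rw [h]))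
      · intro P hP hs
        have huP : u ∉ P := fun h => (mem_sdiff.mp (hP h)).2 (mem_insert_self _ _)
        have hPW : P ⊆ W := hP.trans sdiff_subset
        by_cases hvP : v ∈ P
        · by_cases hPv : P = {v}
          · subst hPv
            exact (card_le_card inter_subset_left).trans (by simp)
          · exact absurd (hPu P hPW hs hvP hPv) huP
        · have h2 := hsep P (by
            intro x hx
            have := hP hx
            rw [mem_sdiff] at this ⊢
            refine ⟨?_, fun h => this.2 (mem_insert_of_mem h)⟩
            simp only [mem_erase]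
            exact ⟨fun h => huP (h ▸ hx), fun h => hvP (h ▸ hx), this.1⟩) hs
          have h3 : P ∩ Λ = P ∩ (Λ.erase v).erase u := by
            ext x; simp only [mem_inter, mem_erase]
            constructor
            · rintro ⟨h4, h5⟩
              exact ⟨h4, fun h => huP (h ▸ h4), fun h => hvP (h ▸ h4), h5⟩
            · rintro ⟨h4, _, _, h5⟩; exact ⟨h4, h5⟩
          rwa [h3]
    · -- move the label from v to u
      have huW : u ∈ W.erase v := by simp [huv, hu]
      obtain ⟨Z, hZ, m, f, hZm, hf, hdis, hsep⟩ := ih _ hcv (W.erase v) rfl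
        (hW.mono G (erase_subset _ _)) (insert u (Λ.erase v))
        (insert_subset huW (erase_subset_erase _ hΛ))
      have hvf : ∀ i, v ∉ f i := fun i h => by simpa using (hf i).1 h
      have hcount : ∀ P : Finset V, v ∉ P → u ∈ P →
          ((insert v P) ∩ Λ).card = (P ∩ insert u (Λ.erase v)).card := by
        intro P hvP huP
        have h1 : (insert v P) ∩ Λ = insert v (P ∩ Λ) := by
          rw [insert_inter_of_mem hvΛ]
        have h2 : P ∩ insert u (Λ.erase v) = insert u (P ∩ Λ) := by
          ext x; simp only [mem_inter, mem_insert, mem_erase]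
          constructor
          · rintro ⟨h4, h5 | h5⟩
            · exact Or.inl h5
            · exact Or.inr ⟨h4, h5.2⟩
          · rintro (rfl | ⟨h4, h5⟩)
            · exact ⟨huP, Or.inl rfl⟩
            · exact ⟨h4, Or.inr ⟨fun h => hvP (h ▸ h4), h5⟩⟩
        rw [h1, h2, card_insert_of_notMem (by simp [hvP]), card_insert_of_notMem (by simp [huΛ])]
      refine ⟨Z, hZ.trans (erase_subset _ _), m, fun i => if u ∈ f i then insert v (f i) else f i,
        hZm, ?_, ?_, ?_⟩
      · intro i
        by_cases hui : u ∈ f i
        · simp only [if_pos hui]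
          refine ⟨insert_subset hv ((hf i).1.trans (erase_subset _ _)),
            (hf i).2.1.insert_of_adj hui (hvf i) hau, ?_⟩
          rw [hcount _ (hvf i) hui]
          exact (hf i).2.2
        · simp only [if_neg hui]
          refine ⟨(hf i).1.trans (erase_subset _ _), (hf i).2.1, ?_⟩
          refine (hf i).2.2.trans (card_le_card ?_)
          intro x hx
          simp only [mem_inter, mem_insert, mem_erase] at hx ⊢
          refine ⟨hx.1, ?_⟩
          rcases hx.2 with h | h
          · exact absurd (h ▸ hx.1) hui
          · exact h.2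
      · intro i j hij
        have hd := hdis i j hij
        rw [disjoint_left] at hd ⊢
        intro x hx hx'
        simp only at hx hx'
        by_cases hui : u ∈ f i
        · by_cases huj : u ∈ f j
          · exact hd hui huj
          · rw [if_pos hui] at hx
            rw [if_neg huj] at hx'
            rw [mem_insert] at hx
            rcases hx with rfl | hx
            · exact hvf j hx'
            · exact hd hx hx'
        · rw [if_neg hui] at hx
          by_cases huj : u ∈ f j
          · rw [if_pos huj] at hx'
            rw [mem_insert] at hx'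
            rcases hx' with rfl | hx'
            · exact hvf i hx
            · exact hd hx hx'
          · rw [if_neg huj] at hx'
            exact hd hx hx'
      · intro P hP hs
        have hPW : P ⊆ W := hP.trans sdiff_subset
        by_cases hvP : v ∈ P
        · by_cases hPv : P = {v}
          · subst hPv
            exact (card_le_card inter_subset_left).trans (by simp)
          · have huP := hPu P hPW hs hvP hPv
            have h1 := hs.erase_leaf hW hPW hl hPv
            have h2 := hsep (P.erase v) (by
              intro x hx
              rw [mem_erase] at hx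
              have := hP hx.2
              rw [mem_sdiff] at this ⊢
              exact ⟨by simp [hx.1, this.1], this.2⟩) h1
            have h3 := hcount (P.erase v) (by simp) (by simp [huv, huP])
            rw [insert_erase hvP] at h3
            omega
        · have h2 := hsep P (by
            intro x hx
            have := hP hx
            rw [mem_sdiff] at this ⊢
            exact ⟨by rw [mem_erase]; exact ⟨fun h => hvP (h ▸ hx), this.1⟩, this.2⟩) hs
          refine (card_le_card ?_).trans h2
          intro x hx
          simp only [mem_inter, mem_insert, mem_erase] at hx ⊢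
          exact ⟨hx.1, Or.inr ⟨fun h => hvP (h ▸ hx.1), hx.2⟩⟩

/-- Disjoint transversal of families of pairwise disjoint subtrees in a forest. -/
theorem exists_transversal {ι κ : Type*} [DecidableEq ι] :
    ∀ (n : ℕ) (W : Finset V), W.card = n → Sparse G W →
    ∀ (A : Finset ι) (I : ι → Finset κ) (F : ι → κ → Finset V),
      (∀ α ∈ A, ∀ j ∈ I α, F α j ⊆ W ∧ IsSub G (F α j)) →
      (∀ α ∈ A, ∀ j ∈ I α, ∀ j' ∈ I α, j ≠ j' → Disjoint (F α j) (F α j')) →
      (∀ α ∈ A, A.card ≤ (I α).card) →
      ∃ g : ∀ α ∈ A, κ, (∀ α (h : α ∈ A), g α h ∈ I α) ∧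
        ∀ α (h : α ∈ A) β (h' : β ∈ A), α ≠ β → Disjoint (F α (g α h)) (F β (g β h')) := by
  classical
  intro n
  induction n using Nat.strong_induction_on with
  | _ n ih =>
    intro W hc hW A I F hF hdis hcard
    by_cases hA : A = ∅
    · subst hA
      exact ⟨fun α h => absurd h (by simp), fun α h => absurd h (by simp),
        fun α h => absurd h (by simp)⟩
    have hAne : A.Nonempty := nonempty_iff_ne_empty.mpr hA
    have hne : W.Nonempty := by
      obtain ⟨α, hα⟩ := hAne
      have : 0 < (I α).card := lt_of_lt_of_le (card_pos.mpr ⟨α, hα⟩) (hcard α hα)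
      obtain ⟨j, hj⟩ := card_pos.mp this
      exact (hF α hα j hj).2.1.mono (hF α hα j hj).1
    obtain ⟨v, hv, hl⟩ := exists_leaf hW hne
    have hcv : (W.erase v).card < n := by
      rw [card_erase_of_mem hv]
      have : 0 < W.card := card_pos.mpr hne
      omega
    by_cases hex : ∃ α ∈ A, ∃ j ∈ I α, F α j = {v}
    · obtain ⟨α₀, hα₀, j₀, hj₀, hF₀⟩ := hex
      set I' : ι → Finset κ := fun α => (I α).filter (fun j => v ∉ F α j) with hI'
      have hI'card : ∀ α ∈ A, (I α).card ≤ (I' α).card + 1 := by
        intro α hα
        have h1 : ((I α).filter (fun j => ¬ (v ∉ F α j))).card ≤ 1 := by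
          rw [card_le_one]
          intro a ha b hb
          rw [mem_filter, not_not] at ha hb
          by_contra hab
          exact (disjoint_left.mp (hdis α hα a ha.1 b hb.1 hab)) ha.2 hb.2
        have h2 := card_filter_add_card_filter_not (s := I α) (fun j => v ∉ F α j)
        rw [hI']
        simp only
        omega
      obtain ⟨g, hg, hgd⟩ := ih _ hcv (W.erase v) rfl (hW.mono G (erase_subset _ _))
        (A.erase α₀) I' F
        (by
          intro α hα j hj
          rw [mem_erase] at hα
          rw [hI', mem_filter] at hj
          refine ⟨?_, (hF α hα.2 j hj.1).2⟩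
          intro x hx
          rw [mem_erase]
          exact ⟨fun h => hj.2 (h ▸ hx), (hF α hα.2 j hj.1).1 hx⟩)
        (by
          intro α hα j hj j' hj' hne'
          rw [mem_erase] at hα
          rw [hI', mem_filter] at hj hj'
          exact hdis α hα.2 j hj.1 j' hj'.1 hne')
        (by
          intro α hα
          rw [mem_erase] at hα
          have h1 := hI'card α hα.2
          have h2 := hcard α hα.2
          rw [card_erase_of_mem hα₀]
          omega)
      have hvg : ∀ α (h : α ∈ A.erase α₀), v ∉ F α (g α h) := by
        intro α h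
        have := hg α h
        rw [hI', mem_filter] at this
        exact this.2
      refine ⟨fun α h => if hα : α = α₀ then j₀ else g α (by rw [mem_erase]; exact ⟨hα, h⟩), ?_, ?_⟩
      · intro α h
        by_cases hα : α = α₀
        · subst hα; simpa using hj₀
        · simp only [dif_neg hα]
          have := hg α (by rw [mem_erase]; exact ⟨hα, h⟩)
          rw [hI', mem_filter] at this
          exact this.1
      · intro α h β h' hne'
        by_cases hα : α = α₀
        · have hβ : β ≠ α₀ := fun hb => hne' (hα.trans hb.symm)
          simp only [dif_pos hα, dif_neg hβ]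
          rw [hα, hF₀, disjoint_singleton_left]
          exact hvg β _
        · by_cases hβ : β = α₀
          · simp only [dif_neg hα, dif_pos hβ]
            rw [hβ, hF₀, disjoint_singleton_right]
            exact hvg α _
          · simp only [dif_neg hα, dif_neg hβ]
            exact hgd α _ β _ hne'
    · push Not at hex
      obtain ⟨g, hg, hgd⟩ := ih _ hcv (W.erase v) rfl (hW.mono G (erase_subset _ _))
        A I (fun α j => (F α j).erase v)
        (by
          intro α hα j hj
          refine ⟨erase_subset_erase _ (hF α hα j hj).1, ?_⟩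
          exact (hF α hα j hj).2.erase_leaf hW (hF α hα j hj).1 hl (hex α hα j hj))
        (by
          intro α hα j hj j' hj' hne'
          exact (hdis α hα j hj j' hj' hne').mono (erase_subset _ _) (erase_subset _ _))
        hcard
      refine ⟨g, hg, ?_⟩
      intro α h β h' hne'
      have hd := hgd α h β h' hne'
      rw [disjoint_left] at hd ⊢
      intro x hx hx'
      by_cases hxv : x = v
      · subst hxv
        obtain ⟨u, hu, hau⟩ := (hF α h _ (hg α h)).2.exists_adj hW (hF α h _ (hg α h)).1 hx
          (hex α h _ (hg α h))
        obtain ⟨u', hu', hau'⟩ := (hF β h' _ (hg β h')).2.exists_adj hW (hF β h' _ (hg β h')).1 hx'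
          (hex β h' _ (hg β h'))
        have huu : u = u' := by
          by_contra hne2
          have := two_le_dN_of_adj G hne2 ((hF α h _ (hg α h)).1 hu)
            ((hF β h' _ (hg β h')).1 hu') hau hau'
          omega
        subst huu
        exact hd (mem_erase.mpr ⟨hau.ne', hu⟩) (mem_erase.mpr ⟨hau.ne', hu'⟩)
      · exact hd (mem_erase.mpr ⟨hxv, hx⟩) (mem_erase.mpr ⟨hxv, hx'⟩)

end

end Pool.Agent.H38
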