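import Pool.Agent.H38.Upper

set_option autoImplicit false
set_option linter.unusedSectionVars false
set_option linter.unusedSimpArgs false
set_option linter.unusedVariables false

namespace Pool.Agent.H38

open Finset

section
variable {V : Type*} [DecidableEq V] {G : SimpleGraph V}

lemma Good.exists_cycle {D : Finset V} (h : Good G D) :
    ∃ (u : V) (c : G.Walk u u), c.IsCycle ∧ ∀ z ∈ c.support, z ∈ D := by
  classical
  let H := G.induce (D : Set V)
  have hna : ¬ H.IsAcyclic := by
    intro hac
    have : Nonempty (D : Set V) := ⟨⟨h.1.choose, h.1.choose_spec⟩⟩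
    obtain ⟨u, v, p, hp, hmax⟩ := SimpleGraph.Walk.exists_isPath_forall_isPath_length_le_length H
    have hkey : ∀ w : (D : Set V), H.Adj u w → w = p.snd := by
      intro w hw
      apply hac.eq_snd_of_adj_start hp hw
      by_contra hws
      have h1 := hmax w v (SimpleGraph.Walk.cons hw.symm p) (hp.cons hws)
      rw [SimpleGraph.Walk.length_cons] at h1
      omega
    obtain ⟨w1, hw1, w2, hw2, hne, a1, a2⟩ := exists_two_of_two_le_dN G (h.2 u.1 u.2)
    have e1 := hkey ⟨w1, hw1⟩ a1
    have e2 := hkey ⟨w2, hw2⟩ a2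
    exact hne (congrArg Subtype.val (e1.trans e2.symm))
  unfold SimpleGraph.IsAcyclic at hna
  push Not at hna
  obtain ⟨u, c, hc⟩ := hna
  let e : H ↪g G := SimpleGraph.Embedding.induce (D : Set V)
  refine ⟨_, c.map e.toHom, ?_, ?_⟩
  · exact hc.map e.injective
  · intro z hz
    rw [SimpleGraph.Walk.support_map, List.mem_map] at hz
    obtain ⟨y, _, rfl⟩ := hz
    exact y.2

lemma cycle_good {u : V} {c : G.Walk u u} (hc : c.IsCycle) : Good G c.support.toFinset := by
  classical
  refine ⟨⟨u, by simp⟩, ?_⟩
  intro z hz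
  rw [List.mem_toFinset] at hz
  have hr : (c.rotate z hz).IsCycle := (SimpleGraph.Walk.isCycle_rotate hz).mpr hc
  have hnil : ¬ (c.rotate z hz).Nil := hr.not_nil
  refine two_le_dN_of_adj G hr.snd_ne_penultimate ?_ ?_ ((c.rotate z hz).adj_snd hnil)
    ((c.rotate z hz).adj_penultimate hnil).symm
  · rw [List.mem_toFinset, ← SimpleGraph.Walk.mem_support_rotate_iff c z hz]
    exact (c.rotate z hz).getVert_mem_support _
  · rw [List.mem_toFinset, ← SimpleGraph.Walk.mem_support_rotate_iff c z hz]
    exact (c.rotate z hz).getVert_mem_support _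

lemma cycle_card {u : V} {c : G.Walk u u} (hc : c.IsCycle) :
    c.support.toFinset.card = c.length := by
  classical
  have h1 : c.support.toFinset = c.support.tail.toFinset := by
    ext z
    rw [List.mem_toFinset, List.mem_toFinset]
    constructor
    · intro hz
      rw [SimpleGraph.Walk.mem_support_iff] at hz
      rcases hz with rfl | hz
      · exact SimpleGraph.Walk.end_mem_tail_support hc.not_nil
      · exact hz
    · exact fun hz => List.mem_of_mem_tail hz
  rw [h1, List.toFinset_card_of_nodup hc.support_nodup, List.length_tail,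
    SimpleGraph.Walk.length_support]
  omega

/-- `G` has `k` pairwise vertex-disjoint cycles -/
def HasDisjointCycles {V : Type*} (G : SimpleGraph V) (k : ℕ) : Prop :=
  ∃ (v : Fin k → V) (c : (i : Fin k) → G.Walk (v i) (v i)),
    (∀ i, (c i).IsCycle) ∧ ∀ i j, i ≠ j → List.Disjoint (c i).support (c j).support

lemma pack_iff [Fintype V] (k : ℕ) : Pack G univ k ↔ HasDisjointCycles G k := by
  classical
  constructor
  · rintro ⟨f, hf, hd⟩
    have h1 : ∀ i, ∃ (u : V) (c : G.Walk u u), c.IsCycle ∧ ∀ z ∈ c.support, z ∈ f i := by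
      intro i
      obtain ⟨D, hD, hg⟩ := (hf i).2.exists_good
      obtain ⟨u, c, hc, hcs⟩ := hg.exists_cycle
      exact ⟨u, c, hc, fun z hz => hD (hcs z hz)⟩
    choose v c hc hcs using h1
    refine ⟨v, c, hc, ?_⟩
    intro i j hij z hz hz'
    exact disjoint_left.mp (hd i j hij) (hcs i z hz) (hcs j z hz')
  · rintro ⟨v, c, hc, hd⟩
    refine ⟨fun i => (c i).support.toFinset, fun i => ⟨subset_univ _, (cycle_good (hc i)).dense⟩, ?_⟩
    intro i j hij
    rw [disjoint_left]
    intro z hz hz'
    rw [List.mem_toFinset] at hz hz'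
    exact hd i j hij hz hz'

lemma egirth_iff (g : ℕ) :
    (g : ℕ∞) ≤ G.egirth ↔ ∀ U : Finset V, U.card < g → ¬ Dense G U := by
  classical
  rw [SimpleGraph.le_egirth]
  constructor
  · intro h U hU hd
    obtain ⟨D, hD, hg⟩ := hd.exists_good
    obtain ⟨u, c, hc, hcs⟩ := hg.exists_cycle
    have h1 := h u c hc
    have h2 : g ≤ c.length := by exact_mod_cast h1
    rw [← cycle_card hc] at h2
    have h3 : c.support.toFinset ⊆ U := by
      intro z hz
      rw [List.mem_toFinset] at hz
      exact hD (hcs z hz)
    have := card_le_card h3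
    omega
  · intro h u c hc
    have h1 := (cycle_good hc).dense
    have h2 := cycle_card hc
    have h3 : g ≤ c.length := by
      by_contra hcon
      push Not at hcon
      exact h _ (by omega) h1
    exact_mod_cast h3

lemma eI_univ_eq [Fintype V] : eI G univ = G.edgeSet.ncard := by
  classical
  unfold eI
  rw [← Set.ncard_coe_finset]
  congr 1
  ext e
  simp

end

end Pool.Agent.H38
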