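import Pool.Agent.H38.Dist

set_option autoImplicit false
set_option linter.unusedSectionVars false
set_option linter.unusedSimpArgs false
set_option linter.unusedVariables false

namespace Pool.Agent.H38

open Finset

section
variable {V : Type*} [DecidableEq V] {G : SimpleGraph V}

/-- Potential lemma, rooted at a label. -/
theorem potential_root {ι : Type*} [DecidableEq ι] {W T : Finset V} (hW : Sparse G W) (m c : ℕ)
    (hc1 : 1 ≤ c) (N A : Finset ι) (hAN : A ⊆ N) (Λ : ι → Finset V)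
    (hc : 2 * A.card ≤ c ∨ (2 * A.card ≤ c + 1 ∧ A = N))
    (hTW : T ⊆ W) (hTs : IsSub G T)
    (h1 : ∀ x ∈ N, ∀ y ∈ N, x ≠ y → ∀ p ∈ Λ x, ∀ q ∈ Λ y, p ∈ T → q ∈ T → 2 * m ≤ dd G W p q)
    (h1' : ∀ x ∈ N, ∀ p ∈ Λ x, ∀ q ∈ Λ x, p ≠ q → p ∈ T → q ∈ T → 2 * m ≤ dd G W p q)
    (h2 : ∀ x ∈ A, ∀ p ∈ Λ x, ∀ q ∈ Λ x, p ≠ q → p ∈ T → q ∈ T → 4 * m + 1 ≤ dd G W p q)
    (hL : 2 ≤ ∑ x ∈ N, (Λ x ∩ T).card) :
    c * m * (∑ x ∈ N, (Λ x ∩ T).card) + (m + 1) * (∑ x ∈ A, (Λ x ∩ T).card) + c ≤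
      c * T.card + A.card * (m + 1) := by
  classical
  -- pick a label
  obtain ⟨x0, hx0, hx0c⟩ : ∃ x ∈ N, 0 < (Λ x ∩ T).card := by
    by_contra hcon
    push Not at hcon
    have : ∑ x ∈ N, (Λ x ∩ T).card = 0 := sum_eq_zero (fun x hx => by have := hcon x hx; omega)
    omega
  obtain ⟨p0, hp0⟩ := card_pos.mp hx0c
  rw [mem_inter] at hp0
  obtain ⟨hp0Λ, hp0T⟩ := hp0
  set Λ' : ι → Finset V := fun x => if x = x0 then (Λ x).erase p0 else Λ x with hΛ'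
  have hsub : ∀ x, Λ' x ⊆ Λ x := by
    intro x
    simp only [hΛ']
    split_ifs
    · exact erase_subset _ _
    · exact subset_rfl
  have hx0' : Λ' x0 = (Λ x0).erase p0 := by simp [hΛ']
  have hxne : ∀ x, x ≠ x0 → Λ' x = Λ x := by intro x hx; simp [hΛ', hx]
  have hinter0 : Λ' x0 ∩ T = (Λ x0 ∩ T).erase p0 := by rw [hx0', erase_inter]
  have hcard0 : (Λ' x0 ∩ T).card + 1 = (Λ x0 ∩ T).card := by
    rw [hinter0, card_erase_of_mem (mem_inter.mpr ⟨hp0Λ, hp0T⟩)]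
    omega
  have hsumN : ∑ x ∈ N, (Λ' x ∩ T).card + 1 = ∑ x ∈ N, (Λ x ∩ T).card := by
    rw [← add_sum_erase N _ hx0, ← add_sum_erase N _ hx0, ← hcard0]
    have : ∑ x ∈ N.erase x0, (Λ' x ∩ T).card = ∑ x ∈ N.erase x0, (Λ x ∩ T).card :=
      sum_congr rfl (fun x hx => by rw [hxne x (ne_of_mem_erase hx)])
    rw [this]; omega
  -- distances from p0
  have hfar : ∀ x ∈ N, ∀ p ∈ Λ' x, p ∈ T → 2 * m ≤ dd G W p0 p := by
    intro x hx p hp hpT
    by_cases hxx : x = x0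
    · subst hxx
      rw [hx0', mem_erase] at hp
      exact h1' x hx p0 hp0Λ p hp.2 hp.1.symm hp0T hpT
    · rw [hxne x hxx] at hp
      exact h1 x0 hx0 x hx (Ne.symm hxx) p0 hp0Λ p hp hp0T hpT
  -- nearest remaining label
  obtain ⟨y, hy, hyc⟩ : ∃ x ∈ N, 0 < (Λ' x ∩ T).card := by
    by_contra hcon
    push Not at hcon
    have : ∑ x ∈ N, (Λ' x ∩ T).card = 0 := sum_eq_zero (fun x hx => by have := hcon x hx; omega)
    omega
  obtain ⟨p1, hp1⟩ := card_pos.mp hyc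
  rw [mem_inter] at hp1
  have hne : ((N.biUnion Λ') ∩ T).Nonempty := ⟨p1, by
    rw [mem_inter, mem_biUnion]; exact ⟨⟨y, hy, hp1.1⟩, hp1.2⟩⟩
  obtain ⟨q, hq, hqmin⟩ := exists_min_image _ (fun q => dd G W p0 q) hne
  rw [mem_inter, mem_biUnion] at hq
  obtain ⟨⟨z, hz, hqz⟩, hqT⟩ := hq
  have hmin : ∀ x ∈ N, ∀ p ∈ Λ' x, p ∈ T → dd G W p0 q ≤ dd G W p0 p := by
    intro x hx p hp hpT
    exact hqmin p (by rw [mem_inter, mem_biUnion]; exact ⟨⟨x, hx, hp⟩, hpT⟩)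
  have PL := potential hW m c N A hAN Λ' hc T.card T rfl hTW hTs
    (fun x hx y hy hxy p hp q hq hpT hqT => h1 x hx y hy hxy p (hsub x hp) q (hsub y hq) hpT hqT)
    (fun x hx p hp q hq hpq hpT hqT => h1' x hx p (hsub x hp) q (hsub x hq) hpq hpT hqT)
    (fun x hx p hp q hq hpq hpT hqT => h2 x hx p (hsub x hp) q (hsub x hq) hpq hpT hqT)
    p0 hp0T (dd G W p0 q) ⟨z, hz, q, hqz, hqT, rfl⟩ hmin
  set δ := dd G W p0 q with hδ
  have hδ2 : 2 * m ≤ δ := hfar z hz q hqz hqT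
  have hsupx : ∀ x ∈ A, (Λ' x ∩ T).sup (fun p => m + 1 + δ - dd G W p0 p) ≤ m + 1 := by
    intro x hx
    apply Finset.sup_le
    intro p hp
    rw [mem_inter] at hp
    have := hmin x (hAN hx) p hp.1 hp.2
    omega
  by_cases hx0A : x0 ∈ A
  · have hsumA : ∑ x ∈ A, (Λ' x ∩ T).card + 1 = ∑ x ∈ A, (Λ x ∩ T).card := by
      rw [← add_sum_erase A _ hx0A, ← add_sum_erase A _ hx0A, ← hcard0]
      have : ∑ x ∈ A.erase x0, (Λ' x ∩ T).card = ∑ x ∈ A.erase x0, (Λ x ∩ T).card :=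
        sum_congr rfl (fun x hx => by rw [hxne x (ne_of_mem_erase hx)])
      rw [this]; omega
    have hsup0 : (Λ' x0 ∩ T).sup (fun p => m + 1 + δ - dd G W p0 p) ≤ δ - 3 * m := by
      apply Finset.sup_le
      intro p hp
      rw [mem_inter, hx0', mem_erase] at hp
      have := h2 x0 hx0A p0 hp0Λ p hp.1.2 hp.1.1.symm hp0T hp.2
      omega
    have hsupsum : ∑ x ∈ A, (Λ' x ∩ T).sup (fun p => m + 1 + δ - dd G W p0 p) ≤
        (A.card - 1) * (m + 1) + (δ - 3 * m) := by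
      rw [← add_sum_erase A _ hx0A]
      have h3 : ∑ x ∈ A.erase x0, (Λ' x ∩ T).sup (fun p => m + 1 + δ - dd G W p0 p) ≤
          (A.card - 1) * (m + 1) := by
        calc _ ≤ ∑ x ∈ A.erase x0, (m + 1) := sum_le_sum (fun x hx => hsupx x (mem_of_mem_erase hx))
          _ = _ := by rw [sum_const, smul_eq_mul, card_erase_of_mem hx0A]
      omega
    have hApos : 1 ≤ A.card := card_pos.mpr ⟨x0, hx0A⟩
    obtain ⟨a', ha'⟩ : ∃ a', A.card = a' + 1 := ⟨A.card - 1, by omega⟩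
    obtain ⟨j, hj⟩ : ∃ j, δ = 2 * m + j := ⟨δ - 2 * m, by omega⟩
    rw [ha'] at hsupsum ⊢
    simp only [Nat.add_sub_cancel] at hsupsum
    rw [hj] at hsupsum PL
    have hj2 : 2 * m + j - 3 * m ≤ c * j := by
      have : j ≤ c * j := Nat.le_mul_of_pos_left j hc1
      omega
    rw [← hsumN, ← hsumA]
    nlinarith [PL, hsupsum, hj2]
  · have hsumA : ∑ x ∈ A, (Λ' x ∩ T).card = ∑ x ∈ A, (Λ x ∩ T).card :=
      sum_congr rfl (fun x hx => by rw [hxne x (fun h => hx0A (h ▸ hx))])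
    have hsupsum : ∑ x ∈ A, (Λ' x ∩ T).sup (fun p => m + 1 + δ - dd G W p0 p) ≤
        A.card * (m + 1) := by
      calc _ ≤ ∑ x ∈ A, (m + 1) := sum_le_sum hsupx
        _ = _ := by rw [sum_const, smul_eq_mul]
    obtain ⟨j, hj⟩ : ∃ j, δ = 2 * m + j := ⟨δ - 2 * m, by omega⟩
    rw [hj] at hsupsum PL
    rw [← hsumN, ← hsumA]
    nlinarith [PL, hsupsum, Nat.zero_le (c * j)]

/-- basic bound: pairwise distances at least `2m` -/
theorem basic_bound {ι : Type*} [DecidableEq ι] {W T : Finset V} (hW : Sparse G W) (m : ℕ)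
    (N : Finset ι) (Λ : ι → Finset V)
    (hTW : T ⊆ W) (hTs : IsSub G T)
    (h1 : ∀ x ∈ N, ∀ y ∈ N, x ≠ y → ∀ p ∈ Λ x, ∀ q ∈ Λ y, p ∈ T → q ∈ T → 2 * m ≤ dd G W p q)
    (h1' : ∀ x ∈ N, ∀ p ∈ Λ x, ∀ q ∈ Λ x, p ≠ q → p ∈ T → q ∈ T → 2 * m ≤ dd G W p q)
    (hL : 2 ≤ ∑ x ∈ N, (Λ x ∩ T).card) :
    m * (∑ x ∈ N, (Λ x ∩ T).card) + 1 ≤ T.card := by
  have := potential_root hW m 1 le_rfl N ∅ (by simp) Λ (by simp) hTW hTs h1 h1' (by simp) hL
  simpa using this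

theorem arith_tree (m a d b e T κ : ℕ) (ha : 1 ≤ a) (hd : κ + 1 = a + d) (hb : b ≤ 2 * d + 1)
    (PR : 2 * a * m * (2 * a + e + b) + (m + 1) * (2 * a + e) + 2 * a ≤
      2 * a * T + a * (m + 1)) :
    ((2 * κ + 3) * m + 1) * (2 * a + e + b) + 1 ≤ (2 * κ + 2) * T + ((2 * κ + 3) * m + 1) := by
  obtain ⟨a', rfl⟩ : ∃ a', a = a' + 1 := ⟨a - 1, by omega⟩
  obtain rfl : κ = a' + d := by omega
  by_contra hcon
  push Not at hcon
  have hfin := Nat.mul_lt_mul_of_pos_left hcon (Nat.succ_pos a')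
  have hPR2 := Nat.mul_le_mul_left (a' + 1 + d) PR
  have hbd := Nat.mul_le_mul_left (m + 1) (Nat.mul_le_mul_left (a' + 1) hb)
  have h1 : 0 ≤ (m + 1) * (d * e) := Nat.zero_le _
  have h2 : 0 ≤ (m + 1) * (d * a') := Nat.zero_le _
  have h3 : 0 ≤ m * (a' * a') := Nat.zero_le _
  simp only [Nat.succ_eq_add_one] at hfin
  ring_nf at hfin hPR2 hbd h1 h2 h3
  nlinarith

/-- the main tree inequality -/
theorem tree_bound {ι : Type*} [DecidableEq ι] {W T : Finset V} (hW : Sparse G W) (m k : ℕ)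
    (hk : 2 ≤ k) (N : Finset ι) (Λ : ι → Finset V)
    (hTW : T ⊆ W) (hTs : IsSub G T)
    (h1 : ∀ x ∈ N, ∀ y ∈ N, x ≠ y → ∀ p ∈ Λ x, ∀ q ∈ Λ y, p ∈ T → q ∈ T → 2 * m ≤ dd G W p q)
    (h2 : ∀ x ∈ N, ∀ p ∈ Λ x, ∀ q ∈ Λ x, p ≠ q → p ∈ T → q ∈ T → 4 * m + 1 ≤ dd G W p q)
    (hnum : 2 * (N.filter (fun x => 2 ≤ (Λ x ∩ T).card)).card +
      (N.filter (fun x => (Λ x ∩ T).card = 1)).card ≤ 2 * k - 1) :
    ((2 * k - 1) * m + 1) * (∑ x ∈ N, (Λ x ∩ T).card) + 1 ≤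
        (2 * k - 2) * T.card + ((2 * k - 1) * m + 1) ∨
      ((N.filter (fun x => 2 ≤ (Λ x ∩ T).card)).card = 0 ∧
        ∑ x ∈ N, (Λ x ∩ T).card = 2 * k - 1 ∧ T.card = (2 * k - 1) * m + 1) := by
  classical
  set A := N.filter (fun x => 2 ≤ (Λ x ∩ T).card) with hA
  set B := N.filter (fun x => (Λ x ∩ T).card = 1) with hB
  set L := ∑ x ∈ N, (Λ x ∩ T).card with hLdef
  have hpos : 0 < T.card := card_pos.mpr hTs.1
  obtain ⟨κ, rfl⟩ : ∃ κ, k = κ + 2 := ⟨k - 2, by omega⟩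
  have hsplit : L = ∑ x ∈ A, (Λ x ∩ T).card + B.card := by
    have e1 : L = ∑ x ∈ A, (Λ x ∩ T).card + ∑ x ∈ N.filter (fun x => ¬ 2 ≤ (Λ x ∩ T).card), (Λ x ∩ T).card := by
      rw [hLdef, hA, sum_filter_add_sum_filter_not]
    rw [e1]
    congr 1
    rw [hB, card_filter, sum_filter]
    apply sum_congr rfl
    intro x _
    by_cases h : 2 ≤ (Λ x ∩ T).card
    · rw [if_neg (not_not.mpr h), if_neg (by omega)]
    · rw [if_pos h]
      split_ifs with h' <;> omega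
  have hLA : 2 * A.card ≤ ∑ x ∈ A, (Λ x ∩ T).card := by
    have : ∑ x ∈ A, 2 ≤ ∑ x ∈ A, (Λ x ∩ T).card := by
      apply sum_le_sum
      intro x hx
      rw [hA, mem_filter] at hx
      exact hx.2
    rw [sum_const, smul_eq_mul] at this
    omega
  have h1' : ∀ x ∈ N, ∀ p ∈ Λ x, ∀ q ∈ Λ x, p ≠ q → p ∈ T → q ∈ T → 2 * m ≤ dd G W p q := by
    intro x hx p hp q hq hpq hpT hqT
    have := h2 x hx p hp q hq hpq hpT hqT
    omega
  by_cases hL2 : L ≤ 1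
  · left
    have : ((2 * (κ + 2) - 1) * m + 1) * L ≤ ((2 * (κ + 2) - 1) * m + 1) * 1 :=
      Nat.mul_le_mul_left _ hL2
    have h3 : 1 ≤ (2 * (κ + 2) - 2) * T.card := by
      have : 1 ≤ 2 * (κ + 2) - 2 := by omega
      exact Nat.one_le_iff_ne_zero.mpr (Nat.mul_ne_zero (by omega) (by omega))
    omega
  · by_cases hA0 : A.card = 0
    · have hbasic := basic_bound hW m N Λ hTW hTs h1 h1' (by omega)
      rw [← hLdef] at hbasic
      have hAe : A = ∅ := card_eq_zero.mp hA0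
      have hLB : L = B.card := by rw [hsplit, hAe]; simp
      have hLle : L ≤ 2 * (κ + 2) - 1 := by omega
      by_cases hLeq : L = 2 * (κ + 2) - 1
      · by_cases hTeq : T.card = (2 * (κ + 2) - 1) * m + 1
        · right; exact ⟨hA0, hLeq, hTeq⟩
        · left
          have h3 : (2 * (κ + 2) - 1) * m + 2 ≤ T.card := by
            rw [hLeq] at hbasic
            have : m * (2 * (κ + 2) - 1) = (2 * (κ + 2) - 1) * m := by ring
            omega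
          rw [hLeq]
          have e1 : 2 * (κ + 2) - 1 = 2 * κ + 3 := by omega
          have e2 : 2 * (κ + 2) - 2 = 2 * κ + 2 := by omega
          rw [e1] at h3 ⊢
          rw [e2]
          nlinarith [h3]
      · left
        have hL3 : L ≤ 2 * κ + 2 := by omega
        have e1 : 2 * (κ + 2) - 1 = 2 * κ + 3 := by omega
        have e2 : 2 * (κ + 2) - 2 = 2 * κ + 2 := by omega
        rw [e1, e2]
        have h4 : (m + 1) * L ≤ (m + 1) * (2 * κ + 2) := Nat.mul_le_mul_left _ hL3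
        nlinarith [hbasic, h4]
    · left
      have hApos : 1 ≤ A.card := by omega
      have PR := potential_root hW m (2 * A.card) (by omega) N A (filter_subset _ _) Λ
        (Or.inl le_rfl) hTW hTs h1 h1' (fun x hx => h2 x (mem_of_mem_filter x hx)) (by omega)
      rw [← hLdef] at PR
      set LA := ∑ x ∈ A, (Λ x ∩ T).card with hLAdef
      set a := A.card with ha
      set b := B.card with hb
      have e1 : 2 * (κ + 2) - 1 = 2 * κ + 3 := by omega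
      have e2 : 2 * (κ + 2) - 2 = 2 * κ + 2 := by omega
      rw [e1] at hnum ⊢
      rw [e2]
      -- k-1 = κ+1, a ≤ κ+1
      obtain ⟨d, hd⟩ : ∃ d, κ + 1 = a + d := ⟨κ + 1 - a, by omega⟩
      have hb2 : b ≤ 2 * d + 1 := by omega
      obtain ⟨e, he⟩ : ∃ e, LA = 2 * a + e := ⟨LA - 2 * a, by omega⟩
      rw [he] at hsplit PR
      rw [hsplit] at PR ⊢
      exact arith_tree m a d b e T.card κ hApos hd hb2 PR

/-- linear bound for the labels with names in `A` -/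
theorem linear_bound {ι : Type*} [DecidableEq ι] {W T : Finset V} (hW : Sparse G W) (m k : ℕ)
    (hk : 2 ≤ k) (A : Finset ι) (hAk : A.card ≤ k - 1) (Λ : ι → Finset V)
    (hTW : T ⊆ W) (hTs : IsSub G T)
    (h1 : ∀ x ∈ A, ∀ y ∈ A, x ≠ y → ∀ p ∈ Λ x, ∀ q ∈ Λ y, p ∈ T → q ∈ T → 2 * m ≤ dd G W p q)
    (h2 : ∀ x ∈ A, ∀ p ∈ Λ x, ∀ q ∈ Λ x, p ≠ q → p ∈ T → q ∈ T → 4 * m + 1 ≤ dd G W p q) :
    ((2 * k - 2) * m + 1) * (∑ x ∈ A, (Λ x ∩ T).card) ≤
      (2 * k - 3) * T.card + (k - 1) * (m + 1) + ((2 * k - 2) * m + 1) := by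
  classical
  set L := ∑ x ∈ A, (Λ x ∩ T).card with hLdef
  by_cases hL2 : L ≤ 1
  · have : ((2 * k - 2) * m + 1) * L ≤ ((2 * k - 2) * m + 1) * 1 := Nat.mul_le_mul_left _ hL2
    omega
  · have h1' : ∀ x ∈ A, ∀ p ∈ Λ x, ∀ q ∈ Λ x, p ≠ q → p ∈ T → q ∈ T → 2 * m ≤ dd G W p q := by
      intro x hx p hp q hq hpq hpT hqT
      have := h2 x hx p hp q hq hpq hpT hqT
      omega
    have hbasic := basic_bound hW m A Λ hTW hTs h1 h1' (by omega)
    rw [← hLdef] at hbasic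
    have hApos : 1 ≤ A.card := by
      by_contra h
      have h3 : A = ∅ := card_eq_zero.mp (by omega)
      rw [hLdef, h3] at hL2
      simp at hL2
    obtain ⟨a', ha'⟩ : ∃ a', A.card = a' + 1 := ⟨A.card - 1, by omega⟩
    have PR := potential_root hW m (2 * a' + 1) (by omega) A A subset_rfl Λ
      (Or.inr ⟨by omega, rfl⟩) hTW hTs h1 h1' h2 (by omega)
    rw [← hLdef, ha'] at PR
    obtain ⟨d, hd⟩ : ∃ d, k = a' + 2 + d := ⟨k - (a' + 2), by omega⟩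
    have e1 : 2 * k - 2 = 2 * a' + 2 * d + 2 := by omega
    have e2 : 2 * k - 3 = 2 * a' + 2 * d + 1 := by omega
    have e3 : k - 1 = a' + 1 + d := by omega
    rw [e1, e2, e3]
    nlinarith [PR, Nat.mul_le_mul_left (2 * d) hbasic]

end

end Pool.Agent.H38
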