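import Pool.Agent.H38.Interface

set_option autoImplicit false
set_option linter.unusedSectionVars false
set_option linter.unusedSimpArgs false
set_option linter.unusedVariables false

namespace Pool.Agent.H38

open Finset

section
variable (K J m p : ℕ) (Lg : Fin J → ℕ)

/-- vertices: hubs, centres, leg vertices, pendant vertices -/
abbrev Vt := Fin K ⊕ (Fin J ⊕ ((((j : Fin J) × Fin (Lg j)) × Fin m) ⊕ Fin p))

variable {K J m p Lg}

abbrev vS (x : Fin K) : Vt K J m p Lg := Sum.inl x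
abbrev vC (j : Fin J) : Vt K J m p Lg := Sum.inr (Sum.inl j)
abbrev vL (e : (j : Fin J) × Fin (Lg j)) (b : Fin m) : Vt K J m p Lg :=
  Sum.inr (Sum.inr (Sum.inl (e, b)))
abbrev vQ (x : Fin p) : Vt K J m p Lg := Sum.inr (Sum.inr (Sum.inr x))

/-- the path along leg `e`, from the centre to the hub -/
def pth (hL : ∀ j, Lg j ≤ K) (e : (j : Fin J) × Fin (Lg j)) (a : ℕ) : Vt K J m p Lg :=
  if a = 0 then vC e.1 else if h : a - 1 < m then vL e ⟨a - 1, h⟩ else vS (Fin.castLE (hL e.1) e.2)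

lemma pth_zero (hL : ∀ j, Lg j ≤ K) (e : (j : Fin J) × Fin (Lg j)) :
    (pth hL e 0 : Vt K J m p Lg) = vC e.1 := by
  simp [pth]

lemma pth_mid (hL : ∀ j, Lg j ≤ K) (e : (j : Fin J) × Fin (Lg j)) (b : ℕ) (h : b < m) :
    (pth hL e (b + 1) : Vt K J m p Lg) = vL e ⟨b, h⟩ := by
  unfold pth
  rw [if_neg (by omega), dif_pos (show b + 1 - 1 < m by omega)]
  rfl

lemma pth_last (hL : ∀ j, Lg j ≤ K) (e : (j : Fin J) × Fin (Lg j)) :
    (pth hL e (m + 1) : Vt K J m p Lg) = vS (Fin.castLE (hL e.1) e.2) := by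
  unfold pth
  rw [if_neg (by omega), dif_neg (by omega)]

/-- directed edges -/
def rel (hL : ∀ j, Lg j ≤ K) (s0 : Fin K) (u v : Vt K J m p Lg) : Prop :=
  (∃ e : (j : Fin J) × Fin (Lg j), ∃ a : ℕ, a ≤ m ∧ u = pth hL e a ∧ v = pth hL e (a + 1)) ∨
    ∃ x : Fin p, u = vQ x ∧ v = vS s0

/-- the extremal graph -/
def gr (hL : ∀ j, Lg j ≤ K) (s0 : Fin K) : SimpleGraph (Vt K J m p Lg) :=
  SimpleGraph.fromRel (rel hL s0)

variable {hL : ∀ j, Lg j ≤ K} {s0 : Fin K}

lemma rel_L {e : (j : Fin J) × Fin (Lg j)} {b : Fin m} {w : Vt K J m p Lg}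
    (h : rel hL s0 (vL e b) w) : w = pth hL e (b.1 + 2) := by
  rcases h with ⟨e', a, ha, h1, h2⟩ | ⟨x, h1, h2⟩
  · rcases Nat.eq_zero_or_pos a with h0 | h0
    · subst h0
      rw [pth_zero] at h1
      simp [vL, vC] at h1
    · obtain ⟨a', rfl⟩ : ∃ a', a = a' + 1 := ⟨a - 1, by omega⟩
      rw [pth_mid hL e' a' (by omega)] at h1
      simp only [vL, Sum.inr.injEq, Sum.inl.injEq, Prod.mk.injEq] at h1
      obtain ⟨rfl, rfl⟩ := h1
      exact h2
  · simp [vL, vQ] at h1

lemma rel_L' {e : (j : Fin J) × Fin (Lg j)} {b : Fin m} {w : Vt K J m p Lg}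
    (h : rel hL s0 w (vL e b)) : w = pth hL e b.1 := by
  rcases h with ⟨e', a, ha, h1, h2⟩ | ⟨x, h1, h2⟩
  · rcases Nat.lt_or_ge a m with h0 | h0
    · rw [pth_mid hL e' a h0] at h2
      simp only [vL, Sum.inr.injEq, Sum.inl.injEq, Prod.mk.injEq] at h2
      obtain ⟨rfl, rfl⟩ := h2
      exact h1
    · obtain rfl : a = m := by omega
      rw [pth_last] at h2
      simp [vL, vS] at h2
  · simp [vL, vS] at h2

lemma adj_L {e : (j : Fin J) × Fin (Lg j)} {b : Fin m} {w : Vt K J m p Lg}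
    (h : (gr hL s0).Adj (vL e b) w) : w = pth hL e (b.1 + 2) ∨ w = pth hL e b.1 := by
  rcases h.2 with h | h
  · exact Or.inl (rel_L h)
  · exact Or.inr (rel_L' h)

lemma adj_C {j : Fin J} {w : Vt K J m p Lg} (h : (gr hL s0).Adj (vC j) w) :
    ∃ i : Fin (Lg j), w = pth hL ⟨j, i⟩ 1 := by
  rcases h.2 with h | h
  · rcases h with ⟨e', a, ha, h1, h2⟩ | ⟨x, h1, h2⟩
    · rcases Nat.eq_zero_or_pos a with h0 | h0
      · subst h0
        rw [pth_zero] at h1
        simp only [vC, Sum.inr.injEq, Sum.inl.injEq] at h1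
        subst h1
        exact ⟨e'.2, h2⟩
      · obtain ⟨a', rfl⟩ : ∃ a', a = a' + 1 := ⟨a - 1, by omega⟩
        rw [pth_mid hL e' a' (by omega)] at h1
        simp [vL, vC] at h1
    · simp [vC, vQ] at h1
  · rcases h with ⟨e', a, ha, h1, h2⟩ | ⟨x, h1, h2⟩
    · rcases Nat.lt_or_ge a m with h0 | h0
      · rw [pth_mid hL e' a h0] at h2
        simp [vL, vC] at h2
      · obtain rfl : a = m := by omega
        rw [pth_last] at h2
        simp [vC, vS] at h2
    · simp [vC, vS] at h2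

lemma adj_S {x : Fin K} {w : Vt K J m p Lg} (h : (gr hL s0).Adj (vS x) w) :
    (∃ e : (j : Fin J) × Fin (Lg j), e.2.1 = x.1 ∧ w = pth hL e m) ∨ ∃ y, w = vQ y := by
  rcases h.2 with h | h
  · rcases h with ⟨e', a, ha, h1, h2⟩ | ⟨x, h1, h2⟩
    · rcases Nat.eq_zero_or_pos a with h0 | h0
      · subst h0
        rw [pth_zero] at h1
        simp [vC, vS] at h1
      · obtain ⟨a', rfl⟩ : ∃ a', a = a' + 1 := ⟨a - 1, by omega⟩
        rw [pth_mid hL e' a' (by omega)] at h1
        simp [vL, vS] at h1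
    · simp [vS, vQ] at h1
  · rcases h with ⟨e', a, ha, h1, h2⟩ | ⟨y, h1, h2⟩
    · rcases Nat.lt_or_ge a m with h0 | h0
      · rw [pth_mid hL e' a h0] at h2
        simp [vL, vS] at h2
      · obtain rfl : a = m := by omega
        rw [pth_last] at h2
        simp only [vS, Sum.inl.injEq] at h2
        left
        refine ⟨e', ?_, h1⟩
        rw [h2]
        rfl
    · exact Or.inr ⟨y, h1⟩

lemma adj_Q {x : Fin p} {w : Vt K J m p Lg} (h : (gr hL s0).Adj (vQ x) w) : w = vS s0 := by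
  rcases h.2 with h | h
  · rcases h with ⟨e', a, ha, h1, h2⟩ | ⟨x, h1, h2⟩
    · rcases Nat.eq_zero_or_pos a with h0 | h0
      · subst h0
        rw [pth_zero] at h1
        simp [vC, vQ] at h1
      · obtain ⟨a', rfl⟩ : ∃ a', a = a' + 1 := ⟨a - 1, by omega⟩
        rw [pth_mid hL e' a' (by omega)] at h1
        simp [vL, vQ] at h1
    · exact h2
  · rcases h with ⟨e', a, ha, h1, h2⟩ | ⟨y, h1, h2⟩
    · rcases Nat.lt_or_ge a m with h0 | h0
      · rw [pth_mid hL e' a h0] at h2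
        simp [vL, vQ] at h2
      · obtain rfl : a = m := by omega
        rw [pth_last] at h2
        simp [vS, vQ] at h2
    · simp [vS, vQ] at h2

section good
variable {D : Finset (Vt K J m p Lg)} (hD : Good (gr hL s0) D)
include hD

lemma good_L {e : (j : Fin J) × Fin (Lg j)} {b : ℕ} (hb : b < m)
    (h : pth hL e (b + 1) ∈ D) : pth hL e b ∈ D ∧ pth hL e (b + 2) ∈ D := by
  obtain ⟨w1, hw1, w2, hw2, hne, a1, a2⟩ := exists_two_of_two_le_dN _ (hD.2 _ h)
  rw [pth_mid hL e b hb] at a1 a2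
  rcases adj_L a1 with h1 | h1 <;> rcases adj_L a2 with h2 | h2
  · exact absurd (h1.trans h2.symm) hne
  · exact ⟨h2 ▸ hw2, h1 ▸ hw1⟩
  · exact ⟨h1 ▸ hw1, h2 ▸ hw2⟩
  · exact absurd (h1.trans h2.symm) hne

lemma good_up {e : (j : Fin J) × Fin (Lg j)} {b : ℕ} (hb1 : 1 ≤ b)
    (h : pth hL e b ∈ D) : ∀ a, b ≤ a → a ≤ m + 1 → pth hL e a ∈ D := by
  intro a hba
  induction a, hba using Nat.le_induction with
  | base => intro _; exact h
  | succ a hba ih =>
    intro ha
    have h1 := ih (by omega)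
    obtain ⟨a', rfl⟩ : ∃ a', a = a' + 1 := ⟨a - 1, by omega⟩
    exact (good_L hD (by omega) h1).2

lemma good_down {e : (j : Fin J) × Fin (Lg j)} : ∀ b : ℕ, b ≤ m →
    pth hL e b ∈ D → ∀ a, a ≤ b → pth hL e a ∈ D := by
  intro b
  induction b with
  | zero => intro _ h a ha; obtain rfl : a = 0 := by omega
            exact h
  | succ b ih =>
    intro hb h a ha
    rcases Nat.lt_or_ge a (b + 1) with h1 | h1
    · exact ih (by omega) (good_L hD (by omega) h).1 a (by omega)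
    · obtain rfl : a = b + 1 := by omega
      exact h

lemma good_C {j : Fin J} (h : vC j ∈ D) : ∃ i i' : Fin (Lg j), i ≠ i' ∧
    (∀ a, a ≤ m + 1 → pth hL ⟨j, i⟩ a ∈ D) ∧ (∀ a, a ≤ m + 1 → pth hL ⟨j, i'⟩ a ∈ D) := by
  obtain ⟨w1, hw1, w2, hw2, hne, a1, a2⟩ := exists_two_of_two_le_dN _ (hD.2 _ h)
  obtain ⟨i, hi⟩ := adj_C a1
  obtain ⟨i', hi'⟩ := adj_C a2
  refine ⟨i, i', ?_, ?_, ?_⟩
  · rintro rfl
    exact hne (hi.trans hi'.symm)
  · intro a ha
    rcases Nat.eq_zero_or_pos a with h0 | h0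
    · subst h0
      rw [pth_zero]
      exact h
    · exact good_up hD le_rfl (hi ▸ hw1) a h0 ha
  · intro a ha
    rcases Nat.eq_zero_or_pos a with h0 | h0
    · subst h0
      rw [pth_zero]
      exact h
    · exact good_up hD le_rfl (hi' ▸ hw2) a h0 ha

lemma good_Q {x : Fin p} : vQ x ∉ D := by
  intro h
  obtain ⟨w1, hw1, w2, hw2, hne, a1, a2⟩ := exists_two_of_two_le_dN _ (hD.2 _ h)
  exact hne ((adj_Q a1).trans (adj_Q a2).symm)

lemma good_S {x : Fin K} (h : vS x ∈ D) : ∃ j j' : Fin J, j ≠ j' ∧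
    vC j ∈ D ∧ vC j' ∈ D := by
  obtain ⟨w1, hw1, w2, hw2, hne, a1, a2⟩ := exists_two_of_two_le_dN _ (hD.2 _ h)
  rcases adj_S a1 with ⟨e, he, h1⟩ | ⟨y, rfl⟩
  swap
  · exact absurd hw1 (good_Q hD)
  rcases adj_S a2 with ⟨e', he', h2⟩ | ⟨y, rfl⟩
  swap
  · exact absurd hw2 (good_Q hD)
  refine ⟨e.1, e'.1, ?_, ?_, ?_⟩
  · intro hee
    apply hne
    rw [h1, h2]
    obtain ⟨j, i⟩ := e
    obtain ⟨j', i'⟩ := e'
    simp only at hee he he'
    subst hee
    have : i = i' := Fin.ext (he.trans he'.symm)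
    rw [this]
  · have := good_down hD m le_rfl (h1 ▸ hw1) 0 (Nat.zero_le _)
    rwa [pth_zero] at this
  · have := good_down hD m le_rfl (h2 ▸ hw2) 0 (Nat.zero_le _)
    rwa [pth_zero] at this

lemma good_main : ∃ j j' : Fin J, j ≠ j' ∧ vC j ∈ D ∧ vC j' ∈ D := by
  obtain ⟨v, hv⟩ := hD.1
  have hC : ∀ j, vC j ∈ D → ∃ j j' : Fin J, j ≠ j' ∧ vC j ∈ D ∧ vC j' ∈ D := by
    intro j hj
    obtain ⟨i, i', _, h1, _⟩ := good_C hD hj
    have := h1 (m + 1) le_rfl
    rw [pth_last] at this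
    exact good_S hD this
  rcases v with x | j | ⟨e, b⟩ | x
  · exact good_S hD hv
  · exact hC j hv
  · have h1 : pth hL e (b.1 + 1) ∈ D := by
      rw [pth_mid hL e b.1 b.2]; exact hv
    have := good_up hD (by omega) h1 (m + 1) (by omega) le_rfl
    rw [pth_last] at this
    exact good_S hD this
  · exact absurd hv (good_Q hD)

lemma good_card : 4 * (m + 1) ≤ D.card ∧
    2 ≤ (D ∩ (univ : Finset (Fin K)).map ⟨Sum.inl, Sum.inl_injective⟩).card := by
  classical
  obtain ⟨j, j', hjj, hj, hj'⟩ := good_main hD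
  obtain ⟨i1, i2, hi, h1, h2⟩ := good_C hD hj
  obtain ⟨i1', i2', hi', h1', h2'⟩ := good_C hD hj'
  set T : Finset ((j : Fin J) × Fin (Lg j)) := {⟨j, i1⟩, ⟨j, i2⟩, ⟨j', i1'⟩, ⟨j', i2'⟩} with hT
  have hTc : T.card = 4 := by
    rw [hT, card_insert_of_notMem, card_insert_of_notMem, card_insert_of_notMem, card_singleton]
    · simp [hi']
    · simp [hjj]
    · simp [hi, hjj]
  have hTm : ∀ e ∈ T, ∀ a, a ≤ m + 1 → pth hL e a ∈ D := by
    intro e he a ha
    rw [hT] at he
    simp only [mem_insert, mem_singleton] at he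
    rcases he with rfl | rfl | rfl | rfl
    · exact h1 a ha
    · exact h2 a ha
    · exact h1' a ha
    · exact h2' a ha
  have hs1 := h1 (m + 1) le_rfl
  have hs2 := h2 (m + 1) le_rfl
  rw [pth_last] at hs1 hs2
  set x1 : Fin K := Fin.castLE (hL j) i1 with hx1
  set x2 : Fin K := Fin.castLE (hL j) i2 with hx2
  have hx12 : x1 ≠ x2 := fun h => hi (Fin.castLE_injective _ h)
  constructor
  · have hsub : ({x1, x2} : Finset (Fin K)).disjSum (({j, j'} : Finset (Fin J)).disjSum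
        ((T ×ˢ (univ : Finset (Fin m))).disjSum (∅ : Finset (Fin p)))) ⊆ D := by
      intro v hv
      rcases v with x | c | ⟨e, b⟩ | x
      · rw [inl_mem_disjSum, mem_insert, mem_singleton] at hv
        rcases hv with rfl | rfl
        · exact hs1
        · exact hs2
      · rw [inr_mem_disjSum, inl_mem_disjSum, mem_insert, mem_singleton] at hv
        rcases hv with rfl | rfl
        · exact hj
        · exact hj'
      · rw [inr_mem_disjSum, inr_mem_disjSum, inl_mem_disjSum, mem_product] at hv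
        have := hTm e hv.1 (b.1 + 1) (by omega)
        rwa [pth_mid hL e b.1 b.2] at this
      · rw [inr_mem_disjSum, inr_mem_disjSum, inr_mem_disjSum] at hv
        simp at hv
    have h3 := card_le_card hsub
    rw [card_disjSum, card_disjSum, card_disjSum, card_pair hx12, card_pair hjj, card_product,
      hTc, card_univ, Fintype.card_fin, card_empty] at h3
    omega
  · have hsub : ({Sum.inl x1, Sum.inl x2} : Finset (Vt K J m p Lg)) ⊆
        D ∩ (univ : Finset (Fin K)).map ⟨Sum.inl, Sum.inl_injective⟩ := by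
      intro v hv
      rw [mem_insert, mem_singleton] at hv
      rw [mem_inter, mem_map]
      rcases hv with rfl | rfl
      · exact ⟨hs1, x1, mem_univ _, rfl⟩
      · exact ⟨hs2, x2, mem_univ _, rfl⟩
    have h3 := card_le_card hsub
    rwa [card_pair (fun h => hx12 (Sum.inl_injective h))] at h3

end good

/-- rank of a vertex -/
def rk : Vt K J m p Lg → ℕ
  | Sum.inl _ => m + 1
  | Sum.inr (Sum.inl _) => 0
  | Sum.inr (Sum.inr (Sum.inl (_, b))) => b.1 + 1
  | Sum.inr (Sum.inr (Sum.inr _)) => m + 2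

lemma rk_pth (e : (j : Fin J) × Fin (Lg j)) {a : ℕ} (ha : a ≤ m + 1) :
    rk (pth hL e a : Vt K J m p Lg) = a := by
  rcases Nat.eq_zero_or_pos a with h0 | h0
  · subst h0; rw [pth_zero]; rfl
  · obtain ⟨a', rfl⟩ : ∃ a', a = a' + 1 := ⟨a - 1, by omega⟩
    rcases Nat.lt_or_ge a' m with h1 | h1
    · rw [pth_mid hL e a' h1]; rfl
    · obtain rfl : a' = m := by omega
      rw [pth_last]; rfl

/-- the edges -/
def ed (hL : ∀ j, Lg j ≤ K) (s0 : Fin K) :
    (((j : Fin J) × Fin (Lg j)) × Fin (m + 1)) ⊕ Fin p → Sym2 (Vt K J m p Lg)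
  | Sum.inl (e, a) => s(pth hL e a.1, pth hL e (a.1 + 1))
  | Sum.inr x => s(vQ x, vS s0)

lemma ed_mem (x : (((j : Fin J) × Fin (Lg j)) × Fin (m + 1)) ⊕ Fin p) :
    ed hL s0 x ∈ (gr hL s0).edgeSet := by
  rcases x with ⟨e, a⟩ | x
  · have h1 := rk_pth (hL := hL) (p := p) e (show a.1 ≤ m + 1 by omega)
    have h2 := rk_pth (hL := hL) (p := p) e (show a.1 + 1 ≤ m + 1 by omega)
    refine ⟨?_, Or.inl (Or.inl ⟨e, a.1, by omega, rfl, rfl⟩)⟩
    intro h
    have h' : (pth hL e a.1 : Vt K J m p Lg) = pth hL e (a.1 + 1) := h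
    rw [h', h2] at h1
    omega
  · refine ⟨by simp [vQ, vS], Or.inl (Or.inr ⟨x, rfl, rfl⟩)⟩

lemma ed_inj : Function.Injective (ed hL s0 :
    (((j : Fin J) × Fin (Lg j)) × Fin (m + 1)) ⊕ Fin p → Sym2 (Vt K J m p Lg)) := by
  rintro (⟨e, a⟩ | x) (⟨e', a'⟩ | x') h
  · have r1 := rk_pth (hL := hL) (p := p) e (show a.1 ≤ m + 1 by omega)
    have r2 := rk_pth (hL := hL) (p := p) e (show a.1 + 1 ≤ m + 1 by omega)
    have r1' := rk_pth (hL := hL) (p := p) e' (show a'.1 ≤ m + 1 by omega)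
    have r2' := rk_pth (hL := hL) (p := p) e' (show a'.1 + 1 ≤ m + 1 by omega)
    have h' : s(pth hL e a.1, pth hL e (a.1 + 1)) =
      (s(pth hL e' a'.1, pth hL e' (a'.1 + 1)) : Sym2 (Vt K J m p Lg)) := h
    rw [Sym2.eq_iff] at h'
    rcases h' with ⟨h1, h2⟩ | ⟨h1, h2⟩
    · have haa : a = a' := by
        apply Fin.ext
        rw [h1, r1'] at r1
        exact r1.symm
      subst haa
      have hee : e = e' := by
        rcases Nat.lt_or_ge a.1 m with h3 | h3
        · rw [pth_mid hL e a.1 h3, pth_mid hL e' a.1 h3] at h2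
          simp only [vL, Sum.inr.injEq, Sum.inl.injEq, Prod.mk.injEq] at h2
          exact h2.1
        · have ham : a.1 = m := by omega
          rw [ham, pth_last, pth_last] at h2
          have h4 : e.1 = e'.1 := by
            rcases Nat.eq_zero_or_pos a.1 with h0 | h0
            · rw [h0, pth_zero, pth_zero] at h1
              simpa [vC] using h1
            · obtain ⟨c, hc⟩ : ∃ c, a.1 = c + 1 := ⟨a.1 - 1, by omega⟩
              rw [hc, pth_mid hL e c (by omega), pth_mid hL e' c (by omega)] at h1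
              simp only [vL, Sum.inr.injEq, Sum.inl.injEq, Prod.mk.injEq] at h1
              rw [h1.1]
          obtain ⟨j, i⟩ := e
          obtain ⟨j', i'⟩ := e'
          simp only at h4
          subst h4
          simp only [vS, Sum.inl.injEq] at h2
          have := Fin.castLE_injective _ h2
          rw [this]
      rw [hee]
    · exfalso
      rw [h1, r2'] at r1
      rw [h2, r1'] at r2
      omega
  · exfalso
    have h' : s(pth hL e a.1, pth hL e (a.1 + 1)) = (s(vQ x', vS s0) : Sym2 (Vt K J m p Lg)) := h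
    have r1 := rk_pth (hL := hL) (p := p) e (show a.1 ≤ m + 1 by omega)
    have r2 := rk_pth (hL := hL) (p := p) e (show a.1 + 1 ≤ m + 1 by omega)
    have r3 : rk (vQ x' : Vt K J m p Lg) = m + 2 := rfl
    rw [Sym2.eq_iff] at h'
    rcases h' with ⟨h1, h2⟩ | ⟨h1, h2⟩
    · rw [h1, r3] at r1; omega
    · rw [h2, r3] at r2; omega
  · exfalso
    have h' : (s(vQ x, vS s0) : Sym2 (Vt K J m p Lg)) = s(pth hL e' a'.1, pth hL e' (a'.1 + 1)) := h
    have r1 := rk_pth (hL := hL) (p := p) e' (show a'.1 ≤ m + 1 by omega)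
    have r2 := rk_pth (hL := hL) (p := p) e' (show a'.1 + 1 ≤ m + 1 by omega)
    have r3 : rk (vQ x : Vt K J m p Lg) = m + 2 := rfl
    rw [Sym2.eq_iff] at h'
    rcases h' with ⟨h1, h2⟩ | ⟨h1, h2⟩
    · rw [← h1, r3] at r1; omega
    · rw [← h1, r3] at r2; omega
  · have h' : (s(vQ x, vS s0) : Sym2 (Vt K J m p Lg)) = s(vQ x', vS s0) := h
    rw [Sym2.eq_iff] at h'
    rcases h' with ⟨h1, h2⟩ | ⟨h1, h2⟩
    · simp only [vQ, Sum.inr.injEq] at h1
      rw [h1]
    · simp [vQ, vS] at h1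

lemma card_Vt : Fintype.card (Vt K J m p Lg) = K + (J + ((∑ j, Lg j) * m + p)) := by
  simp [Vt]

lemma edges_ge : (∑ j, Lg j) * (m + 1) + p ≤ (gr hL s0 : SimpleGraph (Vt K J m p Lg)).edgeSet.ncard := by
  classical
  have h1 : Set.range (ed hL s0) ⊆ (gr hL s0 : SimpleGraph (Vt K J m p Lg)).edgeSet := by
    rintro _ ⟨x, rfl⟩
    exact ed_mem x
  have h2 := Set.ncard_le_ncard h1 (Set.toFinite _)
  have h3 : (Set.range (ed hL s0 : (((j : Fin J) × Fin (Lg j)) × Fin (m + 1)) ⊕ Fin p →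
      Sym2 (Vt K J m p Lg))).ncard = (∑ j, Lg j) * (m + 1) + p := by
    rw [← Set.image_univ, Set.ncard_image_of_injective _ ed_inj, Set.ncard_univ,
      Nat.card_eq_fintype_card]
    simp
  omega

end

end Pool.Agent.H38
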