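import Pool.Agent.H38.Final3
import Pool.Agent.H38.Interface

set_option autoImplicit false
set_option linter.unusedSectionVars false
set_option linter.unusedSimpArgs false
set_option linter.unusedVariables false

namespace Pool.Agent.H38.L3

open Finset

/-- forest given by a parent function on natural numbers -/
def parGraph (n root : ℕ) (par : ℕ → ℕ) : SimpleGraph ℕ :=
  SimpleGraph.fromRel (fun x y => x < n ∧ x ≠ root ∧ par x = y)

lemma parGraph_adj {n root : ℕ} {par : ℕ → ℕ} {x y : ℕ} (h : (parGraph n root par).Adj x y) :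
    (x < n ∧ x ≠ root ∧ par x = y) ∨ (y < n ∧ y ≠ root ∧ par y = x) := h.2

lemma parGraph_sparse (n root : ℕ) (par rk : ℕ → ℕ)
    (hpar : ∀ x, x < n → x ≠ root → rk (par x) < rk x) :
    Sparse (parGraph n root par) (univ.image (fun x : Fin n => x.1)) := by
  classical
  intro U hU hne
  obtain ⟨x0, hx0, hmin⟩ := exists_min_image U rk hne
  have hsub : (U.sym2.filter (fun e => e ∈ (parGraph n root par).edgeSet)) ⊆
      (U.erase x0).image (fun x => s(x, par x)) := by
    intro e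
    induction e using Sym2.ind with
    | _ x y =>
      intro he
      rw [mem_filter, Finset.mk_mem_sym2_iff, SimpleGraph.mem_edgeSet] at he
      rw [mem_image]
      rcases parGraph_adj he.2 with ⟨h1, h2, h3⟩ | ⟨h1, h2, h3⟩
      · refine ⟨x, ?_, by rw [h3]⟩
        rw [mem_erase]
        refine ⟨?_, he.1.1⟩
        rintro rfl
        have h4 := hpar x h1 h2
        have h5 := hmin y he.1.2
        rw [h3] at h4
        omega
      · refine ⟨y, ?_, by rw [h3, Sym2.eq_swap]⟩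
        rw [mem_erase]
        refine ⟨?_, he.1.2⟩
        rintro rfl
        have h4 := hpar y h1 h2
        have h5 := hmin x he.1.1
        rw [h3] at h4
        omega
  have h1 := card_le_card hsub
  have h2 : ((U.erase x0).image (fun x => s(x, par x))).card ≤ (U.erase x0).card := card_image_le
  rw [card_erase_of_mem hx0] at h2
  have h3 : 0 < U.card := card_pos.mpr hne
  unfold eI
  have h4 : (U.sym2.filter (fun e => e ∈ (parGraph n root par).edgeSet)).card =
    (Finset.filter (fun e => e ∈ (parGraph n root par).edgeSet) U.sym2).card := rfl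
  refine lt_of_le_of_lt ?_ (show U.card - 1 < U.card by omega)
  refine le_trans ?_ (h1.trans h2)
  apply le_of_eq
  congr 1

section
variable (K J m p : ℕ) (Lg N : Fin J → ℕ)

/-- vertices: hubs, core vertices, hair vertices, pendant vertices -/
abbrev Vt := Fin K ⊕ (((j : Fin J) × Fin (N j)) ⊕ ((((j : Fin J) × Fin (Lg j)) × Fin m) ⊕ Fin p))

variable {K J m p Lg N}

abbrev vS (x : Fin K) : Vt K J m p Lg N := Sum.inl x
abbrev vC (c : (j : Fin J) × Fin (N j)) : Vt K J m p Lg N := Sum.inr (Sum.inl c)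
abbrev vL (e : (j : Fin J) × Fin (Lg j)) (b : Fin m) : Vt K J m p Lg N :=
  Sum.inr (Sum.inr (Sum.inl (e, b)))
abbrev vQ (x : Fin p) : Vt K J m p Lg N := Sum.inr (Sum.inr (Sum.inr x))

/-- the path along cell `e`, from the foot to the hub -/
def pth (hL : ∀ j, Lg j ≤ K) (hN : ∀ j, Lg j ≤ N j) (e : (j : Fin J) × Fin (Lg j)) (a : ℕ) :
    Vt K J m p Lg N :=
  if a = 0 then vC ⟨e.1, Fin.castLE (hN e.1) e.2⟩ else
    if h : a - 1 < m then vL e ⟨a - 1, h⟩ else vS (Fin.castLE (hL e.1) e.2)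

variable {hL : ∀ j, Lg j ≤ K} {hN : ∀ j, Lg j ≤ N j}

lemma pth_zero (e : (j : Fin J) × Fin (Lg j)) :
    (pth hL hN e 0 : Vt K J m p Lg N) = vC ⟨e.1, Fin.castLE (hN e.1) e.2⟩ := by
  simp [pth]

lemma pth_mid (e : (j : Fin J) × Fin (Lg j)) (b : ℕ) (h : b < m) :
    (pth hL hN e (b + 1) : Vt K J m p Lg N) = vL e ⟨b, h⟩ := by
  unfold pth
  rw [if_neg (by omega), dif_pos (show b + 1 - 1 < m by omega)]
  rfl

lemma pth_last (e : (j : Fin J) × Fin (Lg j)) :
    (pth hL hN e (m + 1) : Vt K J m p Lg N) = vS (Fin.castLE (hL e.1) e.2) := by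
  unfold pth
  rw [if_neg (by omega), dif_neg (by omega)]

/-- directed edges -/
def rel (hL : ∀ j, Lg j ≤ K) (hN : ∀ j, Lg j ≤ N j) (root : Fin J → ℕ) (par : Fin J → ℕ → ℕ)
    (s0 : Fin K) (u v : Vt K J m p Lg N) : Prop :=
  (∃ e : (j : Fin J) × Fin (Lg j), ∃ a : ℕ, a ≤ m ∧ u = pth hL hN e a ∧
      v = pth hL hN e (a + 1)) ∨
    (∃ x : Fin p, u = vQ x ∧ v = vS s0) ∨
    (∃ (j : Fin J) (x y : Fin (N j)), x.1 ≠ root j ∧ par j x.1 = y.1 ∧ u = vC ⟨j, x⟩ ∧
      v = vC ⟨j, y⟩)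

/-- the extremal graph -/
def gr (hL : ∀ j, Lg j ≤ K) (hN : ∀ j, Lg j ≤ N j) (root : Fin J → ℕ) (par : Fin J → ℕ → ℕ)
    (s0 : Fin K) : SimpleGraph (Vt K J m p Lg N) :=
  SimpleGraph.fromRel (rel hL hN root par s0)

variable {root : Fin J → ℕ} {par : Fin J → ℕ → ℕ} {s0 : Fin K}

lemma rel_L {e : (j : Fin J) × Fin (Lg j)} {b : Fin m} {w : Vt K J m p Lg N}
    (h : rel hL hN root par s0 (vL e b) w) : w = pth hL hN e (b.1 + 2) := by
  rcases h with ⟨e', a, ha, h1, h2⟩ | ⟨x, h1, h2⟩ | ⟨j, x, y, _, _, h1, h2⟩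
  · rcases Nat.eq_zero_or_pos a with h0 | h0
    · subst h0
      rw [pth_zero] at h1
      simp [vL, vC] at h1
    · obtain ⟨a', rfl⟩ : ∃ a', a = a' + 1 := ⟨a - 1, by omega⟩
      rw [pth_mid e' a' (by omega)] at h1
      simp only [vL, Sum.inr.injEq, Sum.inl.injEq, Prod.mk.injEq] at h1
      obtain ⟨rfl, rfl⟩ := h1
      exact h2
  · simp [vL, vQ] at h1
  · simp [vL, vC] at h1

lemma rel_L' {e : (j : Fin J) × Fin (Lg j)} {b : Fin m} {w : Vt K J m p Lg N}
    (h : rel hL hN root par s0 w (vL e b)) : w = pth hL hN e b.1 := by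
  rcases h with ⟨e', a, ha, h1, h2⟩ | ⟨x, h1, h2⟩ | ⟨j, x, y, _, _, h1, h2⟩
  · rcases Nat.lt_or_ge a m with h0 | h0
    · rw [pth_mid e' a h0] at h2
      simp only [vL, Sum.inr.injEq, Sum.inl.injEq, Prod.mk.injEq] at h2
      obtain ⟨rfl, rfl⟩ := h2
      exact h1
    · obtain rfl : a = m := by omega
      rw [pth_last] at h2
      simp [vL, vS] at h2
  · simp [vL, vS] at h2
  · simp [vL, vC] at h2

lemma adj_L {e : (j : Fin J) × Fin (Lg j)} {b : Fin m} {w : Vt K J m p Lg N}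
    (h : (gr hL hN root par s0).Adj (vL e b) w) :
    w = pth hL hN e (b.1 + 2) ∨ w = pth hL hN e b.1 := by
  rcases h.2 with h | h
  · exact Or.inl (rel_L h)
  · exact Or.inr (rel_L' h)

lemma adj_C {j : Fin J} {x : Fin (N j)} {w : Vt K J m p Lg N}
    (h : (gr hL hN root par s0).Adj (vC ⟨j, x⟩) w) :
    (∃ i : Fin (Lg j), i.1 = x.1 ∧ w = pth hL hN ⟨j, i⟩ 1) ∨
      (∃ y : Fin (N j), (parGraph (N j) (root j) (par j)).Adj x.1 y.1 ∧ w = vC ⟨j, y⟩) := by
  have hne := h.1
  rcases h.2 with h | h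
  · rcases h with ⟨e', a, ha, h1, h2⟩ | ⟨x, h1, h2⟩ | ⟨j', x', y', hx', hp', h1, h2⟩
    · rcases Nat.eq_zero_or_pos a with h0 | h0
      · subst h0
        rw [pth_zero] at h1
        obtain ⟨j', i'⟩ := e'
        simp only [vC, Sum.inr.injEq, Sum.inl.injEq, Sigma.mk.inj_iff] at h1
        obtain ⟨rfl, h1⟩ := h1
        rw [heq_eq_eq] at h1
        left
        refine ⟨i', ?_, h2⟩
        rw [h1]; rfl
      · obtain ⟨a', rfl⟩ : ∃ a', a = a' + 1 := ⟨a - 1, by omega⟩
        rw [pth_mid e' a' (by omega)] at h1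
        simp [vL, vC] at h1
    · simp [vC, vQ] at h1
    · simp only [vC, Sum.inr.injEq, Sum.inl.injEq, Sigma.mk.inj_iff] at h1
      obtain ⟨rfl, h1⟩ := h1
      rw [heq_eq_eq] at h1
      subst h1
      right
      refine ⟨y', ⟨?_, Or.inl ⟨x.2, hx', hp'⟩⟩, h2⟩
      intro hxy
      apply hne
      rw [h2, Fin.ext hxy]
  · rcases h with ⟨e', a, ha, h1, h2⟩ | ⟨x, h1, h2⟩ | ⟨j', x', y', hx', hp', h1, h2⟩
    · rcases Nat.lt_or_ge a m with h0 | h0
      · rw [pth_mid e' a h0] at h2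
        simp [vL, vC] at h2
      · obtain rfl : a = m := by omega
        rw [pth_last] at h2
        simp [vC, vS] at h2
    · simp [vC, vS] at h2
    · simp only [vC, Sum.inr.injEq, Sum.inl.injEq, Sigma.mk.inj_iff] at h2
      obtain ⟨rfl, h2⟩ := h2
      rw [heq_eq_eq] at h2
      subst h2
      right
      refine ⟨x', ⟨?_, Or.inr ⟨x'.2, hx', hp'⟩⟩, h1⟩
      intro hxy
      apply hne
      rw [h1, Fin.ext hxy]

lemma adj_S {x : Fin K} {w : Vt K J m p Lg N} (h : (gr hL hN root par s0).Adj (vS x) w) :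
    (∃ e : (j : Fin J) × Fin (Lg j), e.2.1 = x.1 ∧ w = pth hL hN e m) ∨ ∃ y, w = vQ y := by
  rcases h.2 with h | h
  · rcases h with ⟨e', a, ha, h1, h2⟩ | ⟨x, h1, h2⟩ | ⟨j', x', y', hx', hp', h1, h2⟩
    · rcases Nat.eq_zero_or_pos a with h0 | h0
      · subst h0
        rw [pth_zero] at h1
        simp [vC, vS] at h1
      · obtain ⟨a', rfl⟩ : ∃ a', a = a' + 1 := ⟨a - 1, by omega⟩
        rw [pth_mid e' a' (by omega)] at h1
        simp [vL, vS] at h1
    · simp [vS, vQ] at h1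
    · simp [vS, vC] at h1
  · rcases h with ⟨e', a, ha, h1, h2⟩ | ⟨y, h1, h2⟩ | ⟨j', x', y', hx', hp', h1, h2⟩
    · rcases Nat.lt_or_ge a m with h0 | h0
      · rw [pth_mid e' a h0] at h2
        simp [vL, vS] at h2
      · obtain rfl : a = m := by omega
        rw [pth_last] at h2
        simp only [vS, Sum.inl.injEq] at h2
        left
        refine ⟨e', ?_, h1⟩
        rw [h2]
        rfl
    · exact Or.inr ⟨y, h1⟩
    · simp [vS, vC] at h2

lemma adj_Q {x : Fin p} {w : Vt K J m p Lg N} (h : (gr hL hN root par s0).Adj (vQ x) w) :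
    w = vS s0 := by
  rcases h.2 with h | h
  · rcases h with ⟨e', a, ha, h1, h2⟩ | ⟨x, h1, h2⟩ | ⟨j', x', y', hx', hp', h1, h2⟩
    · rcases Nat.eq_zero_or_pos a with h0 | h0
      · subst h0
        rw [pth_zero] at h1
        simp [vC, vQ] at h1
      · obtain ⟨a', rfl⟩ : ∃ a', a = a' + 1 := ⟨a - 1, by omega⟩
        rw [pth_mid e' a' (by omega)] at h1
        simp [vL, vQ] at h1
    · exact h2
    · simp [vQ, vC] at h1
  · rcases h with ⟨e', a, ha, h1, h2⟩ | ⟨y, h1, h2⟩ | ⟨j', x', y', hx', hp', h1, h2⟩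
    · rcases Nat.lt_or_ge a m with h0 | h0
      · rw [pth_mid e' a h0] at h2
        simp [vL, vQ] at h2
      · obtain rfl : a = m := by omega
        rw [pth_last] at h2
        simp [vS, vQ] at h2
    · simp [vS, vQ] at h2
    · simp [vQ, vC] at h2

section good
variable {D : Finset (Vt K J m p Lg N)} (hD : Good (gr hL hN root par s0) D)
include hD

lemma good_L {e : (j : Fin J) × Fin (Lg j)} {b : ℕ} (hb : b < m)
    (h : pth hL hN e (b + 1) ∈ D) : pth hL hN e b ∈ D ∧ pth hL hN e (b + 2) ∈ D := by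
  obtain ⟨w1, hw1, w2, hw2, hne, a1, a2⟩ := exists_two_of_two_le_dN _ (hD.2 _ h)
  rw [pth_mid e b hb] at a1 a2
  rcases adj_L a1 with h1 | h1 <;> rcases adj_L a2 with h2 | h2
  · exact absurd (h1.trans h2.symm) hne
  · exact ⟨h2 ▸ hw2, h1 ▸ hw1⟩
  · exact ⟨h1 ▸ hw1, h2 ▸ hw2⟩
  · exact absurd (h1.trans h2.symm) hne

lemma good_up {e : (j : Fin J) × Fin (Lg j)} {b : ℕ} (hb1 : 1 ≤ b)
    (h : pth hL hN e b ∈ D) : ∀ a, b ≤ a → a ≤ m + 1 → pth hL hN e a ∈ D := by
  intro a hba
  induction a, hba using Nat.le_induction with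
  | base => intro _; exact h
  | succ a hba ih =>
    intro ha
    have h1 := ih (by omega)
    obtain ⟨a', rfl⟩ : ∃ a', a = a' + 1 := ⟨a - 1, by omega⟩
    exact (good_L hD (by omega) h1).2

lemma good_down {e : (j : Fin J) × Fin (Lg j)} : ∀ b : ℕ, b ≤ m →
    pth hL hN e b ∈ D → ∀ a, a ≤ b → pth hL hN e a ∈ D := by
  intro b
  induction b with
  | zero => intro _ h a ha; obtain rfl : a = 0 := by omega
            exact h
  | succ b ih =>
    intro hb h a ha
    rcases Nat.lt_or_ge a (b + 1) with h1 | h1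
    · exact ih (by omega) (good_L hD (by omega) h).1 a (by omega)
    · obtain rfl : a = b + 1 := by omega
      exact h

lemma good_Q {x : Fin p} : vQ x ∉ D := by
  intro h
  obtain ⟨w1, hw1, w2, hw2, hne, a1, a2⟩ := exists_two_of_two_le_dN _ (hD.2 _ h)
  exact hne ((adj_Q a1).trans (adj_Q a2).symm)

/-- a foot together with the next vertex gives the whole cell -/
lemma full_of_foot {e : (j : Fin J) × Fin (Lg j)} (h0 : pth hL hN e 0 ∈ D)
    (h1 : pth hL hN e 1 ∈ D) : ∀ a, a ≤ m + 1 → pth hL hN e a ∈ D := by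
  intro a ha
  rcases Nat.eq_zero_or_pos a with h | h
  · subst h; exact h0
  · exact good_up hD le_rfl h1 a h ha

lemma good_S {x : Fin K} (h : vS x ∈ D) : ∃ e e' : (j : Fin J) × Fin (Lg j), e.1 ≠ e'.1 ∧
    vC ⟨e.1, Fin.castLE (hN e.1) e.2⟩ ∈ D ∧ vC ⟨e'.1, Fin.castLE (hN e'.1) e'.2⟩ ∈ D := by
  obtain ⟨w1, hw1, w2, hw2, hne, a1, a2⟩ := exists_two_of_two_le_dN _ (hD.2 _ h)
  rcases adj_S a1 with ⟨e, he, h1⟩ | ⟨y, rfl⟩
  swap
  · exact absurd hw1 (good_Q hD)
  rcases adj_S a2 with ⟨e', he', h2⟩ | ⟨y, rfl⟩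
  swap
  · exact absurd hw2 (good_Q hD)
  refine ⟨e, e', ?_, ?_, ?_⟩
  · intro hee
    apply hne
    rw [h1, h2]
    obtain ⟨j, i⟩ := e
    obtain ⟨j', i'⟩ := e'
    simp only at hee he he'
    subst hee
    have : i = i' := Fin.ext (he.trans he'.symm)
    rw [this]
  · have := good_down hD m le_rfl (h1 ▸ hw1) 0 (Nat.zero_le _)
    rwa [pth_zero] at this
  · have := good_down hD m le_rfl (h2 ▸ hw2) 0 (Nat.zero_le _)
    rwa [pth_zero] at this

end good

open scoped Classical in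
/-- core vertices of component `j` lying in `D` -/
noncomputable def FF (D : Finset (Vt K J m p Lg N)) (j : Fin J) : Finset (Fin (N j)) :=
  (univ : Finset (Fin (N j))).filter (fun x => (vC ⟨j, x⟩ : Vt K J m p Lg N) ∈ D)

open scoped Classical in
/-- full cells of component `j` -/
noncomputable def Fu (hL : ∀ j, Lg j ≤ K) (hN : ∀ j, Lg j ≤ N j) (D : Finset (Vt K J m p Lg N))
    (j : Fin J) : Finset (Fin (Lg j)) :=
  (univ : Finset (Fin (Lg j))).filter
    (fun i => ∀ a, a ≤ m + 1 → (pth hL hN ⟨j, i⟩ a : Vt K J m p Lg N) ∈ D)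

lemma mem_FF {D : Finset (Vt K J m p Lg N)} {j : Fin J} {x : Fin (N j)} :
    x ∈ FF D j ↔ (vC ⟨j, x⟩ : Vt K J m p Lg N) ∈ D := by
  unfold FF; simp

lemma mem_Fu {D : Finset (Vt K J m p Lg N)} {j : Fin J} {i : Fin (Lg j)} :
    i ∈ Fu hL hN D j ↔ ∀ a, a ≤ m + 1 → (pth hL hN ⟨j, i⟩ a : Vt K J m p Lg N) ∈ D := by
  unfold Fu; simp

lemma Fu_sub_FF {D : Finset (Vt K J m p Lg N)} {j : Fin J} :
    (Fu hL hN D j).map ⟨fun i => Fin.castLE (hN j) i, Fin.castLE_injective _⟩ ⊆ FF D j := by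
  intro x hx
  rw [mem_map] at hx
  obtain ⟨i, hi, rfl⟩ := hx
  rw [mem_FF]
  have := mem_Fu.mp hi 0 (by omega)
  rwa [pth_zero] at this

/-- sets of natural numbers behind `FF` -/
noncomputable def FN (D : Finset (Vt K J m p Lg N)) (j : Fin J) : Finset ℕ :=
  (FF D j).map ⟨fun x => x.1, Fin.val_injective⟩

lemma FN_card (D : Finset (Vt K J m p Lg N)) (j : Fin J) : (FN D j).card = (FF D j).card :=
  card_map _

open scoped Classical in
lemma core_deg {D : Finset (Vt K J m p Lg N)} (hD : Good (gr hL hN root par s0) D) {j : Fin J}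
    {x : Fin (N j)} (hx : x ∈ FF D j) :
    2 ≤ dN (parGraph (N j) (root j) (par j)) (FN D j) x.1 +
      (if x ∈ (Fu hL hN D j).map ⟨fun i => Fin.castLE (hN j) i, Fin.castLE_injective _⟩
        then 1 else 0) := by
  rw [mem_FF] at hx
  have h2 := hD.2 _ hx
  refine h2.trans ?_
  set Q := parGraph (N j) (root j) (par j) with hQ
  set A1 : Finset (Vt K J m p Lg N) :=
    ((FF D j).filter (fun y => Q.Adj x.1 y.1)).image (fun y => vC ⟨j, y⟩) with hA1
  set A2 : Finset (Vt K J m p Lg N) :=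
    (if h : x ∈ (Fu hL hN D j).map ⟨fun i => Fin.castLE (hN j) i, Fin.castLE_injective _⟩
      then (univ : Finset (Fin (Lg j))).filter (fun i => i.1 = x.1) |>.image
        (fun i => pth hL hN ⟨j, i⟩ 1) else ∅) with hA2
  have hsub : D.filter (fun w => (gr hL hN root par s0).Adj (vC ⟨j, x⟩) w) ⊆ A1 ∪ A2 := by
    intro w hw
    rw [mem_filter] at hw
    rw [mem_union]
    rcases adj_C hw.2 with ⟨i, hi, hw2⟩ | ⟨y, hy, hw2⟩
    · right
      have hxe : Fin.castLE (hN j) i = x := Fin.ext hi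
      have hfull : i ∈ Fu hL hN D j := by
        rw [mem_Fu]
        apply full_of_foot hD
        · rw [pth_zero]
          rw [← hxe] at hx
          exact hx
        · rw [← hw2]; exact hw.1
      have hm : x ∈ (Fu hL hN D j).map ⟨fun i => Fin.castLE (hN j) i, Fin.castLE_injective _⟩ := by
        rw [mem_map]
        exact ⟨i, hfull, hxe⟩
      rw [hA2, dif_pos hm, mem_image]
      exact ⟨i, by rw [mem_filter]; exact ⟨mem_univ _, hi⟩, hw2.symm⟩
    · left
      rw [hA1, mem_image]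
      refine ⟨y, ?_, hw2.symm⟩
      rw [mem_filter, mem_FF]
      exact ⟨hw2 ▸ hw.1, hy⟩
  have hc := card_le_card hsub
  have hc2 := card_union_le A1 A2
  have hA1c : A1.card ≤ dN Q (FN D j) x.1 := by
    refine card_image_le.trans ?_
    unfold dN FN
    rw [filter_map, card_map]
    exact le_of_eq rfl
  have hA2c : A2.card ≤ (if x ∈ (Fu hL hN D j).map ⟨fun i => Fin.castLE (hN j) i,
      Fin.castLE_injective _⟩ then 1 else 0) := by
    rw [hA2]
    split_ifs with h
    · refine card_image_le.trans ?_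
      rw [card_le_one]
      intro i hi i' hi'
      rw [mem_filter] at hi hi'
      exact Fin.ext (hi.2.trans hi'.2.symm)
    · simp
  unfold dN at hA1c ⊢
  omega

lemma core_count {D : Finset (Vt K J m p Lg N)} (hD : Good (gr hL hN root par s0) D)
    (hsp : ∀ j, Sparse (parGraph (N j) (root j) (par j)) (univ.image (fun x : Fin (N j) => x.1)))
    {j : Fin J} (hne : (FF D j).Nonempty) :
    2 ≤ (Fu hL hN D j).card ∧ ((FF D j).card = 2 → ∃ x ∈ Fu hL hN D j, ∃ y ∈ Fu hL hN D j,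
      (parGraph (N j) (root j) (par j)).Adj x.1 y.1) := by
  classical
  set Q := parGraph (N j) (root j) (par j) with hQ
  have hsum : ∑ x ∈ FF D j, 2 ≤ ∑ x ∈ FF D j, (dN Q (FN D j) x.1 +
      (if x ∈ (Fu hL hN D j).map ⟨fun i => Fin.castLE (hN j) i, Fin.castLE_injective _⟩
        then 1 else 0)) := sum_le_sum (fun x hx => core_deg hD hx)
  rw [sum_const, smul_eq_mul, sum_add_distrib, ← card_filter] at hsum
  have h1 : ∑ x ∈ FF D j, dN Q (FN D j) x.1 = 2 * eI Q (FN D j) := by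
    rw [← sum_dN]
    unfold FN
    rw [sum_map]
    rfl
  have h2 : ((FF D j).filter (fun x => x ∈ (Fu hL hN D j).map
      ⟨fun i => Fin.castLE (hN j) i, Fin.castLE_injective _⟩)).card = (Fu hL hN D j).card := by
    rw [filter_mem_eq_inter, inter_eq_right.mpr Fu_sub_FF, card_map]
  rw [h1, h2] at hsum
  have h3 : eI Q (FN D j) < (FN D j).card := by
    apply hsp j
    · intro z hz
      unfold FN at hz
      rw [mem_map] at hz
      obtain ⟨x, hx, rfl⟩ := hz
      rw [mem_image]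
      exact ⟨x, mem_univ _, rfl⟩
    · unfold FN
      exact hne.map
  rw [FN_card] at h3
  refine ⟨by omega, ?_⟩
  intro hc2
  have hmc : ((Fu hL hN D j).map ⟨fun i => Fin.castLE (hN j) i, Fin.castLE_injective _⟩).card =
    (Fu hL hN D j).card := card_map _
  have hle := card_le_card (Fu_sub_FF (hL := hL) (hN := hN) (D := D) (j := j))
  have heq : (Fu hL hN D j).map ⟨fun i => Fin.castLE (hN j) i, Fin.castLE_injective _⟩ =
      FF D j := by
    apply eq_of_subset_of_card_le Fu_sub_FF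
    omega
  have hpos : 0 < eI Q (FN D j) := by omega
  -- an edge inside
  have h4 : 0 < ∑ x ∈ FF D j, dN Q (FN D j) x.1 := by omega
  obtain ⟨x, hx, hx2⟩ := exists_ne_zero_of_sum_ne_zero (ne_of_gt h4)
  have h5 : 0 < dN Q (FN D j) x.1 := Nat.pos_of_ne_zero hx2
  unfold dN at h5
  obtain ⟨y', hy'⟩ := card_pos.mp h5
  rw [mem_filter] at hy'
  obtain ⟨hy1, hy2⟩ := hy'
  unfold FN at hy1
  rw [mem_map] at hy1
  obtain ⟨y, hy, rfl⟩ := hy1
  rw [← heq, mem_map] at hx hy
  obtain ⟨i, hi, rfl⟩ := hx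
  obtain ⟨i', hi', rfl⟩ := hy
  exact ⟨i, hi, i', hi', hy2⟩

open scoped Classical in
/-- hubs in `D` -/
noncomputable def HB (D : Finset (Vt K J m p Lg N)) : Finset (Fin K) :=
  (univ : Finset (Fin K)).filter (fun x => (vS x : Vt K J m p Lg N) ∈ D)

lemma mem_HB {D : Finset (Vt K J m p Lg N)} {x : Fin K} :
    x ∈ HB D ↔ (vS x : Vt K J m p Lg N) ∈ D := by
  unfold HB; simp

lemma Fu_sub_HB {D : Finset (Vt K J m p Lg N)} {j : Fin J} :
    (Fu hL hN D j).map ⟨fun i => Fin.castLE (hL j) i, Fin.castLE_injective _⟩ ⊆ HB D := by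
  intro x hx
  rw [mem_map] at hx
  obtain ⟨i, hi, rfl⟩ := hx
  rw [mem_HB]
  have := mem_Fu.mp hi (m + 1) le_rfl
  rwa [pth_last] at this

lemma card_ge {D : Finset (Vt K J m p Lg N)} {j j' : Fin J} (hjj : j ≠ j') :
    (HB D).card + ((FF D j).card + m * (Fu hL hN D j).card) +
      ((FF D j').card + m * (Fu hL hN D j').card) ≤ D.card := by
  classical
  set T1 : Finset ((j : Fin J) × Fin (N j)) :=
    (FF D j).map (Function.Embedding.sigmaMk j) ∪
      (FF D j').map (Function.Embedding.sigmaMk j') with hT1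
  have hT1c : T1.card = (FF D j).card + (FF D j').card := by
    rw [hT1, card_union_of_disjoint, card_map, card_map]
    rw [disjoint_left]
    intro z hz hz'
    rw [mem_map] at hz hz'
    obtain ⟨x, _, rfl⟩ := hz
    obtain ⟨y, _, hy⟩ := hz'
    exact hjj (congrArg Sigma.fst hy).symm
  set T2 : Finset ((j : Fin J) × Fin (Lg j)) :=
    (Fu hL hN D j).map (Function.Embedding.sigmaMk j) ∪
      (Fu hL hN D j').map (Function.Embedding.sigmaMk j') with hT2
  have hT2c : T2.card = (Fu hL hN D j).card + (Fu hL hN D j').card := by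
    rw [hT2, card_union_of_disjoint, card_map, card_map]
    rw [disjoint_left]
    intro z hz hz'
    rw [mem_map] at hz hz'
    obtain ⟨x, _, rfl⟩ := hz
    obtain ⟨y, _, hy⟩ := hz'
    exact hjj (congrArg Sigma.fst hy).symm
  have hT2m : ∀ e ∈ T2, ∀ a, a ≤ m + 1 → pth hL hN e a ∈ D := by
    intro e he
    rw [hT2, mem_union, mem_map, mem_map] at he
    rcases he with ⟨x, hx, rfl⟩ | ⟨x, hx, rfl⟩
    · exact mem_Fu.mp hx
    · exact mem_Fu.mp hx
  have hsub : (HB D).disjSum (T1.disjSum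
        ((T2 ×ˢ (univ : Finset (Fin m))).disjSum (∅ : Finset (Fin p)))) ⊆ D := by
    intro v hv
    rcases v with x | c | ⟨e, b⟩ | x
    · rw [inl_mem_disjSum, mem_HB] at hv
      exact hv
    · rw [inr_mem_disjSum, inl_mem_disjSum, hT1, mem_union, mem_map, mem_map] at hv
      rcases hv with ⟨x, hx, rfl⟩ | ⟨x, hx, rfl⟩
      · exact mem_FF.mp hx
      · exact mem_FF.mp hx
    · rw [inr_mem_disjSum, inr_mem_disjSum, inl_mem_disjSum, mem_product] at hv
      have := hT2m e hv.1 (b.1 + 1) (by omega)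
      rwa [pth_mid e b.1 b.2] at this
    · rw [inr_mem_disjSum, inr_mem_disjSum, inr_mem_disjSum] at hv
      simp at hv
  have h3 := card_le_card hsub
  rw [card_disjSum, card_disjSum, card_disjSum, card_product,
    hT1c, hT2c, card_univ, Fintype.card_fin, card_empty] at h3
  have h4 : ((Fu hL hN D j).card + (Fu hL hN D j').card) * m =
    m * (Fu hL hN D j).card + m * (Fu hL hN D j').card := by ring
  omega

theorem good_card {D : Finset (Vt K J m p Lg N)} (hD : Good (gr hL hN root par s0) D)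
    (hsp : ∀ j, Sparse (parGraph (N j) (root j) (par j)) (univ.image (fun x : Fin (N j) => x.1)))
    (hdis : ∀ j j', j ≠ j' → ∀ x y, x < Lg j → y < Lg j → x < Lg j' → y < Lg j' →
      (parGraph (N j) (root j) (par j)).Adj x y →
      ¬ (parGraph (N j') (root j') (par j')).Adj x y) :
    4 * m + 7 ≤ D.card ∧ 2 ≤ (HB D).card := by
  classical
  -- two components
  have hmain : ∃ j j' : Fin J, j ≠ j' ∧ (FF D j).Nonempty ∧ (FF D j').Nonempty := by
    have hS : ∀ x, (vS x : Vt K J m p Lg N) ∈ D →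
        ∃ j j' : Fin J, j ≠ j' ∧ (FF D j).Nonempty ∧ (FF D j').Nonempty := by
      intro x hx
      obtain ⟨e, e', hne, h1, h2⟩ := good_S hD hx
      exact ⟨e.1, e'.1, hne, ⟨_, mem_FF.mpr h1⟩, ⟨_, mem_FF.mpr h2⟩⟩
    have hC : ∀ c, (vC c : Vt K J m p Lg N) ∈ D →
        ∃ j j' : Fin J, j ≠ j' ∧ (FF D j).Nonempty ∧ (FF D j').Nonempty := by
      rintro ⟨j, x⟩ hx
      have h1 := (core_count hD hsp (j := j) ⟨x, mem_FF.mpr hx⟩).1
      obtain ⟨i, hi⟩ := card_pos.mp (show 0 < (Fu hL hN D j).card by omega)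
      have := mem_Fu.mp hi (m + 1) le_rfl
      rw [pth_last] at this
      exact hS _ this
    obtain ⟨v, hv⟩ := hD.1
    rcases v with x | c | ⟨e, b⟩ | x
    · exact hS x hv
    · exact hC c hv
    · have h1 : pth hL hN e (b.1 + 1) ∈ D := by
        rw [pth_mid e b.1 b.2]; exact hv
      have := good_up hD (by omega) h1 (m + 1) (by omega) le_rfl
      rw [pth_last] at this
      exact hS _ this
    · exact absurd hv (good_Q hD)
  obtain ⟨j, j', hjj, hj, hj'⟩ := hmain
  obtain ⟨h1, h2⟩ := core_count hD hsp hj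
  obtain ⟨h1', h2'⟩ := core_count hD hsp hj'
  have hF1 : (Fu hL hN D j).card ≤ (FF D j).card := by
    have := card_le_card (Fu_sub_FF (hL := hL) (hN := hN) (D := D) (j := j))
    rwa [card_map] at this
  have hF1' : (Fu hL hN D j').card ≤ (FF D j').card := by
    have := card_le_card (Fu_sub_FF (hL := hL) (hN := hN) (D := D) (j := j'))
    rwa [card_map] at this
  have hH : (Fu hL hN D j).card ≤ (HB D).card := by
    have := card_le_card (Fu_sub_HB (hL := hL) (hN := hN) (D := D) (j := j))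
    rwa [card_map] at this
  have hH' : (Fu hL hN D j').card ≤ (HB D).card := by
    have := card_le_card (Fu_sub_HB (hL := hL) (hN := hN) (D := D) (j := j'))
    rwa [card_map] at this
  have hge := card_ge (hL := hL) (hN := hN) (D := D) hjj
  have hm1 : m * 2 ≤ m * (Fu hL hN D j).card := Nat.mul_le_mul_left _ h1
  have hm2 : m * 2 ≤ m * (Fu hL hN D j').card := Nat.mul_le_mul_left _ h1'
  refine ⟨?_, by omega⟩
  by_cases hc : 3 ≤ (HB D).card ∨ 3 ≤ (FF D j).card ∨ 3 ≤ (FF D j').card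
  · omega
  · exfalso
    push Not at hc
    obtain ⟨hc1, hc2, hc3⟩ := hc
    obtain ⟨x, hx, y, hy, hxy⟩ := h2 (by omega)
    obtain ⟨x', hx', y', hy', hxy'⟩ := h2' (by omega)
    -- hubs
    have hHB : (HB D).card = 2 := by omega
    have e1 : (Fu hL hN D j).map ⟨fun i => Fin.castLE (hL j) i, Fin.castLE_injective _⟩ = HB D := by
      apply eq_of_subset_of_card_le Fu_sub_HB
      rw [card_map]; omega
    have e2 : (Fu hL hN D j').map ⟨fun i => Fin.castLE (hL j') i, Fin.castLE_injective _⟩ =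
        HB D := by
      apply eq_of_subset_of_card_le Fu_sub_HB
      rw [card_map]; omega
    -- values
    have key : ∀ z ∈ Fu hL hN D j, ∃ z' ∈ Fu hL hN D j', z'.1 = z.1 := by
      intro z hz
      have : Fin.castLE (hL j) z ∈ HB D := by
        rw [← e1, mem_map]; exact ⟨z, hz, rfl⟩
      rw [← e2, mem_map] at this
      obtain ⟨z', hz', hzz⟩ := this
      refine ⟨z', hz', ?_⟩
      have := congrArg Fin.val hzz
      simpa using this
    have hcard2 : (Fu hL hN D j').card = 2 := by omega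
    obtain ⟨a, b, hab, hFab⟩ := card_eq_two.mp hcard2
    obtain ⟨zx, hzx, hzx'⟩ := key x hx
    obtain ⟨zy, hzy, hzy'⟩ := key y hy
    have hxyne : x.1 ≠ y.1 := hxy.ne
    have hxyne' : x'.1 ≠ y'.1 := hxy'.ne
    rw [hFab, mem_insert, mem_singleton] at hx' hy' hzx hzy
    have hlt1 : x.1 < Lg j' := by rw [← hzx']; exact zx.2
    have hlt2 : y.1 < Lg j' := by rw [← hzy']; exact zy.2
    refine hdis j j' hjj x.1 y.1 x.2 y.2 hlt1 hlt2 hxy ?_
    have hcases : (x'.1 = x.1 ∧ y'.1 = y.1) ∨ (x'.1 = y.1 ∧ y'.1 = x.1) := by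
      rcases hx' with hx' | hx' <;> rcases hy' with hy' | hy' <;>
        rcases hzx with hzx | hzx <;> rcases hzy with hzy | hzy <;>
        subst hx' <;> subst hy' <;> subst hzx <;> subst hzy <;> simp_all
    rcases hcases with ⟨ha, hb⟩ | ⟨ha, hb⟩
    · rw [← ha, ← hb]; exact hxy'
    · rw [← ha, ← hb]; exact hxy'.symm

end

end Pool.Agent.H38.L3
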