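import Pool.Agent.H38.Lower3
import Pool.Agent.H38.Main

set_option autoImplicit false
set_option linter.unusedSectionVars false
set_option linter.unusedSimpArgs false
set_option linter.unusedVariables false

namespace Pool.Agent.H38.L3

open Finset

section
variable {K J m p : ℕ} {Lg N : Fin J → ℕ}
variable {hL : ∀ j, Lg j ≤ K} {hN : ∀ j, Lg j ≤ N j}
variable {root : Fin J → ℕ} {par : Fin J → ℕ → ℕ} {s0 : Fin K}

/-- rank of a vertex -/
def rk : Vt K J m p Lg N → ℕ
  | Sum.inl _ => m + 1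
  | Sum.inr (Sum.inl _) => 0
  | Sum.inr (Sum.inr (Sum.inl (_, b))) => b.1 + 1
  | Sum.inr (Sum.inr (Sum.inr _)) => m + 2

lemma rk_pth (e : (j : Fin J) × Fin (Lg j)) {a : ℕ} (ha : a ≤ m + 1) :
    rk (pth hL hN e a : Vt K J m p Lg N) = a := by
  rcases Nat.eq_zero_or_pos a with h0 | h0
  · subst h0; rw [pth_zero]; rfl
  · obtain ⟨a', rfl⟩ : ∃ a', a = a' + 1 := ⟨a - 1, by omega⟩
    rcases Nat.lt_or_ge a' m with h1 | h1
    · rw [pth_mid e a' h1]; rfl
    · obtain rfl : a' = m := by omega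
      rw [pth_last]; rfl

/-- the edges -/
def ed (hL : ∀ j, Lg j ≤ K) (hN : ∀ j, Lg j ≤ N j) (root : Fin J → ℕ) (par : Fin J → ℕ → ℕ)
    (hp : ∀ j x, x < N j → x ≠ root j → par j x < N j) (s0 : Fin K) :
    (((j : Fin J) × Fin (Lg j)) × Fin (m + 1)) ⊕
      (Fin p ⊕ ((j : Fin J) × {x : Fin (N j) // x.1 ≠ root j})) → Sym2 (Vt K J m p Lg N)
  | Sum.inl (e, a) => s(pth hL hN e a.1, pth hL hN e (a.1 + 1))
  | Sum.inr (Sum.inl x) => s(vQ x, vS s0)
  | Sum.inr (Sum.inr c) => s(vC ⟨c.1, c.2.1⟩, vC ⟨c.1, ⟨par c.1 c.2.1.1, hp c.1 _ c.2.1.2 c.2.2⟩⟩)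

variable {hp : ∀ j x, x < N j → x ≠ root j → par j x < N j}

lemma ed_mem (rkf : Fin J → ℕ → ℕ)
    (hr : ∀ j x, x < N j → x ≠ root j → rkf j (par j x) < rkf j x)
    (x : (((j : Fin J) × Fin (Lg j)) × Fin (m + 1)) ⊕
      (Fin p ⊕ ((j : Fin J) × {x : Fin (N j) // x.1 ≠ root j}))) :
    ed hL hN root par hp s0 x ∈ (gr hL hN root par s0).edgeSet := by
  rcases x with ⟨e, a⟩ | x | ⟨j, x, hx⟩
  · have h1 := rk_pth (hL := hL) (hN := hN) (p := p) e (show a.1 ≤ m + 1 by omega)
    have h2 := rk_pth (hL := hL) (hN := hN) (p := p) e (show a.1 + 1 ≤ m + 1 by omega)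
    refine ⟨?_, Or.inl (Or.inl ⟨e, a.1, by omega, rfl, rfl⟩)⟩
    intro h
    have h' : (pth hL hN e a.1 : Vt K J m p Lg N) = pth hL hN e (a.1 + 1) := h
    rw [h', h2] at h1
    omega
  · refine ⟨by simp [vQ, vS], Or.inl (Or.inr (Or.inl ⟨x, rfl, rfl⟩))⟩
  · refine ⟨?_, Or.inl (Or.inr (Or.inr ⟨j, x, ⟨par j x.1, hp j _ x.2 hx⟩, hx, rfl, rfl, rfl⟩))⟩
    intro h
    have h' : (vC ⟨j, x⟩ : Vt K J m p Lg N) = vC ⟨j, ⟨par j x.1, hp j _ x.2 hx⟩⟩ := h
    simp only [vC, Sum.inr.injEq, Sum.inl.injEq, Sigma.mk.inj_iff, heq_eq_eq, true_and] at h'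
    have h3 := hr j x.1 x.2 hx
    have h4 : x.1 = par j x.1 := congrArg Fin.val h'
    rw [← h4] at h3
    omega

lemma ed_inj (rkf : Fin J → ℕ → ℕ)
    (hr : ∀ j x, x < N j → x ≠ root j → rkf j (par j x) < rkf j x) :
    Function.Injective (ed hL hN root par hp s0 :
    (((j : Fin J) × Fin (Lg j)) × Fin (m + 1)) ⊕
      (Fin p ⊕ ((j : Fin J) × {x : Fin (N j) // x.1 ≠ root j})) → Sym2 (Vt K J m p Lg N)) := by
  have hcore : ∀ (e e' : (j : Fin J) × Fin (Lg j)) (a : ℕ), a ≤ m →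
      (pth hL hN e a : Vt K J m p Lg N) = pth hL hN e' a → e = e' := by
    intro e e' a ha h
    rcases Nat.eq_zero_or_pos a with h0 | h0
    · subst h0
      rw [pth_zero, pth_zero] at h
      obtain ⟨j, i⟩ := e
      obtain ⟨j', i'⟩ := e'
      simp only [vC, Sum.inr.injEq, Sum.inl.injEq, Sigma.mk.inj_iff] at h
      obtain ⟨rfl, h⟩ := h
      rw [heq_eq_eq] at h
      have := Fin.castLE_injective _ h
      rw [this]
    · obtain ⟨c, rfl⟩ : ∃ c, a = c + 1 := ⟨a - 1, by omega⟩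
      rw [pth_mid e c (by omega), pth_mid e' c (by omega)] at h
      simp only [vL, Sum.inr.injEq, Sum.inl.injEq, Prod.mk.injEq] at h
      exact h.1
  rintro (⟨e, a⟩ | x | ⟨j, x, hx⟩) (⟨e', a'⟩ | x' | ⟨j', x', hx'⟩) h
  · have r1 := rk_pth (hL := hL) (hN := hN) (p := p) e (show a.1 ≤ m + 1 by omega)
    have r2 := rk_pth (hL := hL) (hN := hN) (p := p) e (show a.1 + 1 ≤ m + 1 by omega)
    have r1' := rk_pth (hL := hL) (hN := hN) (p := p) e' (show a'.1 ≤ m + 1 by omega)
    have r2' := rk_pth (hL := hL) (hN := hN) (p := p) e' (show a'.1 + 1 ≤ m + 1 by omega)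
    have h' : s(pth hL hN e a.1, pth hL hN e (a.1 + 1)) =
      (s(pth hL hN e' a'.1, pth hL hN e' (a'.1 + 1)) : Sym2 (Vt K J m p Lg N)) := h
    rw [Sym2.eq_iff] at h'
    rcases h' with ⟨h1, h2⟩ | ⟨h1, h2⟩
    · have haa : a = a' := by
        apply Fin.ext
        rw [h1, r1'] at r1
        exact r1.symm
      subst haa
      have hee : e = e' := hcore e e' a.1 (by omega) h1
      rw [hee]
    · exfalso
      rw [h1, r2'] at r1
      rw [h2, r1'] at r2
      omega
  · exfalso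
    have h' : s(pth hL hN e a.1, pth hL hN e (a.1 + 1)) =
      (s(vQ x', vS s0) : Sym2 (Vt K J m p Lg N)) := h
    have r1 := rk_pth (hL := hL) (hN := hN) (p := p) e (show a.1 ≤ m + 1 by omega)
    have r2 := rk_pth (hL := hL) (hN := hN) (p := p) e (show a.1 + 1 ≤ m + 1 by omega)
    have r3 : rk (vQ x' : Vt K J m p Lg N) = m + 2 := rfl
    rw [Sym2.eq_iff] at h'
    rcases h' with ⟨h1, h2⟩ | ⟨h1, h2⟩
    · rw [h1, r3] at r1; omega
    · rw [h2, r3] at r2; omega
  · exfalso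
    have h' : s(pth hL hN e a.1, pth hL hN e (a.1 + 1)) =
      (s(vC ⟨j', x'⟩, vC ⟨j', ⟨par j' x'.1, hp j' _ x'.2 hx'⟩⟩) : Sym2 (Vt K J m p Lg N)) := h
    have r2 := rk_pth (hL := hL) (hN := hN) (p := p) e (show a.1 + 1 ≤ m + 1 by omega)
    rw [Sym2.eq_iff] at h'
    rcases h' with ⟨h1, h2⟩ | ⟨h1, h2⟩
    · rw [h2] at r2
      have r3 : rk (vC ⟨j', ⟨par j' x'.1, hp j' _ x'.2 hx'⟩⟩ : Vt K J m p Lg N) = 0 := rfl
      omega
    · rw [h2] at r2
      have r3 : rk (vC ⟨j', x'⟩ : Vt K J m p Lg N) = 0 := rfl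
      omega
  · exfalso
    have h' : (s(vQ x, vS s0) : Sym2 (Vt K J m p Lg N)) =
      s(pth hL hN e' a'.1, pth hL hN e' (a'.1 + 1)) := h
    have r1 := rk_pth (hL := hL) (hN := hN) (p := p) e' (show a'.1 ≤ m + 1 by omega)
    have r2 := rk_pth (hL := hL) (hN := hN) (p := p) e' (show a'.1 + 1 ≤ m + 1 by omega)
    have r3 : rk (vQ x : Vt K J m p Lg N) = m + 2 := rfl
    rw [Sym2.eq_iff] at h'
    rcases h' with ⟨h1, h2⟩ | ⟨h1, h2⟩
    · rw [← h1, r3] at r1; omega
    · rw [← h1, r3] at r2; omega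
  · have h' : (s(vQ x, vS s0) : Sym2 (Vt K J m p Lg N)) = s(vQ x', vS s0) := h
    rw [Sym2.eq_iff] at h'
    rcases h' with ⟨h1, h2⟩ | ⟨h1, h2⟩
    · simp only [vQ, Sum.inr.injEq] at h1
      rw [h1]
    · simp [vQ, vS] at h1
  · exfalso
    have h' : (s(vQ x, vS s0) : Sym2 (Vt K J m p Lg N)) =
      s(vC ⟨j', x'⟩, vC ⟨j', ⟨par j' x'.1, hp j' _ x'.2 hx'⟩⟩) := h
    rw [Sym2.eq_iff] at h'
    rcases h' with ⟨h1, h2⟩ | ⟨h1, h2⟩
    · simp [vQ, vC] at h1
    · simp [vQ, vC] at h1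
  · exfalso
    have h' : (s(vC ⟨j, x⟩, vC ⟨j, ⟨par j x.1, hp j _ x.2 hx⟩⟩) : Sym2 (Vt K J m p Lg N)) =
      s(pth hL hN e' a'.1, pth hL hN e' (a'.1 + 1)) := h
    have r2 := rk_pth (hL := hL) (hN := hN) (p := p) e' (show a'.1 + 1 ≤ m + 1 by omega)
    rw [Sym2.eq_iff] at h'
    rcases h' with ⟨h1, h2⟩ | ⟨h1, h2⟩
    · rw [← h2] at r2
      have r3 : rk (vC ⟨j, ⟨par j x.1, hp j _ x.2 hx⟩⟩ : Vt K J m p Lg N) = 0 := rfl
      omega
    · rw [← h1] at r2
      have r3 : rk (vC ⟨j, x⟩ : Vt K J m p Lg N) = 0 := rfl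
      omega
  · exfalso
    have h' : (s(vC ⟨j, x⟩, vC ⟨j, ⟨par j x.1, hp j _ x.2 hx⟩⟩) : Sym2 (Vt K J m p Lg N)) =
      s(vQ x', vS s0) := h
    rw [Sym2.eq_iff] at h'
    rcases h' with ⟨h1, h2⟩ | ⟨h1, h2⟩
    · simp [vQ, vC] at h1
    · simp [vS, vC] at h1
  · have h' : (s(vC ⟨j, x⟩, vC ⟨j, ⟨par j x.1, hp j _ x.2 hx⟩⟩) : Sym2 (Vt K J m p Lg N)) =
      s(vC ⟨j', x'⟩, vC ⟨j', ⟨par j' x'.1, hp j' _ x'.2 hx'⟩⟩) := h
    rw [Sym2.eq_iff] at h'
    rcases h' with ⟨h1, h2⟩ | ⟨h1, h2⟩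
    · simp only [vC, Sum.inr.injEq, Sum.inl.injEq, Sigma.mk.inj_iff] at h1
      obtain ⟨rfl, h1⟩ := h1
      rw [heq_eq_eq] at h1
      subst h1
      rfl
    · exfalso
      simp only [vC, Sum.inr.injEq, Sum.inl.injEq, Sigma.mk.inj_iff] at h1 h2
      obtain ⟨rfl, h1⟩ := h1
      obtain ⟨_, h2⟩ := h2
      rw [heq_eq_eq] at h1 h2
      have e1 : x.1 = par j x'.1 := congrArg Fin.val h1
      have e2 : par j x.1 = x'.1 := congrArg Fin.val h2
      have q1 := hr j x.1 x.2 hx
      have q2 := hr j x'.1 x'.2 hx'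
      rw [← e1] at q2
      rw [e2] at q1
      omega

lemma card_Vt : Fintype.card (Vt K J m p Lg N) = K + (∑ j, N j + ((∑ j, Lg j) * m + p)) := by
  simp [Vt]

lemma edges_ge (rkf : Fin J → ℕ → ℕ)
    (hr : ∀ j x, x < N j → x ≠ root j → rkf j (par j x) < rkf j x)
    (hp : ∀ j x, x < N j → x ≠ root j → par j x < N j)
    (hroot : ∀ j, root j < N j) :
    (∑ j, Lg j) * (m + 1) + (p + ∑ j, (N j - 1)) ≤
      (gr hL hN root par s0 : SimpleGraph (Vt K J m p Lg N)).edgeSet.ncard := by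
  classical
  have h1 : Set.range (ed hL hN root par hp s0) ⊆
      (gr hL hN root par s0 : SimpleGraph (Vt K J m p Lg N)).edgeSet := by
    rintro _ ⟨x, rfl⟩
    exact ed_mem rkf hr x
  have h2 := Set.ncard_le_ncard h1 (Set.toFinite _)
  have hc : ∀ j, Fintype.card {x : Fin (N j) // x.1 ≠ root j} = N j - 1 := by
    intro j
    rw [Fintype.card_subtype]
    have : (univ : Finset (Fin (N j))).filter (fun x => x.1 ≠ root j) =
        univ.erase ⟨root j, hroot j⟩ := by
      ext x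
      simp [Fin.ext_iff]
    rw [this, card_erase_of_mem (mem_univ _), card_univ, Fintype.card_fin]
  have h3 : (Set.range (ed hL hN root par hp s0 : (((j : Fin J) × Fin (Lg j)) × Fin (m + 1)) ⊕
      (Fin p ⊕ ((j : Fin J) × {x : Fin (N j) // x.1 ≠ root j})) →
      Sym2 (Vt K J m p Lg N))).ncard = (∑ j, Lg j) * (m + 1) + (p + ∑ j, (N j - 1)) := by
    rw [← Set.image_univ, Set.ncard_image_of_injective _ (ed_inj rkf hr), Set.ncard_univ,
      Nat.card_eq_fintype_card, Fintype.card_sum, Fintype.card_sum, Fintype.card_prod,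
      Fintype.card_sigma, Fintype.card_sigma]
    simp [hc]
  omega

end

/-- lower bound graph for girth `4 m + 7`, transported to `Fin n` -/
lemma exists_lower (k m J p : ℕ) (hk : 2 ≤ k) (Lg N : Fin J → ℕ) (hL : ∀ j, Lg j ≤ 2 * k - 1)
    (hN : ∀ j, Lg j ≤ N j) (root : Fin J → ℕ) (par rkf : Fin J → ℕ → ℕ)
    (hr : ∀ j x, x < N j → x ≠ root j → rkf j (par j x) < rkf j x)
    (hp : ∀ j x, x < N j → x ≠ root j → par j x < N j)
    (hroot : ∀ j, root j < N j)
    (hdis : ∀ j j', j ≠ j' → ∀ x y, x < Lg j → y < Lg j → x < Lg j' → y < Lg j' →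
      (parGraph (N j) (root j) (par j)).Adj x y →
      ¬ (parGraph (N j') (root j') (par j')).Adj x y) (n : ℕ)
    (hn : n = (2 * k - 1) + (∑ j, N j + ((∑ j, Lg j) * m + p))) :
    ∃ G : SimpleGraph (Fin n), ¬ HasDisjointCycles G k ∧ ((4 * m + 7 : ℕ) : ℕ∞) ≤ G.egirth ∧
      (∑ j, Lg j) * (m + 1) + (p + ∑ j, (N j - 1)) ≤ G.edgeSet.ncard := by
  classical
  have hpos : 0 < 2 * k - 1 := by omega
  let H : SimpleGraph (Vt (2 * k - 1) J m p Lg N) := gr hL hN root par ⟨0, hpos⟩
  have hcard : Fintype.card (Vt (2 * k - 1) J m p Lg N) = n := by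
    rw [card_Vt, hn]
  let e : Vt (2 * k - 1) J m p Lg N ≃ Fin n := Fintype.equivFinOfCardEq hcard
  let G : SimpleGraph (Fin n) := H.map e.toEmbedding
  have iso : H ≃g G := SimpleGraph.Iso.map e H
  have hsp : ∀ j, Sparse (parGraph (N j) (root j) (par j))
      (univ.image (fun x : Fin (N j) => x.1)) :=
    fun j => parGraph_sparse (N j) (root j) (par j) (rkf j) (hr j)
  refine ⟨G, ?_, ?_, ?_⟩
  · intro hdc
    have h1 : HasDisjointCycles H k := hdc.map iso.symm
    rw [← pack_iff] at h1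
    obtain ⟨f, hf, hd⟩ := h1
    choose D hD hDg using fun i => (hf i).2.exists_good
    have h2 : (univ.biUnion (fun i => HB (D i))).card = ∑ i, (HB (D i)).card := by
      apply card_biUnion
      intro i _ j _ hij
      rw [Function.onFun, disjoint_left]
      intro x hx hx'
      rw [mem_HB] at hx hx'
      exact disjoint_left.mp (hd i j hij) (hD i hx) (hD j hx')
    have h3 : (univ.biUnion (fun i => HB (D i))).card ≤ 2 * k - 1 := by
      refine (card_le_univ _).trans ?_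
      rw [Fintype.card_fin]
    have h4 : ∑ i : Fin k, 2 ≤ ∑ i, (HB (D i)).card :=
      sum_le_sum (fun i _ => (good_card (hDg i) hsp hdis).2)
    rw [sum_const, card_univ, Fintype.card_fin, smul_eq_mul] at h4
    omega
  · rw [← iso.egirth_eq, egirth_iff]
    intro U hU hd
    obtain ⟨D, hD, hg⟩ := hd.exists_good
    have h1 := (good_card hg hsp hdis).1
    have h2 := card_le_card hD
    omega
  · have h1 : (∑ j, Lg j) * (m + 1) + (p + ∑ j, (N j - 1)) ≤ H.edgeSet.ncard :=
      edges_ge rkf hr hp hroot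
    have h2 : H.edgeSet.ncard = G.edgeSet.ncard := by
      rw [← Nat.card_coe_set_eq, ← Nat.card_coe_set_eq]
      exact Nat.card_congr iso.mapEdgeSet
    omega

/-- parents in the `i`-th double star -/
def parT (k i x : ℕ) : ℕ :=
  if x = 0 then k + i else if x < k then (if i < x - 1 then i + 1 else k + i)
    else (if x - k < i then i + 1 else k + i)

def LgF (k t a j : ℕ) : ℕ := if j < t then 2 * k - 1 else a + 1

def NF (k t a j : ℕ) : ℕ :=
  if j < k - 1 then 2 * k - 1 else if j < t then 2 * k else if a < k then a + 1 else a + 2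

def rootF (k t a j : ℕ) : ℕ :=
  if j < k - 1 then k + j else if j < t then 2 * k - 1 else if a < k then 0 else a + 1

def parF (k t a j x : ℕ) : ℕ :=
  if j < k - 1 then parT k j x else if j < t then 2 * k - 1 else if a < k then 0 else a + 1

def rkF (k t a j x : ℕ) : ℕ :=
  if j < k - 1 then (if x = k + j then 0 else if x = j + 1 then 1 else 2) else
    if x = rootF k t a j then 0 else 1

lemma rk_lt (k t a j x : ℕ) (hk : 2 ≤ k) (ht : k - 1 ≤ t) (hx : x < NF k t a j)
    (hr : x ≠ rootF k t a j) : rkF k t a j (parF k t a j x) < rkF k t a j x := by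
  unfold NF at hx
  unfold rootF at hr
  unfold rkF parF rootF parT
  split_ifs at * <;> omega

lemma par_lt (k t a j x : ℕ) (hk : 2 ≤ k) (ht : k - 1 ≤ t) (hx : x < NF k t a j)
    (hr : x ≠ rootF k t a j) : parF k t a j x < NF k t a j := by
  unfold NF at hx ⊢
  unfold rootF at hr
  unfold parF parT
  split_ifs at * <;> omega

lemma root_lt (k t a j : ℕ) (hk : 2 ≤ k) : rootF k t a j < NF k t a j := by
  unfold rootF NF
  split_ifs <;> omega

lemma Lg_le_N (k t a j : ℕ) (hk : 2 ≤ k) (ht : k - 1 ≤ t) : LgF k t a j ≤ NF k t a j := by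
  unfold LgF NF
  split_ifs <;> omega

lemma dis_aux (k t a j j' x y : ℕ) (hk : 2 ≤ k) (ht : k - 1 ≤ t) (hj : j ≤ t) (hj' : j' ≤ t)
    (hne : j ≠ j')
    (hx : x < LgF k t a j) (hy : y < LgF k t a j) (hx' : x < LgF k t a j')
    (hy' : y < LgF k t a j') (hxN : x < NF k t a j) (hyN : y < NF k t a j)
    (h1 : x ≠ rootF k t a j) (h2 : parF k t a j x = y) :
    ¬ (x ≠ rootF k t a j' ∧ parF k t a j' x = y) ∧ ¬ (y ≠ rootF k t a j' ∧ parF k t a j' y = x) := by
  unfold LgF at hx hy hx' hy'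
  unfold NF at hxN hyN
  unfold rootF at *
  unfold parF at *
  unfold parT at *
  constructor <;> (rintro ⟨h3, h4⟩; split_ifs at * <;> omega)

lemma sum_split (s b : ℕ) (A B C : ℕ) (f : ℕ → ℕ) (h1 : ∀ j < s, f j = A)
    (h2 : ∀ j, s ≤ j → j < s + b → f j = B) (h3 : f (s + b) = C) :
    ∑ j ∈ range (s + b + 1), f j = s * A + b * B + C ∧ ∑ j ∈ range (s + b), f j = s * A + b * B := by
  have h4 : ∑ j ∈ range (s + b), f j = s * A + b * B := by
    rw [sum_range_add]
    congr 1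
    · rw [sum_congr rfl (fun j hj => h1 j (mem_range.mp hj)), sum_const, card_range, smul_eq_mul]
    · rw [sum_congr rfl (fun j hj => h2 (s + j) (by omega) (by have := mem_range.mp hj; omega)),
        sum_const, card_range, smul_eq_mul]
  refine ⟨?_, h4⟩
  rw [sum_range_succ, h4, h3]

theorem main3 (k l : ℕ) (hk : 2 ≤ k) (hl : 2 ≤ l) : ∃ n0 : ℕ, ∀ n t r : ℕ, n0 ≤ n →
    r < (2 * k - 1) * (l - 1) + 1 → n = t * ((2 * k - 1) * (l - 1) + 1) + k + r →
    (∃ G : SimpleGraph (Fin n), ¬ HasDisjointCycles G k ∧ ((4 * l - 1 : ℕ) : ℕ∞) ≤ G.egirth ∧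
      G.edgeSet.ncard = (2 * k - 1) * l * t + r +
        (max (min k (r / (l - 1))) ((r - 1) / (l - 1)) - 1) - (k - 1)) ∧
    ∀ G : SimpleGraph (Fin n), ¬ HasDisjointCycles G k → ((4 * l - 1 : ℕ) : ℕ∞) ≤ G.egirth →
      G.edgeSet.ncard ≤ (2 * k - 1) * l * t + r +
        (max (min k (r / (l - 1))) ((r - 1) / (l - 1)) - 1) - (k - 1) := by
  classical
  obtain ⟨m, rfl⟩ : ∃ m, l = m + 2 := ⟨l - 2, by omega⟩
  have e0 : m + 2 - 1 = m + 1 := by omega
  rw [e0]
  have e00 : 4 * (m + 2) - 1 = 4 * m + 7 := by omega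
  rw [e00]
  obtain ⟨n0, hn0⟩ := upper3 k (m + 1) hk (by omega)
  set M := (2 * k - 1) * (m + 1) + 1 with hM
  refine ⟨n0 + (k * M + 2 * k), fun n t r hn hr hnt => ?_⟩
  have hMpos : 2 * k - 1 < M := by
    rw [hM]
    have : (2 * k - 1) * 1 ≤ (2 * k - 1) * (m + 1) := Nat.mul_le_mul_left _ (by omega)
    omega
  have ht : k ≤ t := by
    by_contra hc
    push Not at hc
    have h1 : (t + 1) * M ≤ k * M := Nat.mul_le_mul_right _ hc
    have h2 : (t + 1) * M = t * M + M := by ring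
    omega
  set a1 := max (min k (r / (m + 1))) ((r - 1) / (m + 1)) with ha1
  have hup : ∀ G : SimpleGraph (Fin n), ¬ HasDisjointCycles G k →
      ((4 * m + 7 : ℕ) : ℕ∞) ≤ G.egirth →
      G.edgeSet.ncard ≤ (2 * k - 1) * (m + 2) * t + r + (a1 - 1) - (k - 1) := by
    intro G hG hg
    have h1 := hn0 (Fin n) G (by rw [Fintype.card_fin]; omega)
      (fun U hU => (egirth_iff _).mp hg U (by omega))
      (by rw [pack_iff]; exact hG)
    rw [eI_univ_eq, Fintype.card_fin] at h1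
    have h2 : n - (2 * k - 1) + (k - 1) = M * t + r := by
      have h3 : 1 * M ≤ t * M := Nat.mul_le_mul_right _ (by omega)
      rw [mul_comm M t]
      omega
    unfold psi at h1
    rw [← hM, h2, Nat.mul_add_div (by omega), Nat.div_eq_of_lt hr, Nat.mul_add_mod,
      Nat.mod_eq_of_lt hr, Nat.add_zero] at h1
    refine h1.trans ?_
    have h3 : (2 * k - 1) * (m + 2) * t = M * t + (2 * k - 2) * t := by
      rw [hM]
      obtain ⟨κ, rfl⟩ : ∃ κ, k = κ + 1 := ⟨k - 1, by omega⟩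
      have e1 : 2 * (κ + 1) - 2 = 2 * κ := by omega
      have e2 : 2 * (κ + 1) - 1 = 2 * κ + 1 := by omega
      rw [e1, e2]; ring
    rw [h3]
    omega
  refine ⟨?_, hup⟩
  -- the remainder parameter
  set a := a1 - 1 with ha
  have hrm : r / (m + 1) * (m + 1) ≤ r := Nat.div_mul_le_self _ _
  have hrm1 : (r - 1) / (m + 1) * (m + 1) ≤ r - 1 := Nat.div_mul_le_self _ _
  have hdd : (r - 1) / (m + 1) ≤ r / (m + 1) := Nat.div_le_div_right (by omega)
  have ha1le : a1 ≤ r / (m + 1) := max_le (min_le_right _ _) hdd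
  have ha1K : a1 ≤ 2 * k - 1 := by
    refine ha1le.trans ?_
    have : r / (m + 1) < 2 * k := by
      rw [Nat.div_lt_iff_lt_mul (by omega)]
      have h4 : (2 * k - 1) * (m + 1) + (m + 1) = 2 * k * (m + 1) := by
        obtain ⟨κ, rfl⟩ : ∃ κ, k = κ + 1 := ⟨k - 1, by omega⟩
        have e2 : 2 * (κ + 1) - 1 = 2 * κ + 1 := by omega
        rw [e2]; ring
      omega
    omega
  have ha1r : a1 * (m + 1) ≤ r :=
    (Nat.mul_le_mul_right _ ha1le).trans hrm
  have ha1r1 : k < a1 → a1 * (m + 1) + 1 ≤ r := by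
    intro h
    have h5 : a1 = (r - 1) / (m + 1) := by
      rcases max_choice (min k (r / (m + 1))) ((r - 1) / (m + 1)) with h6 | h6
      · have := min_le_left k (r / (m + 1))
        omega
      · rw [ha1, h6]
    have h7 : a1 * (m + 1) ≤ r - 1 := by rw [h5]; exact hrm1
    have h8 : 1 ≤ a1 * (m + 1) := Nat.mul_pos (by omega) (by omega)
    omega
  obtain ⟨b, hb⟩ : ∃ b, t = (k - 1) + b := ⟨t - (k - 1), by omega⟩
  -- properties of the index functions
  have hLsum := sum_split (k - 1) b (2 * k - 1) (2 * k - 1) (a + 1) (LgF k t a)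
    (by intro j hj; unfold LgF; rw [if_pos (by omega)])
    (by intro j _ hj; unfold LgF; rw [if_pos (by omega)])
    (by unfold LgF; rw [if_neg (by omega)])
  have hNsum := sum_split (k - 1) b (2 * k - 1) (2 * k) (if a < k then a + 1 else a + 2) (NF k t a)
    (by intro j hj; unfold NF; rw [if_pos hj])
    (by intro j hj hj'; unfold NF; rw [if_neg (by omega), if_pos (by omega)])
    (by unfold NF; rw [if_neg (by omega), if_neg (by omega)])
  have hNsum1 := sum_split (k - 1) b (2 * k - 2) (2 * k - 1) (if a < k then a else a + 1)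
    (fun j => NF k t a j - 1)
    (by intro j hj; simp only [NF]; rw [if_pos hj]; omega)
    (by intro j hj hj'; simp only [NF]; rw [if_neg (by omega), if_pos (by omega)])
    (by simp only [NF]; rw [if_neg (by omega), if_neg (by omega)]; split_ifs <;> omega)
  rw [← hb] at hLsum hNsum hNsum1
  -- the two cases
  have hlow : ∃ G : SimpleGraph (Fin n), ¬ HasDisjointCycles G k ∧
      ((4 * m + 7 : ℕ) : ℕ∞) ≤ G.egirth ∧
      (2 * k - 1) * (m + 2) * t + r + a - (k - 1) ≤ G.edgeSet.ncard := by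
    obtain ⟨κ, hκ⟩ : ∃ κ, k = κ + 1 := ⟨k - 1, by omega⟩
    have e1 : 2 * k - 2 = 2 * κ := by omega
    have e2 : 2 * k - 1 = 2 * κ + 1 := by omega
    have e3 : k - 1 = κ := by omega
    have e4 : 2 * k = 2 * κ + 2 := by omega
    rw [e2] at hM
    by_cases ha0 : a = 0
    · -- no remainder component
      have hL' : ∑ j : Fin t, LgF k t a j.1 = κ * (2 * κ + 1) + b * (2 * κ + 1) := by
        rw [Fin.sum_univ_eq_sum_range (LgF k t a) t, hLsum.2, e2, e3]
      have hN' : ∑ j : Fin t, NF k t a j.1 = κ * (2 * κ + 1) + b * (2 * κ + 2) := by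
        rw [Fin.sum_univ_eq_sum_range (NF k t a) t, hNsum.2, e2, e3, e4]
      have hN1' : ∑ j : Fin t, (NF k t a j.1 - 1) = κ * (2 * κ) + b * (2 * κ + 1) := by
        rw [Fin.sum_univ_eq_sum_range (fun j => NF k t a j - 1) t, hNsum1.2, e1, e2, e3]
      obtain ⟨G, hG1, hG2, hG3⟩ := exists_lower k m t r hk (fun j => LgF k t a j.1)
        (fun j => NF k t a j.1)
        (by
          intro j
          have := j.2
          unfold LgF
          rw [if_pos this])
        (fun j => Lg_le_N k t a j.1 hk (by omega)) (fun j => rootF k t a j.1)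
        (fun j => parF k t a j.1) (fun j => rkF k t a j.1)
        (fun j x hx hxr => rk_lt k t a j.1 x hk (by omega) hx hxr)
        (fun j x hx hxr => par_lt k t a j.1 x hk (by omega) hx hxr)
        (fun j => root_lt k t a j.1 hk)
        (by
          intro j j' hjj x y hx hy hx' hy' hadj hadj'
          have hne : j.1 ≠ j'.1 := fun h => hjj (Fin.ext h)
          have hj := j.2
          have hj' := j'.2
          rcases parGraph_adj hadj with ⟨q1, q2, q3⟩ | ⟨q1, q2, q3⟩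
          · have hh := dis_aux k t a j.1 j'.1 x y hk (by omega) (by omega) (by omega) hne hx hy hx'
              hy' q1 (by
                have := par_lt k t a j.1 x hk (by omega) q1 q2
                rwa [q3] at this) q2 q3
            rcases parGraph_adj hadj' with ⟨p1, p2, p3⟩ | ⟨p1, p2, p3⟩
            · exact hh.1 ⟨p2, p3⟩
            · exact hh.2 ⟨p2, p3⟩
          · have hh := dis_aux k t a j.1 j'.1 y x hk (by omega) (by omega) (by omega) hne hy hx hy'
              hx' q1 (by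
                have := par_lt k t a j.1 y hk (by omega) q1 q2
                rwa [q3] at this) q2 q3
            rcases parGraph_adj hadj' with ⟨p1, p2, p3⟩ | ⟨p1, p2, p3⟩
            · exact hh.2 ⟨p2, p3⟩
            · exact hh.1 ⟨p2, p3⟩) n
        (by
          rw [hL', hN', hnt, e2, hM, hb, e3, hκ]
          ring)
      refine ⟨G, hG1, hG2, le_trans ?_ hG3⟩
      rw [hL', hN1', e2, e3, ha0, hb, e3]
      apply le_of_eq
      have : (2 * κ + 1) * (m + 2) * (κ + b) + r + 0 =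
        (κ * (2 * κ + 1) + b * (2 * κ + 1)) * (m + 1) + (r + (κ * (2 * κ) + b * (2 * κ + 1))) + κ := by
        ring
      omega
    · -- with a remainder component
      have haa : a1 = a + 1 := by omega
      obtain ⟨p, hp⟩ : ∃ p, r = (a + 1) * (m + 1) + (if a < k then 0 else 1) + p := by
        by_cases hak : a < k
        · rw [if_pos hak]
          exact ⟨r - (a + 1) * (m + 1), by rw [haa] at ha1r; omega⟩
        · rw [if_neg hak]
          have := ha1r1 (by omega)
          rw [haa] at this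
          exact ⟨r - ((a + 1) * (m + 1) + 1), by omega⟩
      have hL' : ∑ j : Fin (t + 1), LgF k t a j.1 =
          κ * (2 * κ + 1) + b * (2 * κ + 1) + (a + 1) := by
        rw [Fin.sum_univ_eq_sum_range (LgF k t a) (t + 1), hLsum.1, e2, e3]
      have hN' : ∑ j : Fin (t + 1), NF k t a j.1 = κ * (2 * κ + 1) + b * (2 * κ + 2) +
          (if a < k then a + 1 else a + 2) := by
        rw [Fin.sum_univ_eq_sum_range (NF k t a) (t + 1), hNsum.1, e2, e3, e4]
      have hN1' : ∑ j : Fin (t + 1), (NF k t a j.1 - 1) = κ * (2 * κ) + b * (2 * κ + 1) +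
          (if a < k then a else a + 1) := by
        rw [Fin.sum_univ_eq_sum_range (fun j => NF k t a j - 1) (t + 1), hNsum1.1, e1, e2, e3]
      obtain ⟨G, hG1, hG2, hG3⟩ := exists_lower k m (t + 1) p hk (fun j => LgF k t a j.1)
        (fun j => NF k t a j.1)
        (by
          intro j
          unfold LgF
          split_ifs <;> omega)
        (fun j => Lg_le_N k t a j.1 hk (by omega)) (fun j => rootF k t a j.1)
        (fun j => parF k t a j.1) (fun j => rkF k t a j.1)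
        (fun j x hx hxr => rk_lt k t a j.1 x hk (by omega) hx hxr)
        (fun j x hx hxr => par_lt k t a j.1 x hk (by omega) hx hxr)
        (fun j => root_lt k t a j.1 hk)
        (by
          intro j j' hjj x y hx hy hx' hy' hadj hadj'
          have hne : j.1 ≠ j'.1 := fun h => hjj (Fin.ext h)
          have hj := j.2
          have hj' := j'.2
          rcases parGraph_adj hadj with ⟨q1, q2, q3⟩ | ⟨q1, q2, q3⟩
          · have hh := dis_aux k t a j.1 j'.1 x y hk (by omega) (by omega) (by omega) hne hx hy hx'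
              hy' q1 (by
                have := par_lt k t a j.1 x hk (by omega) q1 q2
                rwa [q3] at this) q2 q3
            rcases parGraph_adj hadj' with ⟨p1, p2, p3⟩ | ⟨p1, p2, p3⟩
            · exact hh.1 ⟨p2, p3⟩
            · exact hh.2 ⟨p2, p3⟩
          · have hh := dis_aux k t a j.1 j'.1 y x hk (by omega) (by omega) (by omega) hne hy hx hy'
              hx' q1 (by
                have := par_lt k t a j.1 y hk (by omega) q1 q2
                rwa [q3] at this) q2 q3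
            rcases parGraph_adj hadj' with ⟨p1, p2, p3⟩ | ⟨p1, p2, p3⟩
            · exact hh.2 ⟨p2, p3⟩
            · exact hh.1 ⟨p2, p3⟩) n
        (by
          rw [hL', hN', hnt, e2, hM, hb, e3, hκ, hp]
          by_cases hak : a < k
          · rw [if_pos hak, ← hκ, if_pos hak]; rw [hκ]; ring
          · rw [if_neg hak, ← hκ, if_neg hak]; rw [hκ]; ring)
      refine ⟨G, hG1, hG2, le_trans ?_ hG3⟩
      rw [hL', hN1', e2, e3, hb, e3, hp]
      apply le_of_eq
      by_cases hak : a < k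
      · rw [if_pos hak, if_pos hak]
        have : (2 * κ + 1) * (m + 2) * (κ + b) + ((a + 1) * (m + 1) + 0 + p) + a =
          (κ * (2 * κ + 1) + b * (2 * κ + 1) + (a + 1)) * (m + 1) +
            (p + (κ * (2 * κ) + b * (2 * κ + 1) + a)) + κ := by
          ring
        omega
      · rw [if_neg hak, if_neg hak]
        have : (2 * κ + 1) * (m + 2) * (κ + b) + ((a + 1) * (m + 1) + 1 + p) + a =
          (κ * (2 * κ + 1) + b * (2 * κ + 1) + (a + 1)) * (m + 1) +
            (p + (κ * (2 * κ) + b * (2 * κ + 1) + (a + 1))) + κ := by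
          ring
        omega
  obtain ⟨G, hG1, hG2, hG3⟩ := hlow
  exact ⟨G, hG1, hG2, le_antisymm (hup G hG1 hG2) hG3⟩

end Pool.Agent.H38.L3
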