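import Pool.Agent.H38.Comps

set_option autoImplicit false
set_option linter.unusedSectionVars false
set_option linter.unusedSimpArgs false
set_option linter.unusedVariables false

namespace Pool.Agent.H38

open Finset

section
variable {V : Type*} [DecidableEq V] {G : SimpleGraph V}

lemma IsSub.dense_insert {P : Finset V} {x : V} (h : IsSub G P) (hx : x ∉ P)
    (h2 : 2 ≤ dN G P x) : Dense G (insert x P) := by
  refine ⟨insert_nonempty _ _, ?_⟩
  rw [card_insert_of_notMem hx, eI_insert G hx]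
  have := h.2
  omega

/-- two disjoint subtrees joined through an outside vertex -/
lemma isSub_join {P Q : Finset V} {y : V} (hP : IsSub G P) (hQ : IsSub G Q) (hd : Disjoint P Q)
    (hyP : y ∉ P) (hyQ : y ∉ Q) (h1 : 1 ≤ dN G P y) (h2 : 1 ≤ dN G Q y) :
    IsSub G (insert y (P ∪ Q)) := by
  refine ⟨insert_nonempty _ _, ?_⟩
  have hy : y ∉ P ∪ Q := by simp [hyP, hyQ]
  rw [card_insert_of_notMem hy, eI_insert G hy, dN_union_disjoint G hd, eI_union_disjoint hd,
    card_union_of_disjoint hd]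
  have := hP.2
  have := hQ.2
  omega

lemma pair_dense {P Q : Finset V} {x y : V} (hP : IsSub G P) (hQ : IsSub G Q)
    (hd : Disjoint P Q) (hxy : x ≠ y)
    (hxP : x ∉ P) (hxQ : x ∉ Q) (hyP : y ∉ P) (hyQ : y ∉ Q)
    (h1 : 1 ≤ dN G P y) (h2 : 1 ≤ dN G Q y) (h3 : 1 ≤ dN G P x) (h4 : 1 ≤ dN G Q x) :
    Dense G (insert x (insert y (P ∪ Q))) := by
  refine (isSub_join hP hQ hd hyP hyQ h1 h2).dense_insert ?_ ?_
  · simp [hxP, hxQ, hxy]
  · have h5 : dN G (P ∪ Q) x ≤ dN G (insert y (P ∪ Q)) x := dN_mono G (subset_insert _ _) x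
    rw [dN_union_disjoint G hd] at h5
    omega

lemma Pack.mono {W W' : Finset V} {k : ℕ} (h : Pack G W k) (hs : W ⊆ W') : Pack G W' k := by
  obtain ⟨f, hf, hd⟩ := h
  exact ⟨f, fun i => ⟨(hf i).1.trans hs, (hf i).2⟩, hd⟩

lemma Pack.le {W : Finset V} {k k' : ℕ} (h : Pack G W k) (hs : k' ≤ k) : Pack G W k' := by
  obtain ⟨f, hf, hd⟩ := h
  refine ⟨fun i => f (Fin.castLE hs i), fun i => hf _, fun i j hij => hd _ _ ?_⟩
  intro hh
  exact hij (Fin.castLE_injective hs hh)

lemma Pack.zero (W : Finset V) : Pack G W 0 :=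
  ⟨fun i => i.elim0, fun i => i.elim0, fun i => i.elim0⟩

lemma Pack.one {W U : Finset V} (hU : U ⊆ W) (hd : Dense G U) : Pack G W 1 :=
  ⟨fun _ => U, fun _ => ⟨hU, hd⟩, fun i j h => absurd (Subsingleton.elim i j) h⟩

lemma Pack.add {W W' : Finset V} {a b : ℕ} (h : Pack G W a) (h' : Pack G W' b)
    (hd : Disjoint W W') : Pack G (W ∪ W') (a + b) := by
  obtain ⟨f, hf, hfd⟩ := h
  obtain ⟨f', hf', hfd'⟩ := h'
  refine ⟨Fin.append f f', ?_, ?_⟩
  · intro i
    refine Fin.addCases (fun j => ?_) (fun j => ?_) i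
    · rw [Fin.append_left]
      exact ⟨(hf j).1.trans subset_union_left, (hf j).2⟩
    · rw [Fin.append_right]
      exact ⟨(hf' j).1.trans subset_union_right, (hf' j).2⟩
  · intro i j
    refine Fin.addCases (fun i' => ?_) (fun i' => ?_) i <;>
      refine Fin.addCases (fun j' => ?_) (fun j' => ?_) j
    · intro hne
      rw [Fin.append_left, Fin.append_left]
      exact hfd _ _ (fun h => hne (by rw [h]))
    · intro _
      rw [Fin.append_left, Fin.append_right]
      exact hd.mono (hf i').1 (hf' j').1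
    · intro _
      rw [Fin.append_left, Fin.append_right]
      exact (hd.mono (hf j').1 (hf' i').1).symm
    · intro hne
      rw [Fin.append_right, Fin.append_right]
      exact hfd' _ _ (fun h => hne (by rw [h]))

lemma pack_of_finset {ι : Type*} [DecidableEq ι] {W : Finset V} (A : Finset ι)
    (F : ι → Finset V) (hF : ∀ α ∈ A, F α ⊆ W ∧ Dense G (F α))
    (hd : ∀ α ∈ A, ∀ β ∈ A, α ≠ β → Disjoint (F α) (F β)) : Pack G W A.card := by
  have e := A.equivFin.symm
  refine ⟨fun i => F (e i), fun i => hF _ (e i).2, fun i j hij => hd _ (e i).2 _ (e j).2 ?_⟩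
  intro hh
  exact hij (e.injective (Subtype.ext hh))

/-- pairing up `2 p` outside vertices through `2 p` common subtrees -/
theorem pack_pairs : ∀ (p : ℕ) (R : Finset V) (𝒯 : Finset (Finset V)), 2 * p ≤ R.card →
    2 * p ≤ 𝒯.card → (∀ T ∈ 𝒯, IsSub G T ∧ Disjoint T R ∧ ∀ x ∈ R, 1 ≤ dN G T x) →
    (∀ T ∈ 𝒯, ∀ T' ∈ 𝒯, T ≠ T' → Disjoint T T') →
    Pack G (R ∪ 𝒯.biUnion id) p := by
  intro p
  induction p with
  | zero => intro R 𝒯 _ _ _ _; exact Pack.zero _
  | succ p ih =>
    intro R 𝒯 hR h𝒯 hT hdis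
    obtain ⟨x, hx, y, hy, hxy⟩ := one_lt_card.mp (show 1 < R.card by omega)
    obtain ⟨T1, hT1, T2, hT2, hT12⟩ := one_lt_card.mp (show 1 < 𝒯.card by omega)
    have hd1 := hdis T1 hT1 T2 hT2 hT12
    obtain ⟨s1, r1, a1⟩ := hT T1 hT1
    obtain ⟨s2, r2, a2⟩ := hT T2 hT2
    rw [disjoint_right] at r1 r2
    have hdense := pair_dense s1 s2 hd1 hxy (r1 hx) (r2 hx) (r1 hy) (r2 hy) (a1 y hy) (a2 y hy)
      (a1 x hx) (a2 x hx)
    have hR' : ((R.erase x).erase y).card = R.card - 2 := by
      rw [card_erase_of_mem (mem_erase.mpr ⟨hxy.symm, hy⟩), card_erase_of_mem hx]; omega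
    have h𝒯' : ((𝒯.erase T1).erase T2).card = 𝒯.card - 2 := by
      rw [card_erase_of_mem (mem_erase.mpr ⟨hT12.symm, hT2⟩), card_erase_of_mem hT1]; omega
    have hsubR : (R.erase x).erase y ⊆ R := (erase_subset _ _).trans (erase_subset _ _)
    have hsubT : (𝒯.erase T1).erase T2 ⊆ 𝒯 := (erase_subset _ _).trans (erase_subset _ _)
    have hrec := ih ((R.erase x).erase y) ((𝒯.erase T1).erase T2) (by omega) (by omega)
      (fun T hT' => ⟨(hT T (hsubT hT')).1, (hT T (hsubT hT')).2.1.mono_right hsubR,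
        fun z hz => (hT T (hsubT hT')).2.2 z (hsubR hz)⟩)
      (fun T hT T' hT' => hdis T (hsubT hT) T' (hsubT hT'))
    have hone : Pack G (insert x (insert y (T1 ∪ T2))) 1 := Pack.one subset_rfl hdense
    have hdd : Disjoint ((R.erase x).erase y ∪ ((𝒯.erase T1).erase T2).biUnion id)
        (insert x (insert y (T1 ∪ T2))) := by
      rw [disjoint_left]
      intro z hz hz'
      rw [mem_union, mem_erase, mem_erase, mem_biUnion] at hz
      rw [mem_insert, mem_insert, mem_union] at hz'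
      rcases hz with ⟨hzy, hzx, hzR⟩ | ⟨T, hTm, hzT⟩
      · rcases hz' with h | h | h | h
        · exact hzx h
        · exact hzy h
        · exact r1 hzR h
        · exact r2 hzR h
      · rw [mem_erase, mem_erase] at hTm
        have hzT' : z ∈ T := hzT
        rcases hz' with h | h | h | h
        · exact disjoint_left.mp (hT T hTm.2.2).2.1 (h ▸ hzT') hx
        · exact disjoint_left.mp (hT T hTm.2.2).2.1 (h ▸ hzT') hy
        · exact disjoint_left.mp (hdis T hTm.2.2 T1 hT1 hTm.2.1) hzT' h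
        · exact disjoint_left.mp (hdis T hTm.2.2 T2 hT2 hTm.1) hzT' h
    refine (hrec.add hone hdd).mono ?_
    apply union_subset
    · apply union_subset
      · exact hsubR.trans subset_union_left
      · exact (biUnion_subset_biUnion_of_subset_left _ hsubT).trans subset_union_right
    · intro z hz
      rw [mem_insert, mem_insert, mem_union] at hz
      rw [mem_union, mem_biUnion]
      rcases hz with rfl | rfl | h | h
      · exact Or.inl hx
      · exact Or.inl hy
      · exact Or.inr ⟨T1, hT1, h⟩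
      · exact Or.inr ⟨T2, hT2, h⟩

/-- transversal of loops gives a packing -/
theorem pack_loops {W : Finset V} (hW : Sparse G W) (A : Finset V) (hAW : Disjoint A W)
    (m : V → ℕ) (f : (x : V) → Fin (m x) → Finset V)
    (hf : ∀ x ∈ A, ∀ i, f x i ⊆ W ∧ IsSub G (f x i) ∧ 2 ≤ dN G (f x i) x)
    (hfd : ∀ x ∈ A, ∀ i j, i ≠ j → Disjoint (f x i) (f x j))
    (hm : ∀ x ∈ A, A.card ≤ m x) :
    ∃ Y : V → Finset V, (∀ x ∈ A, Y x ⊆ W ∧ IsSub G (Y x) ∧ 2 ≤ dN G (Y x) x) ∧
      (∀ x ∈ A, ∀ y ∈ A, x ≠ y → Disjoint (Y x) (Y y)) := by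
  classical
  let F : V → ℕ → Finset V := fun x j => if h : j < m x then f x ⟨j, h⟩ else ∅
  have hFe : ∀ x j (h : j < m x), F x j = f x ⟨j, h⟩ := by
    intro x j h
    simp only [F]
    rw [dif_pos h]
  obtain ⟨g, hg, hgd⟩ := exists_transversal W.card W rfl hW A (fun x => range (m x)) F
    (by
      intro x hx j hj
      rw [mem_range] at hj
      rw [hFe x j hj]
      exact ⟨(hf x hx _).1, (hf x hx _).2.1⟩)
    (by
      intro x hx j hj j' hj' hne
      rw [mem_range] at hj hj'
      rw [hFe x j hj, hFe x j' hj']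
      apply hfd x hx
      intro h
      exact hne (by simpa using h))
    (by intro x hx; rw [card_range]; exact hm x hx)
  refine ⟨fun x => if h : x ∈ A then F x (g x h) else ∅, ?_, ?_⟩
  · intro x hx
    have h1 : g x hx < m x := mem_range.mp (hg x hx)
    simp only [dif_pos hx]
    rw [hFe x _ h1]
    exact hf x hx _
  · intro x hx y hy hxy
    simp only [dif_pos hx, dif_pos hy]
    exact hgd x hx y hy hxy

/-- loops at distinct vertices give a packing -/
theorem pack_of_loops {W : Finset V} (A : Finset V) (hAW : Disjoint A W)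
    (Y : V → Finset V) (hY : ∀ x ∈ A, Y x ⊆ W ∧ IsSub G (Y x) ∧ 2 ≤ dN G (Y x) x)
    (hd : ∀ x ∈ A, ∀ y ∈ A, x ≠ y → Disjoint (Y x) (Y y)) :
    Pack G (A ∪ A.biUnion Y) A.card := by
  apply pack_of_finset A (fun x => insert x (Y x))
  · intro x hx
    refine ⟨?_, ?_⟩
    · intro z hz
      rw [mem_insert] at hz
      rw [mem_union, mem_biUnion]
      rcases hz with rfl | hz
      · exact Or.inl hx
      · exact Or.inr ⟨x, hx, hz⟩
    · apply (hY x hx).2.1.dense_insert _ (hY x hx).2.2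
      intro h
      exact disjoint_left.mp hAW hx ((hY x hx).1 h)
  · intro x hx y hy hxy
    rw [disjoint_left]
    intro z hz hz'
    rw [mem_insert] at hz hz'
    rcases hz with rfl | hz <;> rcases hz' with h | hz'
    · exact hxy h
    · exact disjoint_left.mp hAW hx ((hY y hy).1 hz')
    · exact disjoint_left.mp hAW hy ((hY x hx).1 (h ▸ hz))
    · exact disjoint_left.mp (hd x hx y hy hxy) hz hz'

end

end Pool.Agent.H38
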