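import Pool.Agent.H38.Short

set_option autoImplicit false
set_option linter.unusedSectionVars false
set_option linter.unusedSimpArgs false
set_option linter.unusedVariables false

namespace Pool.Agent.H38

open Finset

section
variable {V : Type*} [DecidableEq V]

lemma dN_mono_graph {H H' : SimpleGraph V} (h : H ≤ H') (U : Finset V) (v : V) :
    dN H U v ≤ dN H' U v := by
  classical
  unfold dN
  apply card_le_card
  intro x hx
  rw [mem_filter] at hx ⊢
  exact ⟨hx.1, h hx.2⟩

open scoped Classical in
lemma eI_sup_edge (H : SimpleGraph V) (x y : V) (U : Finset V) :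
    eI (H ⊔ SimpleGraph.edge x y) U ≤ eI H U + (if x ∈ U ∧ y ∈ U then 1 else 0) := by
  classical
  unfold eI
  split_ifs with h
  · refine (card_le_card (t := (U.sym2.filter (fun e => e ∈ H.edgeSet)) ∪ {s(x, y)}) ?_).trans
      ((card_union_le _ _).trans ?_)
    · intro e
      induction e using Sym2.ind with
      | _ a b =>
        simp only [mem_filter, mem_union, mem_singleton, SimpleGraph.mem_edgeSet,
          SimpleGraph.sup_adj, SimpleGraph.edge_adj]
        rintro ⟨h1, h2 | h2⟩
        · left; exact ⟨h1, h2⟩
        · right
          rw [Sym2.eq_iff]
          rcases h2.1 with h3 | h3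
          · left; exact ⟨h3.1, h3.2⟩
          · right; exact ⟨h3.1, h3.2⟩
    · simp
  · rw [add_zero]
    apply card_le_card
    intro e
    induction e using Sym2.ind with
    | _ a b =>
      simp only [mem_filter, SimpleGraph.mem_edgeSet,
          SimpleGraph.sup_adj, SimpleGraph.edge_adj, Finset.mk_mem_sym2_iff]
      rintro ⟨h1, h2 | h2⟩
      · exact ⟨h1, h2⟩
      · exfalso
        apply h
        rcases h2.1 with ⟨h3, h4⟩ | ⟨h3, h4⟩
        · subst h3 h4; exact h1
        · subst h3 h4; exact h1.symm

theorem exists_sep (N : ℕ) : ∀ (n : ℕ) (W : Finset V), W.card = n → n ≤ N →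
    ∀ H : SimpleGraph V, (∃ U ⊆ W, Dense H U) →
    ∃ C ⊆ W, ∃ Y ⊆ W, Dense H C ∧ Y.card ≤ 2 * Nat.log 2 N + 3 ∧
      ∀ D ⊆ W, Good H D → Disjoint D Y → Disjoint D C := by
  classical
  intro n
  induction n with
  | zero =>
    intro W hW _ H hex
    obtain ⟨U, hU, hd⟩ := hex
    rw [card_eq_zero] at hW
    subst hW
    have : U = ∅ := by simpa using hU
    subst this
    exact absurd hd.1 (by simp)
  | succ n ih =>
    intro W hW hN H hex
    obtain ⟨U, hU, hd⟩ := hex
    obtain ⟨D0, hD0U, hD0⟩ := hd.exists_good
    have hD0W := hD0U.trans hU
    by_cases h3 : ∀ v ∈ W, 3 ≤ dN H W v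
    · -- short dense set
      have hne : W.Nonempty := by rw [← card_pos]; omega
      obtain ⟨C, hCW, hCd, hCc⟩ := exists_short_dense H hne h3
      refine ⟨C, hCW, C, hCW, hCd, ?_, fun D _ _ h => h⟩
      refine hCc.trans ?_
      have : Nat.log 2 W.card ≤ Nat.log 2 N := Nat.log_mono_right (by omega)
      omega
    · push Not at h3
      obtain ⟨v, hv, hdv⟩ := h3
      have hcW : (W.erase v).card = n := by rw [card_erase_of_mem hv]; omega
      by_cases h1 : dN H W v ≤ 1
      · have hnot : ∀ D ⊆ W, Good H D → v ∉ D := by
          intro D hD hg hvD
          have := hg.2 v hvD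
          have := dN_mono H hD v
          omega
        have hsub : ∀ D ⊆ W, Good H D → D ⊆ W.erase v := by
          intro D hD hg x hx
          rw [mem_erase]
          exact ⟨fun h => hnot D hD hg (h ▸ hx), hD hx⟩
        obtain ⟨C, hC, Y, hY, hCd, hYc, hsep⟩ := ih (W.erase v) hcW (by omega) H
          ⟨D0, hsub D0 hD0W hD0, hD0.dense⟩
        exact ⟨C, hC.trans (erase_subset _ _), Y, hY.trans (erase_subset _ _), hCd, hYc,
          fun D hD hg hdis => hsep D (hsub D hD hg) hg hdis⟩
      · have h2 : dN H W v = 2 := by omega
        obtain ⟨x, hx, y, hy, hxy, ax, ay⟩ := exists_two_of_two_le_dN H (show 2 ≤ dN H W v by omega)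
        -- neighbours of v in W are exactly x and y
        have honly : ∀ u ∈ W, H.Adj v u → u = x ∨ u = y := by
          intro u hu hau
          by_contra hcon
          push Not at hcon
          unfold dN at h2
          have hsub : ({u, x, y} : Finset V) ⊆ W.filter (fun u => H.Adj v u) := by
            intro z hz
            simp only [mem_insert, mem_singleton] at hz
            rw [mem_filter]
            rcases hz with rfl | rfl | rfl
            · exact ⟨hu, hau⟩
            · exact ⟨hx, ax⟩
            · exact ⟨hy, ay⟩
          have hc3 : ({u, x, y} : Finset V).card = 3 := by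
            rw [card_insert_of_notMem, card_pair hxy]
            simp [hcon.1, hcon.2]
          have := card_le_card hsub
          omega
        -- in a good set containing v both x and y occur
        have hboth : ∀ D ⊆ W, Good H D → v ∈ D → x ∈ D ∧ y ∈ D := by
          intro D hD hg hvD
          obtain ⟨w₁, hw₁, w₂, hw₂, hne, a₁, a₂⟩ := exists_two_of_two_le_dN H (hg.2 v hvD)
          rcases honly w₁ (hD hw₁) a₁ with rfl | rfl <;> rcases honly w₂ (hD hw₂) a₂ with rfl | rfl
          · exact absurd rfl hne
          · exact ⟨hw₁, hw₂⟩
          · exact ⟨hw₂, hw₁⟩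
          · exact absurd rfl hne
        by_cases hadj : H.Adj x y
        · -- triangle
          refine ⟨{v, x, y}, ?_, {x, y}, ?_, ?_, ?_, ?_⟩
          · intro z hz
            simp only [mem_insert, mem_singleton] at hz
            rcases hz with rfl | rfl | rfl <;> assumption
          · intro z hz
            simp only [mem_insert, mem_singleton] at hz
            rcases hz with rfl | rfl <;> assumption
          · refine ⟨by simp, ?_⟩
            have hxn : x ∉ ({y} : Finset V) := by simpa using hxy
            have hvn : v ∉ ({x, y} : Finset V) := by
              simp only [mem_insert, mem_singleton]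
              rintro (h | h)
              · exact ax.ne h
              · exact ay.ne h
            have e1 := eI_insert H hxn
            have e2 := eI_insert H hvn
            have d1 := one_le_dN_of_adj H (U := {y}) (by simp) hadj
            have d2 := two_le_dN_of_adj H (U := {x, y}) hxy (by simp) (by simp) ax ay
            rw [card_insert_of_notMem hvn, card_insert_of_notMem hxn, card_singleton]
            omega
          · rw [card_pair hxy]; omega
          · intro D hD hg hdis
            rw [disjoint_left] at hdis ⊢
            intro z hz hz'
            simp only [mem_insert, mem_singleton] at hz'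
            rcases hz' with rfl | rfl | rfl
            · exact hdis (hboth D hD hg hz).1 (by simp)
            · exact hdis hz (by simp)
            · exact hdis hz (by simp)
        · -- suppress v
          set H' := H ⊔ SimpleGraph.edge x y with hH'
          have hle : H ≤ H' := le_sup_left
          have hxy' : H'.Adj x y := by
            rw [hH', SimpleGraph.sup_adj, SimpleGraph.edge_adj]
            right; exact ⟨Or.inl ⟨rfl, rfl⟩, hxy⟩
          have hvx : v ≠ x := ax.ne
          have hvy : v ≠ y := ay.ne
          have htrans : ∀ D ⊆ W, Good H D → Good H' (D.erase v) := by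
            intro D hD hg
            by_cases hvD : v ∈ D
            · obtain ⟨hxD, hyD⟩ := hboth D hD hg hvD
              refine ⟨⟨x, by simp [hvx.symm, hxD]⟩, ?_⟩
              intro u hu
              rw [mem_erase] at hu
              obtain ⟨w₁, hw₁, w₂, hw₂, hne, a₁, a₂⟩ := exists_two_of_two_le_dN H (hg.2 u hu.2)
              by_cases hux : u = x
              · subst hux
                -- one of w₁, w₂ is not v ; plus y
                by_cases hw : w₁ = v
                · subst hw
                  have hw2v : w₂ ≠ w₁ := hne.symm
                  have hw2y : w₂ ≠ y := by rintro rfl; exact hadj a₂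
                  exact two_le_dN_of_adj H' hw2y (by simp [hw2v, hw₂]) (by simp [hvy.symm, hyD])
                    (hle a₂) hxy'
                · have hw1y : w₁ ≠ y := by rintro rfl; exact hadj a₁
                  exact two_le_dN_of_adj H' hw1y (by simp [hw, hw₁]) (by simp [hvy.symm, hyD])
                    (hle a₁) hxy'
              · by_cases huy : u = y
                · subst huy
                  by_cases hw : w₁ = v
                  · subst hw
                    have hw2v : w₂ ≠ w₁ := hne.symm
                    have hw2x : w₂ ≠ x := by rintro rfl; exact hadj a₂.symm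
                    exact two_le_dN_of_adj H' hw2x (by simp [hw2v, hw₂]) (by simp [hvx.symm, hxD])
                      (hle a₂) hxy'.symm
                  · have hw1x : w₁ ≠ x := by rintro rfl; exact hadj a₁.symm
                    exact two_le_dN_of_adj H' hw1x (by simp [hw, hw₁]) (by simp [hvx.symm, hxD])
                      (hle a₁) hxy'.symm
                · have hnv : ∀ w, H.Adj u w → w ≠ v := by
                    rintro w haw rfl
                    rcases honly u (hD hu.2) haw.symm with h | h
                    · exact hux h
                    · exact huy h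
                  exact two_le_dN_of_adj H' hne (by simp [hnv w₁ a₁, hw₁]) (by simp [hnv w₂ a₂, hw₂])
                    (hle a₁) (hle a₂)
            · rw [erase_eq_of_notMem hvD]
              exact ⟨hg.1, fun u hu => (hg.2 u hu).trans (dN_mono_graph hle D u)⟩
          have hsub : ∀ D ⊆ W, D.erase v ⊆ W.erase v := fun D hD => erase_subset_erase _ hD
          obtain ⟨C', hC', Y, hY, hCd, hYc, hsep⟩ := ih (W.erase v) hcW (by omega) H'
            ⟨D0.erase v, hsub D0 hD0W, (htrans D0 hD0W hD0).dense⟩
          have hvC' : v ∉ C' := fun h => by simpa using hC' h
          have heI := eI_sup_edge H x y C'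
          rw [← hH'] at heI
          by_cases hboth' : x ∈ C' ∧ y ∈ C'
          · refine ⟨insert v C', insert_subset hv (hC'.trans (erase_subset _ _)), Y,
              hY.trans (erase_subset _ _), ?_, hYc, ?_⟩
            · refine ⟨insert_nonempty _ _, ?_⟩
              rw [card_insert_of_notMem hvC', eI_insert H hvC']
              have d2 := two_le_dN_of_adj H hxy hboth'.1 hboth'.2 ax ay
              rw [if_pos hboth'] at heI
              have := hCd.2
              omega
            · intro D hD hg hdis
              have h1 : Disjoint (D.erase v) C' := hsep _ (hsub D hD) (htrans D hD hg)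
                (hdis.mono_left (erase_subset _ _))
              have hvD : v ∉ D := by
                intro hvD
                have := hboth D hD hg hvD
                rw [disjoint_left] at h1
                exact h1 (by simp [hvx.symm, this.1]) hboth'.1
              rw [erase_eq_of_notMem hvD] at h1
              rw [disjoint_insert_right]
              exact ⟨hvD, h1⟩
          · refine ⟨C', hC'.trans (erase_subset _ _), Y,
              hY.trans (erase_subset _ _), ⟨hCd.1, ?_⟩, hYc, ?_⟩
            · rw [if_neg hboth'] at heI
              have := hCd.2
              omega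
            · intro D hD hg hdis
              have h1 : Disjoint (D.erase v) C' := hsep _ (hsub D hD) (htrans D hD hg)
                (hdis.mono_left (erase_subset _ _))
              rw [disjoint_left] at h1 ⊢
              intro z hz hz'
              refine h1 ?_ hz'
              rw [mem_erase]
              exact ⟨fun h => hvC' (h ▸ hz'), hz⟩

/-- `k` pairwise disjoint dense sets inside `W` -/
def Pack (G : SimpleGraph V) (W : Finset V) (k : ℕ) : Prop :=
  ∃ f : Fin k → Finset V, (∀ i, f i ⊆ W ∧ Dense G (f i)) ∧
    ∀ i j, i ≠ j → Disjoint (f i) (f j)

/-- logarithmic hitting set -/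
theorem exists_hitting (G : SimpleGraph V) (N : ℕ) : ∀ (k : ℕ) (W : Finset V), W.card ≤ N →
    ¬ Pack G W k → ∃ X ⊆ W, X.card ≤ k * (2 * Nat.log 2 N + 3) ∧ Sparse G (W \ X) := by
  classical
  intro k
  induction k with
  | zero =>
    intro W _ h
    exfalso
    exact h ⟨fun i => i.elim0, fun i => i.elim0, fun i => i.elim0⟩
  | succ k ih =>
    intro W hW h
    by_cases hex : ∃ U ⊆ W, Dense G U
    · obtain ⟨C, hC, Y, hY, hCd, hYc, hsep⟩ := exists_sep N W.card W rfl hW G hex
      have hnp : ¬ Pack G (W \ Y) k := by
        rintro ⟨f, hf, hdis⟩
        choose g hgs hgg using fun i => (hf i).2.exists_good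
        apply h
        refine ⟨Fin.cons C g, ?_, ?_⟩
        · intro i
          refine Fin.cases ?_ ?_ i
          · exact ⟨hC, hCd⟩
          · intro j
            simp only [Fin.cons_succ]
            exact ⟨(hgs j).trans ((hf j).1.trans sdiff_subset), (hgg j).dense⟩
        · have hgC : ∀ j, Disjoint (g j) C := by
            intro j
            apply hsep (g j) ((hgs j).trans ((hf j).1.trans sdiff_subset)) (hgg j)
            rw [disjoint_left]
            intro z hz hzY
            have := (hf j).1 (hgs j hz)
            rw [mem_sdiff] at this
            exact this.2 hzY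
          intro i j
          refine Fin.cases ?_ (fun i' => ?_) i <;> refine Fin.cases ?_ (fun j' => ?_) j
          · intro h; exact absurd rfl h
          · intro _; simpa using (hgC j').symm
          · intro _; simpa using hgC i'
          · intro hne
            simp only [Fin.cons_succ]
            exact (hdis i' j' (fun h => hne (by rw [h]))).mono (hgs i') (hgs j')
      obtain ⟨X, hX, hXc, hXs⟩ := ih (W \ Y) ((card_le_card sdiff_subset).trans hW) hnp
      refine ⟨Y ∪ X, union_subset hY (hX.trans sdiff_subset), ?_, ?_⟩
      · calc (Y ∪ X).card ≤ Y.card + X.card := card_union_le _ _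
          _ ≤ (2 * Nat.log 2 N + 3) + k * (2 * Nat.log 2 N + 3) := Nat.add_le_add hYc hXc
          _ = _ := by ring
      · have : W \ (Y ∪ X) = (W \ Y) \ X := by
          ext z; simp only [mem_sdiff, mem_union]; tauto
        rwa [this]
    · refine ⟨∅, by simp, by simp, ?_⟩
      rw [sparse_iff_no_dense]
      intro U hU hd
      exact hex ⟨U, hU.trans sdiff_subset, hd⟩

end

end Pool.Agent.H38
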