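import Pool.Agent.H38.Basic

set_option autoImplicit false
set_option linter.unusedSectionVars false
set_option linter.unusedSimpArgs false
set_option linter.unusedVariables false

namespace Pool.Agent.H38

open Finset

section
variable {V : Type*} [DecidableEq V] (G : SimpleGraph V)

/-- union of two almost dense sets sharing a vertex whose intersection is sparse -/
lemma card_union_le_of_inter {P Q : Finset V}
    (hP : P.card ≤ eI G P + 1) (hQ : Q.card ≤ eI G Q + 1)
    (hi : eI G (P ∩ Q) < (P ∩ Q).card) : (P ∪ Q).card ≤ eI G (P ∪ Q) + 1 := by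
  have h1 := eI_super G P Q
  have h2 := card_union_add_card_inter P Q
  omega

lemma one_le_dN_of_adj {U : Finset V} {v w : V} (hw : w ∈ U) (h : G.Adj v w) : 1 ≤ dN G U v := by
  classical
  unfold dN
  rw [Nat.succ_le_iff, card_pos]
  exact ⟨w, by simp [hw, h]⟩

lemma two_le_dN_of_adj {U : Finset V} {v w₁ w₂ : V} (hne : w₁ ≠ w₂) (h₁ : w₁ ∈ U) (h₂ : w₂ ∈ U)
    (a₁ : G.Adj v w₁) (a₂ : G.Adj v w₂) : 2 ≤ dN G U v := by
  classical
  unfold dN
  have : ({w₁, w₂} : Finset V) ⊆ U.filter (fun u => G.Adj v u) := by
    intro x hx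
    simp only [mem_insert, mem_singleton] at hx
    rcases hx with rfl | rfl <;> simp [*]
  calc 2 = ({w₁, w₂} : Finset V).card := (card_pair hne).symm
    _ ≤ _ := card_le_card this

lemma exists_two_of_two_le_dN {U : Finset V} {v : V} (h : 2 ≤ dN G U v) :
    ∃ w₁ ∈ U, ∃ w₂ ∈ U, w₁ ≠ w₂ ∧ G.Adj v w₁ ∧ G.Adj v w₂ := by
  classical
  unfold dN at h
  obtain ⟨a, ha, b, hb, hab⟩ := Finset.one_lt_card.mp (show 1 < _ from h)
  rw [mem_filter] at ha hb
  exact ⟨a, ha.1, b, hb.1, hab, ha.2, hb.2⟩

theorem exists_short_dense {W : Finset V} (hW : W.Nonempty) (h3 : ∀ v ∈ W, 3 ≤ dN G W v) :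
    ∃ U ⊆ W, Dense G U ∧ U.card ≤ 2 * Nat.log 2 W.card + 3 := by
  classical
  by_contra hcon
  push Not at hcon
  set I := Nat.log 2 W.card with hI
  have hS : ∀ U ⊆ W, U.Nonempty → U.card ≤ 2 * I + 3 → eI G U < U.card := by
    intro U hU hne hc
    by_contra hd
    have := hcon U hU ⟨hne, by omega⟩
    omega
  obtain ⟨v0, hv0⟩ := hW
  have key : ∀ i ≤ I + 1, ∃ B L : Finset V, L ⊆ B ∧ B ⊆ W ∧ v0 ∈ B ∧
      (∀ u ∈ B, ∃ P ⊆ B, u ∈ P ∧ v0 ∈ P ∧ P.card ≤ i + 1 ∧ P.card ≤ eI G P + 1) ∧
      (∀ u ∈ L, dN G B u ≤ 1) ∧ 2 ^ i ≤ L.card := by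
    intro i
    induction i with
    | zero =>
      intro _
      refine ⟨{v0}, {v0}, subset_rfl, by simpa using hv0, by simp, ?_, ?_, by simp⟩
      · intro u hu
        rw [mem_singleton] at hu
        subst hu
        exact ⟨{u}, subset_rfl, by simp, by simp, by simp, by simp⟩
      · intro u hu
        rw [mem_singleton] at hu
        subst hu
        unfold dN
        calc _ ≤ ({u} : Finset V).card := card_filter_le _ _
          _ = 1 := by simp
    | succ i ih =>
      intro hi
      obtain ⟨B, L, hLB, hBW, hvB, hpath, hdeg, hcard⟩ := ih (by omega)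
      set L' := (W \ B).filter (fun w => ∃ u ∈ L, G.Adj w u) with hL'
      have hL'W : L' ⊆ W := by
        intro x hx
        rw [hL', mem_filter, mem_sdiff] at hx
        exact hx.1.1
      have hL'B : ∀ x ∈ L', x ∉ B := by
        intro x hx
        rw [hL', mem_filter, mem_sdiff] at hx
        exact hx.1.2
      -- no two neighbours in B
      have join : ∀ w₁ ∈ B, ∀ w₂ ∈ B, ∃ Q ⊆ B, w₁ ∈ Q ∧ w₂ ∈ Q ∧ Q.card ≤ 2 * i + 1 ∧
          Q.card ≤ eI G Q + 1 := by
        intro w₁ h₁ w₂ h₂
        obtain ⟨P, hPB, h1P, hvP, hPc, hPe⟩ := hpath w₁ h₁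
        obtain ⟨Q, hQB, h2Q, hvQ, hQc, hQe⟩ := hpath w₂ h₂
        have hc := card_union_add_card_inter P Q
        have hin : (P ∩ Q).Nonempty := ⟨v0, by simp [hvP, hvQ]⟩
        have hpos : 0 < (P ∩ Q).card := card_pos.mpr hin
        have hcP : (P ∩ Q).card ≤ P.card := card_le_card inter_subset_left
        have hlt := hS (P ∩ Q) (inter_subset_left.trans (hPB.trans hBW)) hin (by omega)
        exact ⟨P ∪ Q, union_subset hPB hQB, mem_union_left _ h1P, mem_union_right _ h2Q,
          by omega, card_union_le_of_inter G hPe hQe hlt⟩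
      have hB2 : ∀ u ∈ L', dN G B u ≤ 1 := by
        intro u hu
        by_contra hcc
        obtain ⟨w₁, h₁, w₂, h₂, hne, a₁, a₂⟩ := exists_two_of_two_le_dN G (show 2 ≤ dN G B u by omega)
        obtain ⟨Q, hQB, h1, h2, hQc, hQe⟩ := join w₁ h₁ w₂ h₂
        have huQ : u ∉ Q := fun h => hL'B u hu (hQB h)
        have e1 := eI_insert G huQ
        have e2 := two_le_dN_of_adj G hne h1 h2 a₁ a₂
        have hlt := hS (insert u Q) (insert_subset (hL'W hu) (hQB.trans hBW)) (insert_nonempty _ _)
          (by rw [card_insert_of_notMem huQ]; omega)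
        rw [card_insert_of_notMem huQ] at hlt
        omega
      have hL2 : ∀ u ∈ L', ∀ u' ∈ L', ¬ G.Adj u u' := by
        intro u hu u' hu' hadj
        have hu0 := hu
        have hu'0 := hu'
        rw [hL', mem_filter, mem_sdiff] at hu hu'
        obtain ⟨_, w, hw, haw⟩ := hu
        obtain ⟨_, w', hw', haw'⟩ := hu'
        obtain ⟨Q, hQB, h1, h2, hQc, hQe⟩ := join w (hLB hw) w' (hLB hw')
        have huQ : u ∉ Q := fun h => hL'B u hu0 (hQB h)
        have hu'Q : u' ∉ Q := fun h => hL'B u' hu'0 (hQB h)
        have e1 := eI_insert G huQ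
        have hu'Q' : u' ∉ insert u Q := by
          rw [mem_insert]; rintro (h | h)
          · exact hadj.ne h.symm
          · exact hu'Q h
        have e2 := eI_insert G hu'Q'
        have d1 := one_le_dN_of_adj G h1 haw
        have d2 := two_le_dN_of_adj G (U := insert u Q) (v := u') (w₁ := u) (w₂ := w')
          (fun h => huQ (h ▸ h2)) (mem_insert_self _ _) (mem_insert_of_mem h2) hadj.symm haw'
        have hlt := hS (insert u' (insert u Q))
          (insert_subset (hL'W hu'0) (insert_subset (hL'W hu0) (hQB.trans hBW)))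
          (insert_nonempty _ _)
          (by rw [card_insert_of_notMem hu'Q', card_insert_of_notMem huQ]; omega)
        rw [card_insert_of_notMem hu'Q', card_insert_of_notMem huQ] at hlt
        omega
      have hdisj : Disjoint B L' := by
        rw [disjoint_left]
        intro x hx hx'
        exact hL'B x hx' hx
      have hcard2 : 2 * L.card ≤ L'.card := by
        -- double counting
        have hA : ∀ u ∈ L, 2 ≤ dN G L' u := by
          intro u hu
          have h3u := h3 u (hBW (hLB hu))
          have hsplit : dN G W u ≤ dN G B u + dN G L' u := by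
            rw [← dN_union_disjoint G hdisj]
            unfold dN
            apply card_le_card
            intro x hx
            rw [mem_filter] at hx ⊢
            refine ⟨?_, hx.2⟩
            by_cases hxB : x ∈ B
            · exact mem_union_left _ hxB
            · apply mem_union_right
              rw [hL', mem_filter, mem_sdiff]
              exact ⟨⟨hx.1, hxB⟩, u, hu, hx.2.symm⟩
          have := hdeg u hu
          omega
        have hB : ∀ w ∈ L', dN G L w ≤ 1 := by
          intro w hw
          exact (dN_mono G hLB w).trans (hB2 w hw)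
        have hsum : ∑ u ∈ L, dN G L' u = ∑ w ∈ L', dN G L w := by
          unfold dN
          simp_rw [card_filter]
          rw [sum_comm]
          apply sum_congr rfl
          intro x _
          apply sum_congr rfl
          intro y _
          simp only [G.adj_comm]
        have hl : 2 * L.card ≤ ∑ u ∈ L, dN G L' u := by
          have := sum_le_sum hA
          simp at this
          omega
        have hr : ∑ w ∈ L', dN G L w ≤ L'.card := by
          have := sum_le_sum hB
          simpa using this
        omega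
      refine ⟨B ∪ L', L', subset_union_right, union_subset hBW hL'W, mem_union_left _ hvB, ?_, ?_, ?_⟩
      · intro u hu
        rw [mem_union] at hu
        rcases hu with hu | hu
        · obtain ⟨P, hPB, h1, h2, h3', h4⟩ := hpath u hu
          exact ⟨P, hPB.trans subset_union_left, h1, h2, by omega, h4⟩
        · have hu0 := hu
          rw [hL', mem_filter, mem_sdiff] at hu
          obtain ⟨_, w, hw, haw⟩ := hu
          obtain ⟨P, hPB, h1, h2, h3', h4⟩ := hpath w (hLB hw)
          have huP : u ∉ P := fun h => hL'B u hu0 (hPB h)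
          have e1 := eI_insert G huP
          have d1 := one_le_dN_of_adj G h1 haw
          refine ⟨insert u P, ?_, mem_insert_self _ _, mem_insert_of_mem h2, ?_, ?_⟩
          · exact insert_subset (mem_union_right _ hu0) (hPB.trans subset_union_left)
          · rw [card_insert_of_notMem huP]; omega
          · rw [card_insert_of_notMem huP]; omega
      · intro u hu
        rw [dN_union_disjoint G hdisj]
        have h0 : dN G L' u = 0 := by
          unfold dN
          rw [card_eq_zero, filter_eq_empty_iff]
          intro x hx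
          exact hL2 u hu x hx
        have := hB2 u hu
        omega
      · rw [pow_succ]; omega
  obtain ⟨B, L, hLB, hBW, _, _, _, hc⟩ := key (I + 1) le_rfl
  have h1 : L.card ≤ W.card := card_le_card (hLB.trans hBW)
  have h2 : W.card < 2 ^ (I + 1) := Nat.lt_pow_succ_log_self (by norm_num) _
  omega

end

end Pool.Agent.H38
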